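import Pool.Agent.Lib.MP_72d5fb_co.AA.Spec

set_option autoImplicit false

namespace QS3D.AA

open Finset

theorem t_CaC : S_CaC := by
  intro hNsq hHlf hEst hElo Y V a c p d n w t b r lam g S j s h hg hY hYa htV
  have ha : 3 ≤ a := by
    have h1 := h.mda
    have h2 : 3 * 1 ≤ (p + 1) * d := Nat.mul_le_mul (by have := h.two; omega) h.d1
    omega
  have hc : 3 ≤ c := by
    have h1 := h.mdc
    have h2 : 3 * 1 ≤ (p + 1) * d := Nat.mul_le_mul (by have := h.two; omega) h.d1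
    omega
  have hs := h.sum
  obtain ⟨E0, E1, e0, e0', e1, e1', he⟩ := hEst V a c p d n w t b r lam h
  obtain ⟨hn1, -⟩ := hNsq V a c p d t hs (by omega) (by omega) h.q1 h.q2
  have hgV := hg.hV
  have hga := hg.ha
  have g1 : 1 ≤ g := by
    rcases Nat.eq_zero_or_pos g with h0 | h0
    · rw [h0, Nat.zero_mul] at hga
      omega
    · exact h0
  have j1 : 1 ≤ j := by
    rcases Nat.eq_zero_or_pos j with h0 | h0
    · rw [h0, Nat.mul_zero] at hga
      omega
    · exact h0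
  refine ⟨E0, E1, ⟨g1, j1, ?_, ?_, hg.cop, ?_, ?_, ?_, ?_, ?_⟩, ?_⟩
  · have h1 : g * j < g * S := by rw [← hga, ← hgV]; omega
    exact lt_of_mul_lt_mul_left h1 (Nat.zero_le g)
  · intro h2
    refine hHlf V a c p d n w t b r lam h ?_
    have h3 : V = 2 * a := by rw [hgV, hga, ← h2]; ring
    omega
  · rw [hga, hgV] at hn1
    have h1 : g * S ∣ g * (g * ((g * j) ^ 2 - 1) * j ^ 2) := by
      have h2 : g * (g * ((g * j) ^ 2 - 1) * j ^ 2) = (g * j) ^ 2 * ((g * j) ^ 2 - 1) := by ring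
      rw [h2]
      exact hn1
    have h3 : S ∣ g * ((g * j) ^ 2 - 1) * j ^ 2 := Nat.dvd_of_mul_dvd_mul_left g1 h1
    exact (Nat.Coprime.pow_right 2 hg.cop).dvd_of_dvd_mul_right h3
  · rw [← hgV]; exact e0
  · rw [← hga]; exact e0'
  · rw [← hgV]; exact e1
  · rw [← hga]; exact e1'
  · refine hElo V a c p d n w t b r lam h (Y ^ 80) (E0 * E1) htV ?_ he
    have h1 : 2 * Y ^ 80 ≤ Y ^ 394 := by
      calc 2 * Y ^ 80 ≤ Y * Y ^ 80 := Nat.mul_le_mul_right _ (by omega)
        _ = Y ^ 81 := (pow_succ' Y 80).symm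
        _ ≤ Y ^ 394 := Nat.pow_le_pow_right (by omega) (by norm_num)
    omega

end QS3D.AA
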