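import Pool.Agent.Lib.MP_72d5fb_co.AA.Spec

/-!
# MP_72d5fb_co, part AA: case (D)
-/

set_option autoImplicit false

namespace QS3D.AA

open Finset

private theorem CaD_prod {Q x1 x2 x3 x4 T : ℕ} (h1 : x1 < Q) (h2 : x2 < Q) (h3 : x3 < Q)
    (h4 : x4 < Q) (hT : T ≤ 2 * x1 * x2 * x3 * x4 ^ 3) (hQ : 2 * Q ^ 6 ≤ T) : False := by
  have e : 2 * x1 * x2 * x3 * x4 ^ 3 = 2 * (x1 * (x2 * (x3 * (x4 * (x4 * x4))))) := by ring
  have e' : 2 * Q ^ 6 = 2 * (Q * (Q * (Q * (Q * (Q * Q))))) := by ring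
  rw [e] at hT
  rw [e'] at hQ
  have h5 : x4 * x4 < Q * Q := Nat.mul_lt_mul'' h4 h4
  have h6 : x4 * (x4 * x4) < Q * (Q * Q) := Nat.mul_lt_mul'' h4 h5
  have h7 := Nat.mul_lt_mul'' h3 h6
  have h8 := Nat.mul_lt_mul'' h2 h7
  have h9 := Nat.mul_lt_mul'' h1 h8
  omega

private theorem CaD_size {B D E S t V d s : ℕ} (hD : 1 ≤ D) (h1 : B * D ≤ S ^ 2)
    (h2 : V ^ 2 * E ≤ t ^ 2) (h3 : V ≤ D * E) (h4 : (d * V) ^ 2 ≤ 4 * t ^ 2 + V ^ 3)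
    (h5 : s * V = S * t) : B * (d * V) ^ 2 ≤ (8 * s * V) ^ 2 := by
  have e : (8 * s * V) ^ 2 = 32 * (S ^ 2 * t ^ 2) + 32 * (S ^ 2 * t ^ 2) := by
    have : 8 * s * V = 8 * (S * t) := by rw [mul_assoc, h5]
    rw [this]
    ring
  have h6 : 4 * (B * t ^ 2) ≤ 32 * (S ^ 2 * t ^ 2) := by
    have h7 : B * 1 ≤ S ^ 2 := (Nat.mul_le_mul_left B hD).trans h1
    have h8 : B * 1 * t ^ 2 ≤ S ^ 2 * t ^ 2 := Nat.mul_le_mul_right _ h7
    rw [mul_one] at h8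
    omega
  have h9 : B * V ^ 3 ≤ 32 * (S ^ 2 * t ^ 2) := by
    have h10 : B * D * (V ^ 2 * E) ≤ S ^ 2 * t ^ 2 := Nat.mul_le_mul h1 h2
    have h11 : B * V ^ 3 ≤ B * D * (V ^ 2 * E) := by
      calc B * V ^ 3 = B * V ^ 2 * V := by ring
        _ ≤ B * V ^ 2 * (D * E) := Nat.mul_le_mul_left _ h3
        _ = B * D * (V ^ 2 * E) := by ring
    omega
  rw [e]
  calc B * (d * V) ^ 2 ≤ B * (4 * t ^ 2 + V ^ 3) := Nat.mul_le_mul_left B h4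
    _ = 4 * (B * t ^ 2) + B * V ^ 3 := by ring
    _ ≤ _ := Nat.add_le_add h6 h9

theorem t_CaD : S_CaD := by
  intro hA hB hI hDec Y V a c p d n w t b r lam g S j s P G hs hY hV ht hS
  have hd := P.d1
  have hp := P.two
  have hmda := P.mda
  have hsum := P.sum
  have ht1 := P.t1
  have hmul : 0 < (p + 1) * d := Nat.mul_pos (by omega) hd
  have hV0 : 0 < V := by omega
  have hs0 : 0 < s := by
    rcases Nat.eq_zero_or_pos s with h | h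
    · have h1 := G.ht
      rw [h, Nat.mul_zero] at h1
      omega
    · exact h
  have hY1 : 1 ≤ Y := by omega
  have hpw : ∀ k : ℕ, 1 ≤ Y ^ k := fun k => Nat.one_le_pow _ _ hY1
  have hY4 : 81 ≤ Y ^ 4 := by
    calc 81 = 3 ^ 4 := by norm_num
      _ ≤ Y ^ 4 := Nat.pow_le_pow_left hY 4
  have hY80 : 4 ≤ Y ^ 80 := by
    have : Y ^ 4 ≤ Y ^ 80 := Nat.pow_le_pow_right hY1 (by norm_num)
    omega
  have h4V : 4 * V ≤ t := by
    have : V * 4 ≤ V * Y ^ 80 := Nat.mul_le_mul_left V hY80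
    omega
  have h4 : (d * V) ^ 2 ≤ 4 * t ^ 2 + V ^ 3 := by
    have h5 := hI V a c p d n w t b r lam P
    have h6 : (t + 4 * V) ^ 2 ≤ (2 * t) ^ 2 := Nat.pow_le_pow_left (by omega) 2
    have h7 : (2 * t) ^ 2 = 4 * t ^ 2 := by ring
    omega
  have h5 : s * V = S * t := by
    have h6 := G.hV
    have h7 := G.ht
    calc s * V = s * (g * S) := by rw [← h6]
      _ = S * (g * s) := by ring
      _ = S * t := by rw [← h7]
  have key : Y ^ 76 * d ≤ 8 * s := by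
    have h6 : Y ^ 152 * (d * V) ^ 2 ≤ (8 * s * V) ^ 2 := by
      refine CaD_size (B := Y ^ 152) (D := Y ^ 240) (E := Y ^ 160) (hpw 240) ?_ ?_ ?_ h4 h5
      · calc Y ^ 152 * Y ^ 240 = (Y ^ 196) ^ 2 := by rw [← pow_add, ← pow_mul]
          _ ≤ S ^ 2 := Nat.pow_le_pow_left hS 2
      · calc V ^ 2 * Y ^ 160 = (V * Y ^ 80) ^ 2 := by rw [mul_pow, ← pow_mul]
          _ ≤ t ^ 2 := Nat.pow_le_pow_left ht 2
      · calc V ≤ Y ^ 400 := hV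
          _ = Y ^ 240 * Y ^ 160 := by rw [← pow_add]
    have h7 : (Y ^ 76 * d * V) ^ 2 ≤ (8 * s * V) ^ 2 := by
      calc (Y ^ 76 * d * V) ^ 2 = (Y ^ 76) ^ 2 * (d * V) ^ 2 := by ring
        _ = Y ^ 152 * (d * V) ^ 2 := by rw [← pow_mul]
        _ ≤ _ := h6
    have h8 : Y ^ 76 * d * V ≤ 8 * s * V := (Nat.pow_le_pow_iff_left (by norm_num)).1 h7
    exact Nat.le_of_mul_le_mul_right h8 hV0
  have hgcd : s ≤ Nat.gcd s (p + 1) * Nat.gcd s p * d := by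
    have h6 : s ∣ Nat.gcd s p * Nat.gcd s (p + 1) * Nat.gcd s d := by
      have h7 : s = Nat.gcd s (p * (p + 1) * d) := (Nat.gcd_eq_left hs).symm
      have h8 : Nat.gcd s (p * (p + 1) * d) ∣ Nat.gcd s (p * (p + 1)) * Nat.gcd s d :=
        Nat.gcd_mul_right_dvd_mul_gcd _ _ _
      have h9 : Nat.gcd s (p * (p + 1)) ∣ Nat.gcd s p * Nat.gcd s (p + 1) :=
        Nat.gcd_mul_right_dvd_mul_gcd _ _ _
      have h10 := h8.trans (Nat.mul_dvd_mul_right h9 (Nat.gcd s d))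
      rwa [← h7] at h10
    have h7 : 0 < Nat.gcd s p * Nat.gcd s (p + 1) * Nat.gcd s d :=
      Nat.mul_pos (Nat.mul_pos (Nat.gcd_pos_of_pos_left _ hs0) (Nat.gcd_pos_of_pos_left _ hs0))
        (Nat.gcd_pos_of_pos_left _ hs0)
    calc s ≤ Nat.gcd s p * Nat.gcd s (p + 1) * Nat.gcd s d := Nat.le_of_dvd h7 h6
      _ ≤ Nat.gcd s p * Nat.gcd s (p + 1) * d :=
          Nat.mul_le_mul_left _ (Nat.gcd_le_right _ hd)
      _ = _ := by ring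
  have hT : Y ^ 76 ≤ 8 * (Nat.gcd s (p + 1) * Nat.gcd s p) := by
    have h6 : Y ^ 76 * d ≤ 8 * (Nat.gcd s (p + 1) * Nat.gcd s p) * d := by
      calc Y ^ 76 * d ≤ 8 * s := key
        _ ≤ 8 * (Nat.gcd s (p + 1) * Nat.gcd s p * d) := Nat.mul_le_mul_left 8 hgcd
        _ = _ := by ring
    exact Nat.le_of_mul_le_mul_right h6 hd
  have hcase : 2 * (Y ^ 6) ^ 6 ≤ Nat.gcd s (p + 1) ∨ 2 * (Y ^ 6) ^ 6 ≤ Nat.gcd s p := by
    by_contra hc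
    push Not at hc
    rw [← pow_mul] at hc
    norm_num at hc
    have h6 := Nat.mul_lt_mul'' hc.1 hc.2
    have h7 : 2 * Y ^ 36 * (2 * Y ^ 36) = 4 * Y ^ 72 := by ring
    have h8 : Y ^ 76 = Y ^ 4 * Y ^ 72 := by ring
    have h9 : 81 * Y ^ 72 ≤ Y ^ 4 * Y ^ 72 := Nat.mul_le_mul_right _ hY4
    have h10 := hpw 72
    omega
  by_contra hcon
  rw [not_or] at hcon
  obtain ⟨hn1, hn2⟩ := hcon
  have hh : ∀ h, h ^ 2 ∣ V → h < Y ^ 6 := by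
    intro h h6
    by_contra h7
    exact hn1 ⟨h, not_lt.1 h7, h6⟩
  have hd1 : d ≠ 1 := fun h => hn2 (Or.inl h)
  have hr : ∀ e, ((e ∣ p + 1 ∧ e ∣ d) ∨ (e ∣ p + 1 ∧ e ∣ d + 1) ∨ e ^ 2 ∣ p + 1 ∨
      (e ∣ p ∧ e ∣ d) ∨ (e ∣ p ∧ e ∣ d - 1) ∨ e ^ 2 ∣ p) → e < Y ^ 6 := by
    intro e h6
    by_contra h7
    exact hn2 (Or.inr ⟨e, not_lt.1 h7, h6⟩)
  rcases hcase with hc | hc
  · obtain ⟨h, f, h1, h2, h3⟩ := hDec (p + 1) (Nat.gcd s (p + 1)) d (d + 1) V (by omega) hd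
      (by omega) hV0 (Nat.gcd_dvd_right _ _) (fun q hq hq2 hqT hqx =>
        hA V a c p d n w t b r lam g S j s P G q hq hq2 (hqT.trans (Nat.gcd_dvd_left _ _))
          (hqT.trans (Nat.gcd_dvd_right _ _)) hqx)
    exact CaD_prod
      (hr _ (Or.inl ⟨Nat.gcd_dvd_left _ _, Nat.gcd_dvd_right _ _⟩))
      (hr _ (Or.inr (Or.inl ⟨Nat.gcd_dvd_left _ _, Nat.gcd_dvd_right _ _⟩)))
      (hh h h1) (hr f (Or.inr (Or.inr (Or.inl h2)))) h3 hc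
  · obtain ⟨h, f, h1, h2, h3⟩ := hDec p (Nat.gcd s p) d (d - 1) V (by omega) hd
      (by omega) hV0 (Nat.gcd_dvd_right _ _) (fun q hq hq2 hqT hqx =>
        hB V a c p d n w t b r lam g S j s P G q hq hq2 (hqT.trans (Nat.gcd_dvd_left _ _))
          (hqT.trans (Nat.gcd_dvd_right _ _)) hqx)
    exact CaD_prod
      (hr _ (Or.inr (Or.inr (Or.inr (Or.inl ⟨Nat.gcd_dvd_left _ _, Nat.gcd_dvd_right _ _⟩)))))
      (hr _ (Or.inr (Or.inr (Or.inr (Or.inr (Or.inl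
        ⟨Nat.gcd_dvd_left _ _, Nat.gcd_dvd_right _ _⟩))))))
      (hh h h1) (hr f (Or.inr (Or.inr (Or.inr (Or.inr (Or.inr h2)))))) h3 hc

end QS3D.AA
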