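import Pool.Agent.Lib.MP_72d5fb_co.AA.Spec

/-! MP_72d5fb_co, AA/CntA: counting the `V` with `V ∣ e^2 (e^2-1)`, `e` small. -/

set_option autoImplicit false

namespace QS3D.AA

open Finset

private theorem CntA_aux (X K : ℕ) (F : Finset ℕ)
    (hF : ∀ V ∈ F, ∃ e, 2 ≤ e ∧ e ≤ X ∧ V ∣ e ^ 2 * (e ^ 2 - 1))
    (hτ : ∀ e, 2 ≤ e → e ≤ X → ((e ^ 2 * (e ^ 2 - 1)).divisors).card ≤ K) :
    F.card ≤ X * K := by
  classical
  have hsub : F ⊆ (Icc 2 X).biUnion fun e => (e ^ 2 * (e ^ 2 - 1)).divisors := by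
    intro V hV
    obtain ⟨e, h2, he, hd⟩ := hF V hV
    refine mem_biUnion.2 ⟨e, mem_Icc.2 ⟨h2, he⟩, Nat.mem_divisors.2 ⟨hd, ?_⟩⟩
    have h4 : 4 ≤ e ^ 2 := by nlinarith
    have : 0 < e ^ 2 * (e ^ 2 - 1) := Nat.mul_pos (by omega) (by omega)
    omega
  have h1 : F.card ≤ ((Icc 2 X).biUnion fun e => (e ^ 2 * (e ^ 2 - 1)).divisors).card :=
    card_le_card hsub
  have h2 : ((Icc 2 X).biUnion fun e => (e ^ 2 * (e ^ 2 - 1)).divisors).card ≤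
      ∑ e ∈ Icc 2 X, ((e ^ 2 * (e ^ 2 - 1)).divisors).card := card_biUnion_le
  have h3 : ∑ e ∈ Icc 2 X, ((e ^ 2 * (e ^ 2 - 1)).divisors).card ≤ ∑ _e ∈ Icc 2 X, K := by
    refine sum_le_sum fun e he => ?_
    exact hτ e (mem_Icc.1 he).1 (mem_Icc.1 he).2
  have h4 : ∑ _e ∈ Icc 2 X, K ≤ X * K := by
    rw [sum_const, smul_eq_mul]
    apply Nat.mul_le_mul_right
    rw [Nat.card_Icc]; omega
  exact h1.trans (h2.trans (h3.trans h4))

theorem t_CntA : S_CntA := by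
  rintro ⟨C, hC⟩
  refine ⟨C, fun Y hY F hF => ?_⟩
  have h := CntA_aux (Y ^ 394) (C * Y) F hF ?_
  · calc F.card ≤ Y ^ 394 * (C * Y) := h
      _ = C * (Y ^ 394 * Y) := by ring
      _ = C * Y ^ 395 := by rw [← pow_succ]
  · intro e h2 he
    have h4 : 4 ≤ e ^ 2 := by nlinarith
    have hpos : 0 < e ^ 2 * (e ^ 2 - 1) := Nat.mul_pos (by omega) (by omega)
    have hle : e ^ 2 * (e ^ 2 - 1) ≤ 64 * Y ^ 1600 := by
      have e1 : e ^ 2 * (e ^ 2 - 1) ≤ e ^ 4 := by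
        calc e ^ 2 * (e ^ 2 - 1) ≤ e ^ 2 * e ^ 2 := Nat.mul_le_mul_left _ (Nat.sub_le _ _)
          _ = e ^ 4 := by rw [← pow_add]
      have e2 : e ^ 4 ≤ (Y ^ 394) ^ 4 := Nat.pow_le_pow_left he _
      have e3 : (Y ^ 394) ^ 4 ≤ Y ^ 1600 := by
        rw [← pow_mul]
        exact Nat.pow_le_pow_right hY (by norm_num)
      have e4 : Y ^ 1600 ≤ 64 * Y ^ 1600 := Nat.le_mul_of_pos_left _ (by norm_num)
      exact e1.trans (e2.trans (e3.trans e4))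
    exact (Nat.le_self_pow (by norm_num) _).trans (hC Y hY _ hpos hle)

end QS3D.AA
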