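import Pool.Agent.Lib.MP_72d5fb_co.AA.Spec

/-! MP_72d5fb_co, AA/CntB: counting the `V` near a square. -/

set_option autoImplicit false

namespace QS3D.AA

open Finset

theorem t_CntB : S_CntB := by
  refine ⟨292, fun Y hY F hF => ?_⟩
  classical
  let T : ℕ := 36 * Y ^ 172
  let G : Finset (ℕ × ℤ) := (range (Y ^ 200 + 3)) ×ˢ (Icc (-(T : ℤ)) (T : ℤ))
  let φ : ℕ × ℤ → ℤ := fun z => (z.1 : ℤ) ^ 2 - 1 + z.2
  have hsub : (F.image fun V : ℕ => (V : ℤ)) ⊆ G.image φ := by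
    intro z hz
    obtain ⟨V, hV, rfl⟩ := mem_image.1 hz
    obtain ⟨M, hM, hD⟩ := hF V hV
    refine mem_image.2 ⟨(M, (V : ℤ) + 1 - (M : ℤ) ^ 2), ?_, ?_⟩
    · refine mem_product.2 ⟨mem_range.2 (by simp only; omega), mem_Icc.2 ?_⟩
      have h := abs_le.1 hD
      have hT : ((T : ℕ) : ℤ) = 36 * (Y : ℤ) ^ 172 := by simp [T]
      rw [hT]
      exact h
    · simp only [φ]; ring
  have h1 : (F.image fun V : ℕ => (V : ℤ)).card = F.card :=
    card_image_of_injective _ Nat.cast_injective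
  have h2 : F.card ≤ G.card := by
    rw [← h1]
    exact (card_le_card hsub).trans card_image_le
  have h3 : G.card = (Y ^ 200 + 3) * (2 * T + 1) := by
    simp only [G, card_product, card_range, Int.card_Icc]
    congr 1
    omega
  have hp1 : 1 ≤ Y ^ 200 := Nat.one_le_pow _ _ hY
  have hp2 : 1 ≤ Y ^ 172 := Nat.one_le_pow _ _ hY
  calc F.card ≤ (Y ^ 200 + 3) * (2 * T + 1) := by rw [← h3]; exact h2
    _ ≤ (4 * Y ^ 200) * (73 * Y ^ 172) := by
      refine Nat.mul_le_mul (by omega) ?_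
      show 2 * (36 * Y ^ 172) + 1 ≤ 73 * Y ^ 172
      omega
    _ = 292 * (Y ^ 200 * Y ^ 172) := by ring
    _ = 292 * Y ^ 372 := by rw [← pow_add]

end QS3D.AA
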