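import Pool.Agent.Lib.MP_72d5fb_co.AA.Spec

/-! MP_72d5fb_co, AA/Sep: the separation lemma. -/

set_option autoImplicit false

namespace QS3D.AA

open Finset

/-- a common divisor of `g j - 1` and ... -/
private theorem Sep_cop {g j B : ℕ} (hgj : 1 ≤ g * j) (h : B ∣ g * j - 1) : Nat.Coprime B (g * j) := by
  have h1 : Nat.gcd B (g * j) ∣ 1 := by
    have e1 : Nat.gcd B (g * j) ∣ g * j - 1 := (Nat.gcd_dvd_left _ _).trans h
    have e2 : Nat.gcd B (g * j) ∣ g * j := Nat.gcd_dvd_right _ _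
    have e3 : g * j - (g * j - 1) = 1 := by omega
    rw [← e3]
    exact Nat.dvd_sub e2 e1
  exact Nat.dvd_one.1 h1

private theorem Sep_cop' {g j B : ℕ} (h : B ∣ g * j + 1) : Nat.Coprime B (g * j) := by
  have h1 : Nat.gcd B (g * j) ∣ 1 := by
    have e1 : Nat.gcd B (g * j) ∣ g * j + 1 := (Nat.gcd_dvd_left _ _).trans h
    have e2 : Nat.gcd B (g * j) ∣ g * j := Nat.gcd_dvd_right _ _
    exact (Nat.dvd_add_right e2).1 e1
  exact Nat.dvd_one.1 h1

/-- if `X Y ∣ gcd-bound` : from `X ∣ n`, `Y ∣ n`, `gcd X Y ∣ 2` we get `X Y ∣ 2 n`. -/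
private theorem Sep_mul {X Y n : ℕ} (hX : X ∣ n) (hY : Y ∣ n) (hg : Nat.gcd X Y ∣ 2) :
    X * Y ∣ 2 * n := by
  rw [← Nat.gcd_mul_lcm X Y]
  exact Nat.mul_dvd_mul hg (Nat.lcm_dvd hX hY)

theorem t_Sep : S_Sep := by
  intro S j g g' A B C E0 E1 hj hg' hlt hcop hS hA hA' hB hB' hC hC' h0 h0' h1 h1'
  obtain ⟨D, rfl⟩ : ∃ D, g = g' + D := ⟨g - g', by omega⟩
  have hD : g' + D - g' = D := by omega
  rw [hD]
  have hD0 : 0 < D := by omega
  have hgj : 1 ≤ (g' + D) * j := Nat.mul_pos (by omega) hj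
  have hgj' : 1 ≤ g' * j := Nat.mul_pos (by omega) hj
  -- divisors of `D`
  have dA : A ∣ D := (Nat.dvd_add_right hA').1 hA
  have cB : Nat.Coprime B ((g' + D) * j) := Sep_cop hgj hB
  have cC : Nat.Coprime C ((g' + D) * j) := Sep_cop' hC
  have dB : B ∣ D := by
    have e : (g' + D) * j - 1 = (g' * j - 1) + D * j := by
      rw [add_mul]; omega
    rw [e] at hB
    have e2 : B ∣ D * j := (Nat.dvd_add_right hB').1 hB
    exact Nat.Coprime.dvd_of_dvd_mul_right (Nat.Coprime.coprime_mul_left_right cB) e2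
  have dC : C ∣ D := by
    have e : (g' + D) * j + 1 = (g' * j + 1) + D * j := by
      rw [add_mul]; omega
    rw [e] at hC
    have e2 : C ∣ D * j := (Nat.dvd_add_right hC').1 hC
    exact Nat.Coprime.dvd_of_dvd_mul_right (Nat.Coprime.coprime_mul_left_right cC) e2
  -- `S ∣ 2 D`
  have gBC : Nat.gcd B C ∣ 2 := by
    have e1 : Nat.gcd B C ∣ (g' + D) * j - 1 := (Nat.gcd_dvd_left _ _).trans hB
    have e2 : Nat.gcd B C ∣ (g' + D) * j + 1 := (Nat.gcd_dvd_right _ _).trans hC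
    have e3 : ((g' + D) * j + 1) - ((g' + D) * j - 1) = 2 := by omega
    rw [← e3]
    exact Nat.dvd_sub e2 e1
  have cAB : Nat.Coprime A B :=
    Nat.Coprime.coprime_dvd_left (hA.mul_right j) cB.symm
  have cAC : Nat.Coprime A C :=
    Nat.Coprime.coprime_dvd_left (hA.mul_right j) cC.symm
  have dBC : B * C ∣ 2 * D := Sep_mul dB dC gBC
  have dS : S ∣ 2 * D := by
    rw [hS, mul_assoc]
    exact Nat.Coprime.mul_dvd_of_dvd_of_dvd (Nat.Coprime.mul_right cAB cAC)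
      (dA.mul_left 2) dBC
  -- `E0 E1 ∣ 2 D`
  have cE1 : Nat.Coprime E1 S := by
    have e1 : Nat.gcd E1 S ∣ (g' + D) * S + 1 := (Nat.gcd_dvd_left _ _).trans h1
    have e2 : Nat.gcd E1 S ∣ (g' + D) * S := (Nat.gcd_dvd_right _ _).mul_left _
    exact Nat.dvd_one.1 ((Nat.dvd_add_right e2).1 e1)
  have dE1 : E1 ∣ D := by
    have e : (g' + D) * S + 1 = (g' * S + 1) + D * S := by ring
    rw [e] at h1
    exact Nat.Coprime.dvd_of_dvd_mul_right cE1 ((Nat.dvd_add_right h1').1 h1)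
  have gE0 : Nat.gcd E0 S ∣ 2 := by
    have e1 : Nat.gcd E0 S ∣ (g' + D) * S + 2 := (Nat.gcd_dvd_left _ _).trans h0
    have e2 : Nat.gcd E0 S ∣ (g' + D) * S := (Nat.gcd_dvd_right _ _).mul_left _
    exact (Nat.dvd_add_right e2).1 e1
  have dE0S : E0 ∣ D * S := by
    have e : (g' + D) * S + 2 = (g' * S + 2) + D * S := by ring
    rw [e] at h0
    exact (Nat.dvd_add_right h0').1 h0
  have dE0 : E0 ∣ 2 * D := by
    have e : E0 ∣ D * ((g' + D) * S + 2) := h0.mul_left D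
    have e' : D * ((g' + D) * S + 2) = (g' + D) * (D * S) + 2 * D := by ring
    rw [e'] at e
    exact (Nat.dvd_add_right (dE0S.mul_left _)).1 e
  have cE : Nat.Coprime E0 E1 := by
    have e1 : Nat.gcd E0 E1 ∣ (g' + D) * S + 2 := (Nat.gcd_dvd_left _ _).trans h0
    have e2 : Nat.gcd E0 E1 ∣ (g' + D) * S + 1 := (Nat.gcd_dvd_right _ _).trans h1
    have e3 : (g' + D) * S + 2 = ((g' + D) * S + 1) + 1 := rfl
    rw [e3] at e1
    exact Nat.dvd_one.1 ((Nat.dvd_add_right e2).1 e1)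
  have dE : E0 * E1 ∣ 2 * D :=
    Nat.Coprime.mul_dvd_of_dvd_of_dvd cE dE0 (dE1.mul_left 2)
  -- conclusion
  have gSE : Nat.gcd S (E0 * E1) ∣ 2 := by
    have e : Nat.gcd S (E0 * E1) = Nat.gcd S E0 := Nat.Coprime.gcd_mul_right_cancel_right E0 cE1
    rw [e, Nat.gcd_comm]
    exact gE0
  have h := Sep_mul dS dE gSE
  have e : 2 * (2 * D) = 4 * D := by ring
  rwa [e] at h

end QS3D.AA
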