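import Pool.Agent.Lib.MP_72d5fb_co.AA.Spec

/-!
# MP_72d5fb_co, part AA: the spacing lemma (helper26)
-/

set_option autoImplicit false

namespace QS3D.AA

open Finset

theorem t_Spc : S_Spc := by
  intro X Δ F hΔ hX hsep
  have key : ∀ g ∈ F, ∀ g' ∈ F, g' < g → 4 * g' / Δ < 4 * g / Δ := by
    intro g hg g' hg' hlt
    have h := hsep g hg g' hg' hlt
    have h1 : (4 * g' + Δ) / Δ = 4 * g' / Δ + 1 := Nat.add_div_right _ hΔ
    have h2 : 4 * g' + Δ ≤ 4 * g := by omega
    have h3 := Nat.div_le_div_right (c := Δ) h2
    omega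
  have h1 : F.card ≤ (range (4 * X / Δ + 1)).card := by
    apply card_le_card_of_injOn (fun g => 4 * g / Δ)
    · intro g hg
      have h2 := hX g hg
      have h3 := Nat.div_le_div_right (c := Δ) (show 4 * g ≤ 4 * X by omega)
      have h4 : 4 * g / Δ ∈ range (4 * X / Δ + 1) := by
        rw [mem_range]; omega
      exact h4
    · intro g hg g' hg' he
      have he' : 4 * g / Δ = 4 * g' / Δ := he
      rcases lt_trichotomy g g' with h | h | h
      · have := key g' hg' g hg h
        omega
      · exact h
      · have := key g hg g' hg' h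
        omega
  rwa [card_range] at h1

end QS3D.AA
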