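import Pool.Agent.Lib.MP_72d5fb_co.AA.Spec
import Pool.Agent.Lib.MP_640417_ag.All.Divisor

/-!
# MP_72d5fb_co, part AA: the divisor bound with natural numbers
-/

set_option autoImplicit false

namespace QS3D.AA

open Finset

theorem t_Tau : S_Tau := by
  obtain ⟨C0, hC0, h⟩ :=
    Pool.Agent.Lib.MP_640417_ag.All.divisor_bound ((1 : ℝ) / 12800) (by norm_num)
  refine ⟨⌈C0 ^ 8 * 64⌉₊, fun Y hY n hn hnY => ?_⟩
  have h1 := h n hn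
  have hY' : (1 : ℝ) ≤ Y := by exact_mod_cast hY
  have hY0 : (0 : ℝ) ≤ 64 * Y := by positivity
  have h3 : (n : ℝ) ≤ (64 * (Y : ℝ)) ^ (1600 : ℕ) := by
    have h4 : (n : ℝ) ≤ 64 * (Y : ℝ) ^ (1600 : ℕ) := by exact_mod_cast hnY
    rw [mul_pow]
    have h5 : (64 : ℝ) ≤ 64 ^ (1600 : ℕ) := le_self_pow₀ (by norm_num) (by norm_num)
    exact h4.trans (mul_le_mul_of_nonneg_right h5 (by positivity))
  have h2 : ((n : ℝ) ^ ((1 : ℝ) / 12800)) ^ (8 : ℕ) ≤ 64 * Y := by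
    rw [← Real.rpow_natCast, ← Real.rpow_mul (Nat.cast_nonneg n)]
    have e : (1 : ℝ) / 12800 * ((8 : ℕ) : ℝ) = 1 / ((1600 : ℕ) : ℝ) := by norm_num
    rw [e]
    calc (n : ℝ) ^ ((1 : ℝ) / ((1600 : ℕ) : ℝ))
        ≤ ((64 * (Y : ℝ)) ^ (1600 : ℕ)) ^ ((1 : ℝ) / ((1600 : ℕ) : ℝ)) :=
          Real.rpow_le_rpow (Nat.cast_nonneg n) h3 (by positivity)
      _ = 64 * Y := by
          rw [one_div]
          exact Real.pow_rpow_inv_natCast hY0 (by norm_num)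
  have h6 : ((n.divisors.card : ℝ)) ^ (8 : ℕ) ≤ C0 ^ 8 * 64 * Y := by
    calc ((n.divisors.card : ℝ)) ^ (8 : ℕ) ≤ (C0 * (n : ℝ) ^ ((1 : ℝ) / 12800)) ^ (8 : ℕ) :=
          pow_le_pow_left₀ (Nat.cast_nonneg _) h1 8
      _ = C0 ^ 8 * ((n : ℝ) ^ ((1 : ℝ) / 12800)) ^ (8 : ℕ) := mul_pow _ _ _
      _ ≤ C0 ^ 8 * (64 * Y) := mul_le_mul_of_nonneg_left h2 (by positivity)
      _ = C0 ^ 8 * 64 * Y := by ring
  have h7 : ((n.divisors.card : ℝ)) ^ (8 : ℕ) ≤ (⌈C0 ^ 8 * 64⌉₊ : ℝ) * Y :=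
    h6.trans (mul_le_mul_of_nonneg_right (Nat.le_ceil _) (by positivity))
  exact_mod_cast h7

end QS3D.AA
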