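import Pool.Agent.Lib.MP_72d5fb_co.AA.Spec
import Pool.Agent.Lib.MP_72d5fb_co.AA.Tau
import Pool.Agent.Lib.MP_72d5fb_co.AA.Sep
import Pool.Agent.Lib.MP_72d5fb_co.AA.Spc

/-!
# MP_72d5fb_co, part AA: the sum of CntG over S and j (helper26)
-/

set_option autoImplicit false

namespace QS3D.AA

open Finset

theorem CntC_aux (hG : ∃ C : ℕ, ∀ Y : ℕ, 1 ≤ Y → ∀ S j : ℕ,
    S ≤ Y ^ 196 → ∀ F : Finset ℕ,
    (∀ g ∈ F, g * S ≤ Y ^ 400 ∧ ∃ E0 E1 : ℕ, CD g S j E0 E1 ∧ Y ^ 80 ≤ E0 * E1) →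
    (F.card : ℝ) ≤ C * Y * (1 + 4 * (Y : ℝ) ^ 320 / (S : ℝ) ^ 2)) (hHar : S_Har) :
    ∃ C : ℕ, ∀ Y : ℕ, 1 ≤ Y → ∀ F : Finset ℕ,
    (∀ V ∈ F, V ≤ Y ^ 400 ∧ ∃ g S j E0 E1 : ℕ, V = g * S ∧ S ≤ Y ^ 196 ∧ CD g S j E0 E1 ∧
    Y ^ 80 ≤ E0 * E1) → F.card ≤ C * Y ^ 393 := by
  classical
  obtain ⟨C, hC⟩ := hG
  obtain ⟨C', hC'⟩ := hHar 196
  refine ⟨C * (1 + 4 * C'), ?_⟩
  intro Y hY F hF
  have hYr : (1 : ℝ) ≤ Y := by exact_mod_cast hY
  obtain ⟨G, hGdef⟩ : ∃ G : ℕ → ℕ → Finset ℕ, ∀ S j g, g ∈ G S j ↔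
      (g * S ≤ Y ^ 400 ∧ ∃ E0 E1 : ℕ, CD g S j E0 E1 ∧ Y ^ 80 ≤ E0 * E1) := by
    refine ⟨fun S j => (range (Y ^ 400 + 1)).filter (fun g =>
      g * S ≤ Y ^ 400 ∧ ∃ E0 E1 : ℕ, CD g S j E0 E1 ∧ Y ^ 80 ≤ E0 * E1), ?_⟩
    intro S j g
    rw [mem_filter, mem_range]
    constructor
    · rintro ⟨_, h⟩
      exact h
    · intro h
      refine ⟨?_, h⟩
      obtain ⟨h1, E0, E1, h2, _⟩ := h
      have h3 : 1 ≤ S := by
        have := h2.jS
        omega
      have h4 : g * 1 ≤ g * S := Nat.mul_le_mul_left g h3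
      omega
  have hsub : F ⊆ (Icc 1 (Y ^ 196)).biUnion (fun S => (range S).biUnion
      (fun j => (G S j).image (fun g => g * S))) := by
    intro V hV
    obtain ⟨h1, g, S, j, E0, E1, rfl, h2, h3, h4⟩ := hF V hV
    rw [mem_biUnion]
    have hjS := h3.jS
    refine ⟨S, ?_, ?_⟩
    · rw [mem_Icc]
      exact ⟨by omega, h2⟩
    · rw [mem_biUnion]
      refine ⟨j, ?_, ?_⟩
      · rw [mem_range]
        exact hjS
      · rw [mem_image]
        exact ⟨g, (hGdef S j g).mpr ⟨h1, E0, E1, h3, h4⟩, rfl⟩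
  have hcard : F.card ≤ ∑ S ∈ Icc 1 (Y ^ 196), ∑ j ∈ range S, (G S j).card := by
    calc F.card ≤ _ := card_le_card hsub
      _ ≤ ∑ S ∈ Icc 1 (Y ^ 196), ((range S).biUnion
          (fun j => (G S j).image (fun g => g * S))).card := card_biUnion_le
      _ ≤ _ := by
        apply sum_le_sum
        intro S _
        calc ((range S).biUnion (fun j => (G S j).image (fun g => g * S))).card
            ≤ ∑ j ∈ range S, ((G S j).image (fun g => g * S)).card := card_biUnion_le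
          _ ≤ _ := by
            apply sum_le_sum
            intro j _
            exact card_image_le
  have hone : ∀ S ∈ Icc 1 (Y ^ 196), ∀ j, ((G S j).card : ℝ) ≤
      C * Y * (1 + 4 * (Y : ℝ) ^ 320 / (S : ℝ) ^ 2) := by
    intro S hS j
    rw [mem_Icc] at hS
    apply hC Y hY S j hS.2
    intro g hg
    exact (hGdef S j g).mp hg
  have hreal : (F.card : ℝ) ≤ C * (1 + 4 * C') * (Y : ℝ) ^ 393 := by
    calc (F.card : ℝ) ≤ ((∑ S ∈ Icc 1 (Y ^ 196), ∑ j ∈ range S, (G S j).card : ℕ) : ℝ) := by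
          exact_mod_cast hcard
      _ = ∑ S ∈ Icc 1 (Y ^ 196), ∑ j ∈ range S, ((G S j).card : ℝ) := by
          push_cast
          rfl
      _ ≤ ∑ S ∈ Icc 1 (Y ^ 196), ∑ j ∈ range S,
          (C * Y * (1 + 4 * (Y : ℝ) ^ 320 / (S : ℝ) ^ 2) : ℝ) := by
          apply sum_le_sum
          intro S hS
          apply sum_le_sum
          intro j _
          exact hone S hS j
      _ = ∑ S ∈ Icc 1 (Y ^ 196), (C * Y : ℝ) * ((S : ℝ) + 4 * (Y : ℝ) ^ 320 * (1 / (S : ℝ))) := by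
          apply sum_congr rfl
          intro S hS
          rw [mem_Icc] at hS
          have hS0 : (S : ℝ) ≠ 0 := by
            have : (0 : ℕ) < S := by omega
            exact_mod_cast this.ne'
          rw [sum_const, card_range, nsmul_eq_mul]
          field_simp
      _ = (C * Y : ℝ) * (∑ S ∈ Icc 1 (Y ^ 196), (S : ℝ) +
          4 * (Y : ℝ) ^ 320 * ∑ S ∈ Icc 1 (Y ^ 196), (1 / (S : ℝ))) := by
          rw [← mul_sum, sum_add_distrib, ← mul_sum]
      _ ≤ (C * Y : ℝ) * ((Y : ℝ) ^ 392 + 4 * (Y : ℝ) ^ 320 * (C' * Y)) := by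
          apply mul_le_mul_of_nonneg_left _ (by positivity)
          apply add_le_add
          · calc ∑ S ∈ Icc 1 (Y ^ 196), (S : ℝ) ≤ ∑ S ∈ Icc 1 (Y ^ 196), (Y : ℝ) ^ 196 := by
                  apply sum_le_sum
                  intro S hS
                  rw [mem_Icc] at hS
                  exact_mod_cast hS.2
              _ = (Y : ℝ) ^ 392 := by
                  rw [sum_const, Nat.card_Icc, nsmul_eq_mul]
                  push_cast
                  ring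
          · apply mul_le_mul_of_nonneg_left _ (by positivity)
            apply hC' Y hY
            omega
      _ ≤ (C * Y : ℝ) * ((Y : ℝ) ^ 392 + 4 * C' * (Y : ℝ) ^ 392) := by
          apply mul_le_mul_of_nonneg_left _ (by positivity)
          have h5 : (Y : ℝ) ^ 321 ≤ (Y : ℝ) ^ 392 := pow_le_pow_right₀ hYr (by norm_num)
          have h6 : (4 * C' : ℝ) * (Y : ℝ) ^ 321 ≤ (4 * C' : ℝ) * (Y : ℝ) ^ 392 :=
            mul_le_mul_of_nonneg_left h5 (by positivity)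
          have h7 : 4 * (Y : ℝ) ^ 320 * (C' * Y) = 4 * C' * (Y : ℝ) ^ 321 := by ring
          rw [h7]
          linarith
      _ = C * (1 + 4 * C') * (Y : ℝ) ^ 393 := by ring
  exact_mod_cast hreal

theorem t_CntC : S_CntC := fun hG hHar => CntC_aux (hG t_Tau t_Sep t_Spc) hHar

end QS3D.AA
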