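import Pool.Agent.Lib.MP_72d5fb_co.AA.Spec

/-! # MP_72d5fb_co, part AA: counting D -/

set_option autoImplicit false

namespace QS3D.AA

open Finset

private theorem CntD_pi {Y p d : ℕ} (hp : 2 ≤ p) (hd : 1 ≤ d) (h : p * d ≤ Y ^ 400) :
    1 ≤ 16 * d ^ 2 * (p * (p + 1)) * ((p * d - 1) * ((p + 1) * d - 1)) ∧
      16 * d ^ 2 * (p * (p + 1)) * ((p * d - 1) * ((p + 1) * d - 1)) ≤ 64 * Y ^ 1600 := by
  have h1 : 2 ≤ p * d := le_trans hp (Nat.le_mul_of_pos_right p hd)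
  have h2 : 2 ≤ (p + 1) * d := le_trans h1 (Nat.mul_le_mul_right d (Nat.le_succ p))
  constructor
  · have e1 : 0 < p * d - 1 := by omega
    have e2 : 0 < (p + 1) * d - 1 := by omega
    have e3 : 0 < p * (p + 1) := by positivity
    have e4 : 0 < 16 * d ^ 2 := by positivity
    exact Nat.mul_pos (Nat.mul_pos e4 e3) (Nat.mul_pos e1 e2)
  · have e1 : p * d - 1 ≤ p * d := Nat.sub_le _ _
    have e2 : (p + 1) * d - 1 ≤ 2 * (p * d) := by
      refine (Nat.sub_le _ _).trans ?_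
      nlinarith
    have e3 : p * (p + 1) ≤ 2 * p ^ 2 := by nlinarith
    calc 16 * d ^ 2 * (p * (p + 1)) * ((p * d - 1) * ((p + 1) * d - 1))
        ≤ 16 * d ^ 2 * (2 * p ^ 2) * ((p * d) * (2 * (p * d))) :=
          Nat.mul_le_mul (Nat.mul_le_mul_left _ e3) (Nat.mul_le_mul e1 e2)
      _ = 64 * (p * d) ^ 4 := by ring
      _ ≤ 64 * (Y ^ 400) ^ 4 := Nat.mul_le_mul_left _ (Nat.pow_le_pow_left h 4)
      _ = 64 * Y ^ 1600 := by rw [← pow_mul]

theorem t_CntD : S_CntD := by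
  classical
  intro hT hV hR hH hHy
  obtain ⟨C1, hC1⟩ := hT
  obtain ⟨C2, hC2⟩ := hR hH hHy
  refine ⟨2 * C1 * C2, fun Y hY F hF => ?_⟩
  choose! f g hfg using hF
  set G := F.image (fun V => (f V, g V)) with hG
  have hcard : G.card ≤ C2 * Y ^ 395 := by
    refine hC2 Y hY G fun z hz => ?_
    obtain ⟨V, hVF, rfl⟩ := Finset.mem_image.1 hz
    obtain ⟨h1, h2, h3, h4, h5, -⟩ := hfg V hVF
    exact ⟨h1, h2, h3, h4, h5⟩
  have hfib : ∀ z ∈ G, (F.filter (fun V => (f V, g V) = z)).card ≤ 2 * (C1 * Y) := by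
    intro z hz
    obtain ⟨V, hVF, rfl⟩ := Finset.mem_image.1 hz
    obtain ⟨h1, h2, h3, -, -, -⟩ := hfg V hVF
    have h6 := hV (f V) (g V) h1 h2 (F.filter (fun W => (f W, g W) = (f V, g V))) (by
      intro W hW
      obtain ⟨hWF, hWe⟩ := Finset.mem_filter.1 hW
      obtain ⟨-, -, -, -, -, h7⟩ := hfg W hWF
      rw [Prod.mk.injEq] at hWe
      rw [← hWe.1, ← hWe.2]
      exact h7)
    obtain ⟨h8, h9⟩ := CntD_pi h1 h2 h3
    refine h6.trans (Nat.mul_le_mul_left 2 ?_)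
    exact (Nat.le_self_pow (by norm_num) _).trans (hC1 Y hY _ h8 h9)
  calc F.card = ∑ z ∈ G, (F.filter (fun V => (f V, g V) = z)).card :=
        Finset.card_eq_sum_card_image _ _
    _ ≤ ∑ _z ∈ G, 2 * (C1 * Y) := Finset.sum_le_sum hfib
    _ = G.card * (2 * (C1 * Y)) := by rw [Finset.sum_const, smul_eq_mul]
    _ ≤ C2 * Y ^ 395 * (2 * (C1 * Y)) := Nat.mul_le_mul_right _ hcard
    _ = 2 * C1 * C2 * Y ^ 396 := by ring

end QS3D.AA
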