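import Pool.Agent.Lib.MP_72d5fb_co.AA.Spec

/-!
# MP_72d5fb_co, part AA: numbers with a large square divisor (helper26)
-/

set_option autoImplicit false

namespace QS3D.AA

open Finset

/-- the multiples of `m` in `[1, X]` -/
private theorem CntE_mul (X m : ℕ) (hm : 1 ≤ m) :
    ((Icc 1 X).filter (fun v => m ∣ v)).card ≤ X / m := by
  have h1 : ((Icc 1 X).filter (fun v => m ∣ v)).card ≤ (Icc 1 (X / m)).card := by
    apply card_le_card_of_injOn (fun v => v / m)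
    · intro v hv
      have hv' : v ∈ (Icc 1 X).filter (fun v => m ∣ v) := hv
      rw [mem_filter, mem_Icc] at hv'
      obtain ⟨⟨h1, h2⟩, k, rfl⟩ := hv'
      have hk : m * k / m = k := Nat.mul_div_cancel_left k hm
      have : m * k / m ∈ Icc 1 (X / m) := by
        rw [mem_Icc, hk]
        refine ⟨?_, ?_⟩
        · rcases Nat.eq_zero_or_pos k with h | h
          · subst h
            simp at h1
          · exact h
        · rw [Nat.le_div_iff_mul_le hm, mul_comm]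
          exact h2
      exact this
    · intro v hv w hw he
      have hv' : v ∈ (Icc 1 X).filter (fun v => m ∣ v) := hv
      have hw' : w ∈ (Icc 1 X).filter (fun v => m ∣ v) := hw
      rw [mem_filter] at hv' hw'
      have he' : v / m = w / m := he
      have h3 := Nat.div_mul_cancel hv'.2
      have h4 := Nat.div_mul_cancel hw'.2
      rw [← h3, ← h4, he']
  simpa using h1

theorem t_CntE : S_CntE := by
  refine ⟨2, ?_⟩
  intro Y hY F hF
  have hQ : 1 ≤ Y ^ 6 := Nat.one_le_pow _ _ hY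
  have hsub : F ⊆ (Ioo (Y ^ 6 - 1) (Y ^ 200 + 1)).biUnion
      (fun h => (Icc 1 (Y ^ 400)).filter (fun v => h ^ 2 ∣ v)) := by
    intro V hV
    obtain ⟨h1, h2, h, h3, h4⟩ := hF V hV
    rw [mem_biUnion]
    refine ⟨h, ?_, ?_⟩
    · rw [mem_Ioo]
      refine ⟨by omega, ?_⟩
      have h5 : h ^ 2 ≤ (Y ^ 200) ^ 2 := by
        calc h ^ 2 ≤ V := Nat.le_of_dvd h1 h4
          _ ≤ Y ^ 400 := h2
          _ = (Y ^ 200) ^ 2 := by rw [← pow_mul]
      have h6 := (Nat.pow_le_pow_iff_left (show (2 : ℕ) ≠ 0 by norm_num)).mp h5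
      omega
    · rw [mem_filter, mem_Icc]
      exact ⟨⟨h1, h2⟩, h4⟩
  have hcard : F.card ≤ ∑ h ∈ Ioo (Y ^ 6 - 1) (Y ^ 200 + 1), Y ^ 400 / h ^ 2 := by
    calc F.card ≤ _ := card_le_card hsub
      _ ≤ ∑ h ∈ Ioo (Y ^ 6 - 1) (Y ^ 200 + 1),
          ((Icc 1 (Y ^ 400)).filter (fun v => h ^ 2 ∣ v)).card := card_biUnion_le
      _ ≤ _ := by
        apply sum_le_sum
        intro h hh
        rw [mem_Ioo] at hh
        exact CntE_mul _ _ (Nat.one_le_pow _ _ (by omega))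
  have hreal : (F.card : ℝ) ≤ 2 * (Y : ℝ) ^ 394 := by
    have hYr : (0 : ℝ) < Y := by exact_mod_cast hY
    calc (F.card : ℝ) ≤ ((∑ h ∈ Ioo (Y ^ 6 - 1) (Y ^ 200 + 1), Y ^ 400 / h ^ 2 : ℕ) : ℝ) := by
          exact_mod_cast hcard
      _ = ∑ h ∈ Ioo (Y ^ 6 - 1) (Y ^ 200 + 1), ((Y ^ 400 / h ^ 2 : ℕ) : ℝ) := by
          push_cast
          rfl
      _ ≤ ∑ h ∈ Ioo (Y ^ 6 - 1) (Y ^ 200 + 1), (Y : ℝ) ^ 400 * (((h : ℕ) : ℝ) ^ 2)⁻¹ := by
          apply sum_le_sum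
          intro h _
          calc ((Y ^ 400 / h ^ 2 : ℕ) : ℝ) ≤ ((Y ^ 400 : ℕ) : ℝ) / ((h ^ 2 : ℕ) : ℝ) :=
                Nat.cast_div_le
            _ = _ := by
                push_cast
                rw [div_eq_mul_inv]
      _ = (Y : ℝ) ^ 400 * ∑ h ∈ Ioo (Y ^ 6 - 1) (Y ^ 200 + 1), (((h : ℕ) : ℝ) ^ 2)⁻¹ := by
          rw [mul_sum]
      _ ≤ (Y : ℝ) ^ 400 * (2 / (((Y ^ 6 - 1 : ℕ) : ℝ) + 1)) := by
          apply mul_le_mul_of_nonneg_left _ (by positivity)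
          exact sum_Ioo_inv_sq_le _ _
      _ = 2 * (Y : ℝ) ^ 394 := by
          rw [Nat.cast_sub hQ]
          push_cast
          rw [sub_add_cancel]
          field_simp
  exact_mod_cast hreal

end QS3D.AA
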