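import Pool.Agent.Lib.MP_72d5fb_co.AA.Spec

/-!
# MP_72d5fb_co, part AA: case (C) for fixed `S` and `j` (`S_CntG`)
-/

set_option autoImplicit false

namespace QS3D.AA

open Finset

/-- what holds for a key: five numbers A, B, C, E0, E1 -/
private def CntG_Good (Y S j g : ℕ) (k : ℕ × ℕ × ℕ × ℕ × ℕ) : Prop :=
  S = k.1 * k.2.1 * k.2.2.1 ∧ k.1 ∣ g ∧ k.2.1 ∣ g * j - 1 ∧ k.2.2.1 ∣ g * j + 1 ∧
    CD g S j k.2.2.2.1 k.2.2.2.2 ∧ Y ^ 80 ≤ k.2.2.2.1 * k.2.2.2.2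

private theorem CntG_ex (Y S j g E0 E1 : ℕ) (h : CD g S j E0 E1) (hE : Y ^ 80 ≤ E0 * E1) :
    ∃ k, CntG_Good Y S j g k := by
  have h1 : (g * j) ^ 2 - 1 = (g * j - 1) * (g * j + 1) := by
    have h0 := Nat.sq_sub_sq (g * j) 1
    rw [one_pow] at h0
    rw [h0, Nat.mul_comm]
  have h2 := h.hS
  rw [h1] at h2
  obtain ⟨A, D, hA, hD, hS⟩ := exists_dvd_and_dvd_of_dvd_mul h2
  obtain ⟨B, C, hB, hC, hD'⟩ := exists_dvd_and_dvd_of_dvd_mul hD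
  exact ⟨(A, B, C, E0, E1), by rw [hS, hD', Nat.mul_assoc], hA, hB, hC, h, hE⟩

private theorem CntG_E0 (S j g E0 E1 : ℕ) (h : CD g S j E0 E1) :
    E0 ∣ ((S : ℤ) - 2 * j).natAbs := by
  rw [← Int.natCast_dvd]
  have h1 : (E0 : ℤ) ∣ (g : ℤ) * S + 2 := by exact_mod_cast h.e0
  have h2 : (E0 : ℤ) ∣ (g : ℤ) * j + 1 := by exact_mod_cast h.e0'
  have h3 : (S : ℤ) - 2 * j = S * (g * j + 1) - j * (g * S + 2) := by ring
  rw [h3]
  exact dvd_sub (Dvd.dvd.mul_left h2 _) (Dvd.dvd.mul_left h1 _)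

private theorem CntG_E1 (S j g E0 E1 : ℕ) (h : CD g S j E0 E1) : E1 ∣ j * (S - j) := by
  have hcop : Nat.Coprime E1 g := by
    have h0 : Nat.gcd E1 g ∣ 1 := by
      have h1 : Nat.gcd E1 g ∣ g * S + 1 := (Nat.gcd_dvd_left _ _).trans h.e1
      have h2 : Nat.gcd E1 g ∣ g * S := Dvd.dvd.mul_right (Nat.gcd_dvd_right _ _) _
      exact (Nat.dvd_add_right h2).1 h1
    exact Nat.dvd_one.1 h0
  have h2 : (E1 : ℤ) ∣ ((g ^ 2 * (j * (S - j)) : ℕ) : ℤ) := by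
    have h3 : (E1 : ℤ) ∣ (g : ℤ) * S + 1 := by exact_mod_cast h.e1
    have h4 : (E1 : ℤ) ∣ ((g : ℤ) * j) * (g * j + 1) := by exact_mod_cast h.e1'
    have h5 : ((g ^ 2 * (j * (S - j)) : ℕ) : ℤ) =
        g * j * (g * S + 1) - ((g : ℤ) * j) * (g * j + 1) := by
      push_cast [Nat.cast_sub h.jS.le]
      ring
    rw [h5]
    exact dvd_sub (Dvd.dvd.mul_left h3 _) h4
  have h6 : E1 ∣ g ^ 2 * (j * (S - j)) := by exact_mod_cast h2
  exact (hcop.pow_right 2).dvd_of_dvd_mul_left h6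

/-- a product of five numbers with eighth power at most `M` -/
private theorem CntG_prod (M a b c : ℕ) (ha : a ^ 8 ≤ M) (hb : b ^ 8 ≤ M) (hc : c ^ 8 ≤ M)
    (ha1 : 1 ≤ a) : a * (a * (a * (b * c))) ≤ M := by
  have hm : ∃ m, 1 ≤ m ∧ a ≤ m ∧ b ≤ m ∧ c ≤ m ∧ m ^ 8 ≤ M := by
    rcases le_total a b with h | h
    · rcases le_total b c with h' | h'
      · exact ⟨c, ha1.trans (h.trans h'), h.trans h', h', le_rfl, hc⟩
      · exact ⟨b, ha1.trans h, h, le_rfl, h', hb⟩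
    · rcases le_total a c with h' | h'
      · exact ⟨c, ha1.trans h', h', h.trans h', le_rfl, hc⟩
      · exact ⟨a, ha1, le_rfl, h, h', ha⟩
  obtain ⟨m, h1, h2, h3, h4, h5⟩ := hm
  calc a * (a * (a * (b * c))) ≤ m * (m * (m * (m * m))) := by gcongr
    _ = m ^ 5 := by ring
    _ ≤ m ^ 8 := Nat.pow_le_pow_right h1 (by norm_num)
    _ ≤ M := h5

/-- the elements with the same key -/
private theorem CntG_fib (hSep : S_Sep) (hSpc : S_Spc) (Y S j : ℕ) (hY : 1 ≤ Y)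
    (k : ℕ × ℕ × ℕ × ℕ × ℕ) (G : Finset ℕ)
    (hG : ∀ g ∈ G, g * S ≤ Y ^ 400 ∧ CntG_Good Y S j g k) :
    (G.card : ℝ) ≤ 1 + 4 * (Y : ℝ) ^ 320 / (S : ℝ) ^ 2 := by
  obtain ⟨A, B, C, E0, E1⟩ := k
  have hY0 : (0 : ℝ) < Y := by exact_mod_cast hY
  rcases G.eq_empty_or_nonempty with h0 | ⟨g0, hg0⟩
  · rw [h0, card_empty, Nat.cast_zero]
    positivity
  · have hcd0 := (hG g0 hg0).2.2.2.2.2.1
    have hE : Y ^ 80 ≤ E0 * E1 := (hG g0 hg0).2.2.2.2.2.2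
    have hj1 := hcd0.j1
    have hS1 : 1 ≤ S := hj1.trans hcd0.jS.le
    have hE1 : 1 ≤ E0 * E1 := le_trans (Nat.one_le_pow _ _ hY) hE
    have hΔ : 1 ≤ S * (E0 * E1) := Nat.mul_pos hS1 hE1
    have hcard := hSpc (Y ^ 400 / S) (S * (E0 * E1)) G hΔ
      (fun g hg => (Nat.le_div_iff_mul_le hS1).2 (hG g hg).1)
      (fun g hg g' hg' hlt => by
        obtain ⟨-, e1, e2, e3, e4, e5, -⟩ := hG g hg
        obtain ⟨-, -, e2', e3', e4', e5', -⟩ := hG g' hg'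
        have hd := hSep S j g g' A B C E0 E1 hj1 e5'.g1 hlt e5.cop e1 e2 e2' e3 e3' e4 e4'
          e5.e0 e5'.e0 e5.e1 e5'.e1
        exact Nat.le_of_dvd (by omega) hd)
    have hS0 : (0 : ℝ) < S := by exact_mod_cast hS1
    have hEr : (Y : ℝ) ^ 80 ≤ (E0 : ℝ) * E1 := by exact_mod_cast hE
    have hX : ((Y ^ 400 / S : ℕ) : ℝ) ≤ (Y : ℝ) ^ 400 / S := by
      have := Nat.cast_div_le (α := ℝ) (m := Y ^ 400) (n := S)
      rwa [Nat.cast_pow] at this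
    have h1 : ((4 * (Y ^ 400 / S) / (S * (E0 * E1)) : ℕ) : ℝ) ≤
        4 * (Y : ℝ) ^ 320 / (S : ℝ) ^ 2 := by
      calc ((4 * (Y ^ 400 / S) / (S * (E0 * E1)) : ℕ) : ℝ) ≤
            ((4 * (Y ^ 400 / S) : ℕ) : ℝ) / ((S * (E0 * E1) : ℕ) : ℝ) := Nat.cast_div_le
        _ = 4 * ((Y ^ 400 / S : ℕ) : ℝ) / ((S : ℝ) * ((E0 : ℝ) * E1)) := by push_cast; rfl
        _ ≤ 4 * ((Y : ℝ) ^ 400 / S) / ((S : ℝ) * (Y : ℝ) ^ 80) := by
            apply div_le_div₀ (by positivity) (by gcongr) (by positivity) (by gcongr)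
        _ = 4 * (Y : ℝ) ^ 320 / (S : ℝ) ^ 2 := by
            have h2 : (Y : ℝ) ^ 400 = (Y : ℝ) ^ 320 * (Y : ℝ) ^ 80 := by rw [← pow_add]
            rw [h2]
            field_simp
    calc (G.card : ℝ) ≤ ((4 * (Y ^ 400 / S) / (S * (E0 * E1)) + 1 : ℕ) : ℝ) := by
          exact_mod_cast hcard
      _ = ((4 * (Y ^ 400 / S) / (S * (E0 * E1)) : ℕ) : ℝ) + 1 := by push_cast; rfl
      _ ≤ 4 * (Y : ℝ) ^ 320 / (S : ℝ) ^ 2 + 1 := by gcongr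
      _ = 1 + 4 * (Y : ℝ) ^ 320 / (S : ℝ) ^ 2 := add_comm _ _

theorem t_CntG : S_CntG := by
  intro hTau hSep hSpc
  obtain ⟨C, hC⟩ := hTau
  refine ⟨C, fun Y hY S j hS F hF => ?_⟩
  classical
  have hY0 : (0 : ℝ) < Y := by exact_mod_cast hY
  rcases F.eq_empty_or_nonempty with h0 | ⟨g0, hg0⟩
  · rw [h0, card_empty, Nat.cast_zero]
    positivity
  obtain ⟨-, E00, E10, hcd0, -⟩ := hF g0 hg0
  have hj1 := hcd0.j1
  have hjS := hcd0.jS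
  have hne := hcd0.ne
  have hpos : 1 ≤ Y := hY
  have hb : ((S : ℤ) - 2 * j).natAbs ≤ S := by omega
  have hb0 : 1 ≤ ((S : ℤ) - 2 * j).natAbs := by omega
  have h64 : ∀ u v : ℕ, u ≤ v → u ≤ 64 * v := fun u v h => by omega
  have hp1 : Y ^ 196 ≤ 64 * Y ^ 1600 :=
    h64 _ _ (Nat.pow_le_pow_right hpos (show 196 ≤ 1600 by omega))
  have hp2 : Y ^ 392 ≤ 64 * Y ^ 1600 :=
    h64 _ _ (Nat.pow_le_pow_right hpos (show 392 ≤ 1600 by omega))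
  have t1 := hC Y hY S (by omega) (hS.trans hp1)
  have t2 := hC Y hY ((S : ℤ) - 2 * j).natAbs hb0 (hb.trans (hS.trans hp1))
  have t3 := hC Y hY (j * (S - j)) (Nat.mul_pos (by omega) (by omega)) (by
    calc j * (S - j) ≤ S * S := Nat.mul_le_mul (by omega) (by omega)
      _ ≤ Y ^ 196 * Y ^ 196 := Nat.mul_le_mul hS hS
      _ = Y ^ 392 := by rw [← pow_add]
      _ ≤ _ := hp2)
  -- the keys
  have hkey : ∀ g, ∃ k, g ∈ F → CntG_Good Y S j g k := by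
    intro g
    by_cases hg : g ∈ F
    · obtain ⟨-, E0, E1, h1, h2⟩ := hF g hg
      obtain ⟨k, hk⟩ := CntG_ex Y S j g E0 E1 h1 h2
      exact ⟨k, fun _ => hk⟩
    · exact ⟨(0, 0, 0, 0, 0), fun h => absurd h hg⟩
  choose key hkey using hkey
  let T : Finset (ℕ × ℕ × ℕ × ℕ × ℕ) := S.divisors ×ˢ (S.divisors ×ˢ (S.divisors ×ˢ
    (((S : ℤ) - 2 * j).natAbs.divisors ×ˢ (j * (S - j)).divisors)))
  have hmem : ∀ g ∈ F, key g ∈ T := by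
    intro g hg
    obtain ⟨e1, -, -, -, e5, -⟩ := hkey g hg
    have hS0 : S ≠ 0 := by omega
    have d1 : (key g).1 ∣ S := ⟨(key g).2.1 * (key g).2.2.1, by rw [← Nat.mul_assoc]; exact e1⟩
    have d2 : (key g).2.1 ∣ S :=
      ⟨(key g).1 * (key g).2.2.1, by rw [← Nat.mul_assoc, Nat.mul_comm (key g).2.1]; exact e1⟩
    have d3 : (key g).2.2.1 ∣ S := ⟨(key g).1 * (key g).2.1, by rw [Nat.mul_comm]; exact e1⟩
    simp only [T, mem_product, Nat.mem_divisors]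
    refine ⟨⟨d1, hS0⟩, ⟨d2, hS0⟩, ⟨d3, hS0⟩, ⟨CntG_E0 _ _ _ _ _ e5, by omega⟩,
      CntG_E1 _ _ _ _ _ e5, ?_⟩
    exact Nat.ne_of_gt (Nat.mul_pos (by omega) (by omega))
  have hTcard : T.card ≤ C * Y := by
    simp only [T, card_product]
    refine CntG_prod _ _ _ _ t1 t2 t3 ?_
    exact Finset.card_pos.2 ⟨1, Nat.mem_divisors.2 ⟨one_dvd _, by omega⟩⟩
  have hsum := card_eq_sum_card_fiberwise (f := key) (s := F) (t := T) hmem
  have hTr : (T.card : ℝ) ≤ C * Y := by exact_mod_cast hTcard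
  rw [hsum, Nat.cast_sum]
  calc ∑ k ∈ T, ((F.filter fun g => key g = k).card : ℝ) ≤
        ∑ k ∈ T, (1 + 4 * (Y : ℝ) ^ 320 / (S : ℝ) ^ 2) := by
        refine sum_le_sum fun k _ => CntG_fib hSep hSpc Y S j hY k _ fun g hg => ?_
        rw [mem_filter] at hg
        refine ⟨(hF g hg.1).1, ?_⟩
        rw [← hg.2]
        exact hkey g hg.1
    _ = T.card * (1 + 4 * (Y : ℝ) ^ 320 / (S : ℝ) ^ 2) := by
        rw [sum_const, nsmul_eq_mul]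
    _ ≤ C * Y * (1 + 4 * (Y : ℝ) ^ 320 / (S : ℝ) ^ 2) :=
        mul_le_mul_of_nonneg_right hTr (by positivity)

end QS3D.AA
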