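import Pool.Agent.Lib.MP_72d5fb_co.AA.Spec

/-!
# MP_72d5fb_co, part AA: rare pairs
-/

set_option autoImplicit false

namespace QS3D.AA

open Finset

/-- keys in the hyperbola region -/
private def CntR_Key (Y : ℕ) (z : ℕ × ℕ × ℕ) : Prop :=
  Y ^ 6 ≤ z.1 ∧ 1 ≤ z.2.1 ∧ 1 ≤ z.2.2 ∧ z.1 ^ 2 * (z.2.1 * z.2.2) ≤ 4 * Y ^ 400

private theorem CntR_dec (Y N : ℕ)
    (h : ∀ G : Finset (ℕ × ℕ × ℕ), (∀ z ∈ G, CntR_Key Y z) → G.card ≤ N)
    (dec : ℕ × ℕ × ℕ → ℕ × ℕ) (G : Finset (ℕ × ℕ))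
    (hG : ∀ z ∈ G, ∃ u, CntR_Key Y u ∧ dec u = z) : G.card ≤ N := by
  classical
  choose f hf using hG
  let K : Finset (ℕ × ℕ × ℕ) := G.attach.image fun z => f z.1 z.2
  have hK : K.card ≤ N := by
    refine h K fun u hu => ?_
    obtain ⟨z, _, rfl⟩ := mem_image.mp hu
    exact (hf z.1 z.2).1
  have hsub : G ⊆ K.image dec := by
    intro z hz
    exact mem_image.mpr ⟨f z hz, mem_image.mpr ⟨⟨z, hz⟩, mem_attach _ _, rfl⟩, (hf z hz).2⟩
  exact (card_le_card hsub).trans (card_image_le.trans hK)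

private theorem CntR_size (p d M : ℕ) (hp : 2 ≤ p) (hd : 1 ≤ d) (h : p * d ≤ M) :
    (p + 1) * (d + 1) ≤ 4 * M := by
  have h1 : p + 1 ≤ 2 * p := by omega
  have h2 : d + 1 ≤ 2 * d := by omega
  calc (p + 1) * (d + 1) ≤ (2 * p) * (2 * d) := Nat.mul_le_mul h1 h2
    _ = 4 * (p * d) := by ring
    _ ≤ 4 * M := Nat.mul_le_mul_left _ h

private theorem CntR_one (Y : ℕ) (hY : 1 ≤ Y) (G : Finset (ℕ × ℕ))
    (hG : ∀ z ∈ G, z.2 = 1 ∧ 4 * z.1 ^ 2 ≤ Y ^ 400 + 2) : G.card ≤ 2 * Y ^ 395 := by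
  classical
  have hsub : G ⊆ (range (Y ^ 200 + 1)).image fun p => (p, 1) := by
    intro z hz
    obtain ⟨h1, h2⟩ := hG z hz
    refine mem_image.mpr ⟨z.1, mem_range.mpr ?_, ?_⟩
    · by_contra hc
      have hc' : Y ^ 200 + 1 ≤ z.1 := by omega
      have h3 : (Y ^ 200 + 1) ^ 2 ≤ z.1 ^ 2 := Nat.pow_le_pow_left hc' 2
      have h4 : ∀ x : ℕ, (x + 1) ^ 2 = x ^ 2 + 2 * x + 1 := fun x => by ring
      rw [h4, ← pow_mul] at h3
      norm_num at h3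
      have h5 : 1 ≤ Y ^ 400 := Nat.one_le_pow _ _ hY
      omega
    · rw [← h1]
  have h6 : Y ^ 200 ≤ Y ^ 395 := Nat.pow_le_pow_right hY (by norm_num)
  have h7 : 1 ≤ Y ^ 395 := Nat.one_le_pow _ _ hY
  calc G.card ≤ ((range (Y ^ 200 + 1)).image fun p => (p, 1)).card := card_le_card hsub
    _ ≤ (range (Y ^ 200 + 1)).card := card_image_le
    _ = Y ^ 200 + 1 := card_range _
    _ ≤ 2 * Y ^ 395 := by omega

theorem t_CntR : S_CntR := by
  classical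
  intro hHar hHyp
  obtain ⟨C, hC⟩ := hHyp hHar
  refine ⟨2 + 6 * C, fun Y hY G hG => ?_⟩
  have hK : ∀ K : Finset (ℕ × ℕ × ℕ), (∀ z ∈ K, CntR_Key Y z) → K.card ≤ C * Y ^ 395 :=
    fun K h => hC Y hY K h
  let G0 := G.filter fun z => z.2 = 1
  let P : ℕ → ℕ × ℕ → ℕ → Prop := fun i z e =>
    if i = 0 then e ∣ z.1 + 1 ∧ e ∣ z.2 else
    if i = 1 then e ∣ z.1 + 1 ∧ e ∣ z.2 + 1 else
    if i = 2 then e ^ 2 ∣ z.1 + 1 else
    if i = 3 then e ∣ z.1 ∧ e ∣ z.2 else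
    if i = 4 then e ∣ z.1 ∧ e ∣ z.2 - 1 else e ^ 2 ∣ z.1
  let Gi : ℕ → Finset (ℕ × ℕ) := fun i => G.filter fun z => z.2 ≠ 1 ∧ ∃ e, Y ^ 6 ≤ e ∧ P i z e
  have h0 : G0.card ≤ 2 * Y ^ 395 := by
    refine CntR_one Y hY G0 fun z hz => ?_
    obtain ⟨h1, h2⟩ := mem_filter.mp hz
    exact ⟨h2, (hG z h1).2.2.2.1⟩
  have hcov : G ⊆ G0 ∪ (range 6).biUnion Gi := by
    intro z hz
    obtain ⟨h1, h2, h3, h4, h5⟩ := hG z hz
    rw [mem_union]
    by_cases hd : z.2 = 1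
    · exact Or.inl (mem_filter.mpr ⟨hz, hd⟩)
    · refine Or.inr ?_
      rcases h5 with h5 | ⟨e, he, h5⟩
      · exact absurd h5 hd
      · rcases h5 with h5 | h5 | h5 | h5 | h5 | h5
        · exact mem_biUnion.mpr ⟨0, by simp, mem_filter.mpr ⟨hz, hd, e, he, by simpa [P] using h5⟩⟩
        · exact mem_biUnion.mpr ⟨1, by simp, mem_filter.mpr ⟨hz, hd, e, he, by simpa [P] using h5⟩⟩
        · exact mem_biUnion.mpr ⟨2, by simp, mem_filter.mpr ⟨hz, hd, e, he, by simpa [P] using h5⟩⟩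
        · exact mem_biUnion.mpr ⟨3, by simp, mem_filter.mpr ⟨hz, hd, e, he, by simpa [P] using h5⟩⟩
        · exact mem_biUnion.mpr ⟨4, by simp, mem_filter.mpr ⟨hz, hd, e, he, by simpa [P] using h5⟩⟩
        · exact mem_biUnion.mpr ⟨5, by simp, mem_filter.mpr ⟨hz, hd, e, he, by simpa [P] using h5⟩⟩
  let dec : ℕ → ℕ × ℕ × ℕ → ℕ × ℕ := fun i u =>
    if i = 0 then (u.1 * u.2.1 - 1, u.1 * u.2.2) else
    if i = 1 then (u.1 * u.2.1 - 1, u.1 * u.2.2 - 1) else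
    if i = 2 then (u.1 ^ 2 * u.2.1 - 1, u.2.2) else
    if i = 3 then (u.1 * u.2.1, u.1 * u.2.2) else
    if i = 4 then (u.1 * u.2.1, u.1 * u.2.2 + 1) else (u.1 ^ 2 * u.2.1, u.2.2)
  have hi : ∀ i ∈ range 6, (Gi i).card ≤ C * Y ^ 395 := by
    intro i hi
    refine CntR_dec Y _ hK (dec i) (Gi i) fun z hz => ?_
    obtain ⟨hz1, hz2, e, he, hP⟩ := mem_filter.mp hz
    obtain ⟨h1, h2, h3, -, -⟩ := hG z hz1
    have hsz := CntR_size z.1 z.2 _ h1 h2 h3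
    obtain ⟨p, d⟩ := z
    simp only at hz2 h1 h2 h3 hsz
    have key : ∀ x y A B : ℕ, 1 ≤ A → 1 ≤ B → A = e * x → B = e * y → A ≤ p + 1 → B ≤ d + 1 →
        CntR_Key Y (e, x, y) := by
      intro x y A B hA hB hx hy hA' hB'
      refine ⟨he, ?_, ?_, ?_⟩
      · rcases Nat.eq_zero_or_pos x with h | h
        · subst h; omega
        · exact h
      · rcases Nat.eq_zero_or_pos y with h | h
        · subst h; omega
        · exact h
      · calc e ^ 2 * (x * y) = A * B := by rw [hx, hy]; ring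
          _ ≤ (p + 1) * (d + 1) := Nat.mul_le_mul hA' hB'
          _ ≤ _ := hsz
    have key2 : ∀ x A : ℕ, 1 ≤ A → A = e ^ 2 * x → A ≤ p + 1 → CntR_Key Y (e, x, d) := by
      intro x A hA hx hA'
      refine ⟨he, ?_, h2, ?_⟩
      · rcases Nat.eq_zero_or_pos x with h | h
        · subst h; omega
        · exact h
      · calc e ^ 2 * (x * d) = A * d := by rw [hx]; ring
          _ ≤ (p + 1) * (d + 1) := Nat.mul_le_mul hA' (Nat.le_succ d)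
          _ ≤ _ := hsz
    rw [mem_range] at hi
    interval_cases i
    · obtain ⟨⟨x, hx⟩, ⟨y, hy⟩⟩ : e ∣ p + 1 ∧ e ∣ d := by simpa [P] using hP
      refine ⟨(e, x, y), key x y _ _ (by omega) (by omega) hx hy le_rfl (by omega), ?_⟩
      simp only [dec, if_true, ← hx, ← hy]
      rfl
    · obtain ⟨⟨x, hx⟩, ⟨y, hy⟩⟩ : e ∣ p + 1 ∧ e ∣ d + 1 := by simpa [P] using hP
      refine ⟨(e, x, y), key x y _ _ (by omega) (by omega) hx hy le_rfl le_rfl, ?_⟩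
      simp [dec, ← hx, ← hy]
    · obtain ⟨x, hx⟩ : e ^ 2 ∣ p + 1 := by simpa [P] using hP
      refine ⟨(e, x, d), key2 x _ (by omega) hx le_rfl, ?_⟩
      simp [dec, ← hx]
    · obtain ⟨⟨x, hx⟩, ⟨y, hy⟩⟩ : e ∣ p ∧ e ∣ d := by simpa [P] using hP
      refine ⟨(e, x, y), key x y _ _ (by omega) (by omega) hx hy (by omega) (by omega), ?_⟩
      simp [dec, ← hx, ← hy]
    · obtain ⟨⟨x, hx⟩, ⟨y, hy⟩⟩ : e ∣ p ∧ e ∣ d - 1 := by simpa [P] using hP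
      refine ⟨(e, x, y), key x y _ _ (by omega) (by omega) hx hy (by omega) (by omega), ?_⟩
      simp [dec, ← hx, ← hy]
      omega
    · obtain ⟨x, hx⟩ : e ^ 2 ∣ p := by simpa [P] using hP
      refine ⟨(e, x, d), key2 x _ (by omega) hx (by omega), ?_⟩
      simp [dec, ← hx]
  calc G.card ≤ (G0 ∪ (range 6).biUnion Gi).card := card_le_card hcov
    _ ≤ G0.card + ((range 6).biUnion Gi).card := card_union_le _ _
    _ ≤ 2 * Y ^ 395 + 6 * (C * Y ^ 395) := by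
        refine add_le_add h0 ?_
        calc ((range 6).biUnion Gi).card ≤ (range 6).card * (C * Y ^ 395) :=
              card_biUnion_le_card_mul _ _ _ hi
          _ = 6 * (C * Y ^ 395) := by rw [card_range]
    _ = (2 + 6 * C) * Y ^ 395 := by ring

end QS3D.AA
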