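import Pool.Agent.Lib.MP_72d5fb_co.AA.Spec

set_option autoImplicit false

namespace QS3D.AA

open Finset

private theorem Dec_pow (s : Finset ℕ) (e : ℕ → ℕ) (z : ℕ) (hp : ∀ q ∈ s, q.Prime)
    (hd : ∀ q ∈ s, q ^ e q ∣ z) : ∏ q ∈ s, q ^ e q ∣ z := by
  refine Finset.prod_dvd_of_isRelPrime (fun a ha b hb hab => ?_) hd
  exact Nat.coprime_iff_isRelPrime.1 (Nat.coprime_pow_primes _ _ (hp a ha) (hp b hb) hab)

theorem t_Dec : S_Dec := by
  classical
  intro x T D1 D2 V hx hD1 hD2 hV hT hq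
  have hx0 : x ≠ 0 := by omega
  have hT0 : T ≠ 0 := by
    rintro rfl
    exact hx0 (zero_dvd_iff.1 hT)
  set P := T.primeFactors with hP
  have hPp : ∀ q ∈ P, q.Prime := fun q h => Nat.prime_of_mem_primeFactors h
  have hPd : ∀ q ∈ P, q ∣ T := fun q h => Nat.dvd_of_mem_primeFactors h
  set B := P.filter (fun q => q ^ 2 ∣ x) with hB
  set P' := P.filter (fun q => ¬ q ^ 2 ∣ x) with hP'
  have hP'P : ∀ q ∈ P', q ∈ P := fun q h => (mem_filter.1 h).1
  have hP'n : ∀ q ∈ P', ¬ q ^ 2 ∣ x := fun q h => (mem_filter.1 h).2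
  set f := ∏ q ∈ B, q ^ (x.factorization q / 2) with hf
  have hprod : T = (∏ q ∈ B, q ^ T.factorization q) * ∏ q ∈ P', q ^ T.factorization q := by
    rw [hB, hP', Finset.prod_filter_mul_prod_filter_not]
    conv_lhs => rw [← Nat.prod_factorization_pow_eq_self hT0]
    rw [Nat.prod_factorization_eq_prod_primeFactors]
  -- the first part
  have h1 : ∏ q ∈ B, q ^ T.factorization q ≤ f ^ 3 := by
    rw [hf, ← Finset.prod_pow]
    refine Finset.prod_le_prod' fun q hqB => ?_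
    obtain ⟨hqP, hq2⟩ := mem_filter.1 hqB
    have hqp := hPp q hqP
    rw [← pow_mul]
    refine Nat.pow_le_pow_right hqp.pos ?_
    have e1 : T.factorization q ≤ x.factorization q :=
      (Nat.factorization_le_iff_dvd hT0 hx0).2 hT q
    have e2 : 2 ≤ x.factorization q := (hqp.pow_dvd_iff_le_factorization hx0).1 hq2
    omega
  have hf2 : f ^ 2 ∣ x := by
    rw [hf, ← Finset.prod_pow]
    have : ∀ q ∈ B, (q ^ (x.factorization q / 2)) ^ 2 = q ^ (x.factorization q / 2 * 2) :=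
      fun q _ => (pow_mul _ _ _).symm
    rw [Finset.prod_congr rfl this]
    refine Dec_pow B _ x (fun q h => hPp q (mem_filter.1 h).1) fun q h => ?_
    have hqp := hPp q (mem_filter.1 h).1
    exact (hqp.pow_dvd_iff_le_factorization hx0).2 (by omega)
  -- the second part
  have h2 : ∏ q ∈ P', q ^ T.factorization q ≤ ∏ q ∈ P', q := by
    refine Finset.prod_le_prod' fun q hqP => ?_
    have hqp := hPp q (hP'P q hqP)
    have e1 : T.factorization q ≤ 1 := by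
      by_contra hlt
      exact hP'n q hqP (((hqp.pow_dvd_iff_le_factorization hT0).2 (by omega)).trans hT)
    calc q ^ T.factorization q ≤ q ^ 1 := Nat.pow_le_pow_right hqp.pos e1
      _ = q := pow_one q
  set c1 : ℕ → Prop := fun q => q ≠ 2 ∧ q ∣ D1 with hc1
  set c2 : ℕ → Prop := fun q => q ≠ 2 ∧ ¬ q ∣ D1 ∧ q ∣ D2 with hc2
  set c3 : ℕ → Prop := fun q => q ≠ 2 ∧ ¬ q ∣ D1 ∧ ¬ q ∣ D2 with hc3
  have h3 : ∏ q ∈ P', q = (∏ q ∈ P', if q = 2 then 2 else 1) * (∏ q ∈ P'.filter c1, q) *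
      (∏ q ∈ P'.filter c2, q) * ∏ q ∈ P'.filter c3, q := by
    have f1 : ∏ q ∈ P'.filter c1, q = ∏ q ∈ P', if c1 q then q else 1 := Finset.prod_filter _ _
    have f2 : ∏ q ∈ P'.filter c2, q = ∏ q ∈ P', if c2 q then q else 1 := Finset.prod_filter _ _
    have f3 : ∏ q ∈ P'.filter c3, q = ∏ q ∈ P', if c3 q then q else 1 := Finset.prod_filter _ _
    rw [f1, f2, f3, ← Finset.prod_mul_distrib, ← Finset.prod_mul_distrib,
      ← Finset.prod_mul_distrib]
    refine Finset.prod_congr rfl fun q _ => ?_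
    by_cases e0 : q = 2
    · simp [c1, c2, c3, e0]
    · by_cases e1 : q ∣ D1
      · simp [c1, c2, c3, e0, e1]
      · by_cases e2 : q ∣ D2
        · simp [c1, c2, c3, e0, e1, e2]
        · simp [c1, c2, c3, e0, e1, e2]
  have h4 : (∏ q ∈ P', if q = 2 then 2 else 1) ≤ 2 := by
    rw [Finset.prod_ite_eq' P' 2 (fun _ => 2)]
    split_ifs <;> omega
  have hxd : ∀ q ∈ P', q ∣ x := fun q h => (hPd q (hP'P q h)).trans hT
  have h5 : ∏ q ∈ P'.filter c1, q ≤ Nat.gcd x D1 := by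
    refine Nat.le_of_dvd (Nat.gcd_pos_of_pos_left _ (by omega)) ?_
    refine Finset.prod_primes_dvd _ (fun q h => (hPp q (hP'P q (mem_filter.1 h).1)).prime)
      fun q h => ?_
    exact Nat.dvd_gcd (hxd q (mem_filter.1 h).1) (mem_filter.1 h).2.2
  have h6 : ∏ q ∈ P'.filter c2, q ≤ Nat.gcd x D2 := by
    refine Nat.le_of_dvd (Nat.gcd_pos_of_pos_left _ (by omega)) ?_
    refine Finset.prod_primes_dvd _ (fun q h => (hPp q (hP'P q (mem_filter.1 h).1)).prime)
      fun q h => ?_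
    exact Nat.dvd_gcd (hxd q (mem_filter.1 h).1) (mem_filter.1 h).2.2.2
  refine ⟨∏ q ∈ P'.filter c3, q, f, ?_, hf2, ?_⟩
  · rw [← Finset.prod_pow]
    refine Dec_pow _ (fun _ => 2) V (fun q h => hPp q (hP'P q (mem_filter.1 h).1)) fun q h => ?_
    obtain ⟨h7, h8, h9, h10⟩ := mem_filter.1 h
    rcases hq q (hPp q (hP'P q h7)) h8 (hPd q (hP'P q h7)) (hP'n q h7) with h11 | h11 | h11
    · exact absurd h11 h9
    · exact absurd h11 h10
    · exact h11
  · calc T = (∏ q ∈ B, q ^ T.factorization q) * ∏ q ∈ P', q ^ T.factorization q := hprod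
      _ ≤ f ^ 3 * ∏ q ∈ P', q := Nat.mul_le_mul h1 h2
      _ = f ^ 3 * ((∏ q ∈ P', if q = 2 then 2 else 1) * (∏ q ∈ P'.filter c1, q) *
          (∏ q ∈ P'.filter c2, q) * ∏ q ∈ P'.filter c3, q) := by rw [← h3]
      _ ≤ f ^ 3 * (2 * Nat.gcd x D1 * Nat.gcd x D2 * ∏ q ∈ P'.filter c3, q) :=
          Nat.mul_le_mul_left _ (Nat.mul_le_mul_right _ (Nat.mul_le_mul (Nat.mul_le_mul h4 h5) h6))
      _ = 2 * Nat.gcd x D1 * Nat.gcd x D2 * (∏ q ∈ P'.filter c3, q) * f ^ 3 := by ring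

end QS3D.AA
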