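import Pool.Agent.Lib.MP_72d5fb_co.Defs

/-!
# MP_72d5fb_co, part AA (almost all v): definitions

Open-case quasi-symmetric 3-designs: the number of `v ≤ N` is at most `C N^(99/100)`.
Everything is in natural numbers.  `V = v - 2`, `a = k - 1`, `c = v - k - 1`, `p = m - 1`.
-/

set_option autoImplicit false

namespace QS3D.AA

/-- The arithmetic data of a quasi-symmetric 3-design with `x > 0` and `v - 2k + x > 0`:
`V = v - 2`, `a = k - 1`, `c = v - k - 1`, `p + 1 = m = (k - x) / d`, `d = y - x`,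
`n = (r - lam) / d`, `w = (lam - l) / d`, `t = Th`, `lam` = number of blocks through two points.
`(a+1)(c+1) = k(v-k)` is called `K` and `a c + t` is called `K'` in the comments. -/
structure Par (V a c p d n w t b r lam : ℕ) : Prop where
  sum : a + c = V
  two : 2 ≤ p
  d1 : 1 ≤ d
  t1 : 1 ≤ t
  mda : (p + 1) * d ≤ a
  mdc : (p + 1) * d ≤ c
  q1 : (a + 1) * (c + 1) + (a * c + t) = V * ((2 * p + 1) * d) + 1
  q2 : (a + 1) * (c + 1) * (a * c + t) = p * (p + 1) * d ^ 2 * (V * (V + 1))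
  hn : n * t = p * (p + 1) * d * V
  hw : w * V = n * a
  hb : b * t = (V + 2) * (a * c + t)
  hbk : b * ((a + 1) * (c + 1)) = d * n * ((V + 2) * (V + 1))
  hr : r * (V + 2) = b * (a + 1)
  hl : lam * (V + 1) = r * a

/-- `g = gcd V a`, `V = g S`, `a = g j`, `t = g s`. -/
structure GS (V a t g S j s : ℕ) : Prop where
  hg : g = Nat.gcd V a
  hV : V = g * S
  ha : a = g * j
  cop : Nat.Coprime S j
  ht : t = g * s

/-- the rare pairs `(p, d)` -/
def Rare (Q p d : ℕ) : Prop :=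
  d = 1 ∨ ∃ e, Q ≤ e ∧ ((e ∣ p + 1 ∧ e ∣ d) ∨ (e ∣ p + 1 ∧ e ∣ d + 1) ∨ e ^ 2 ∣ p + 1 ∨
    (e ∣ p ∧ e ∣ d) ∨ (e ∣ p ∧ e ∣ d - 1) ∨ e ^ 2 ∣ p)

/-- the two equations `q1`, `q2` for given `V`, `p`, `d` -/
def Eqs (V p d : ℕ) : Prop :=
  ∃ K K' : ℕ, K + K' = V * ((2 * p + 1) * d) + 1 ∧ K * K' = p * (p + 1) * d ^ 2 * (V * (V + 1))

/-- the data in case (C), without the size of `E0 E1`; `V = g S`, `a = g j` -/
structure CD (g S j E0 E1 : ℕ) : Prop where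
  g1 : 1 ≤ g
  j1 : 1 ≤ j
  jS : j < S
  ne : 2 * j ≠ S
  cop : Nat.Coprime S j
  hS : S ∣ g * ((g * j) ^ 2 - 1)
  e0 : E0 ∣ g * S + 2
  e0' : E0 ∣ g * j + 1
  e1 : E1 ∣ g * S + 1
  e1' : E1 ∣ (g * j) * (g * j + 1)

end QS3D.AA
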