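import Pool.Agent.Lib.MP_72d5fb_co.AA.Defs

/-!
# MP_72d5fb_co, part AA (almost all v): statements with complete proofs (helper42)

THEOREM. There is `C` such that for every `N` the number of `v ≤ N` carrying a quasi-symmetric
3-design with `x > 0` and `v - 2k + x > 0` is at most `C N^(99/100)`.  Paper proof: note 3781.

Notation as in `AA/Defs.lean`: `K = (a+1)(c+1) = a c + V + 1`, `K' = a c + t`, `M = 2p+1`, so `q1` is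
`K + K' = V M d + 1` and `q2` is `K K' = p(p+1) d^2 V (V+1)`.  Finite sets of the `V` considered are
written as `F : Finset ℕ` with a hypothesis for all elements (no decidability needed).
-/

set_option autoImplicit false

namespace QS3D.AA

open Finset

/-- TASK Dpar (from the design to `Par`). Use `QS3D.des` (Des.lean), `bas`, `small` (for `3 ≤ m`), as
in `outputs/live/Pool/Agent/Results/MP_72d5fb_co/BlockBound.lean` (which also derives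
`zbk : b * (k (v-k)) = d n v (v-1)`: this is `hbk`). Put `V = v - 2`, `a = k - 1`, `c = v - k - 1`,
`p = m - 1`, `t = Th m d V k` (positive by `e1`: `n * Th = P * V > 0`, `n ≥ 1`). `q1` is the
definition of `Th`: `Th = V (M d + 1) - 2 K + 2`, `K = a c + V + 1`. `q2`: from `e3`, with
`u = M d - 1`: `4 K K' = (K+K')^2 - (K'-K)^2 = (V M d + 1)^2 - (t - V - 1)^2` and
`(t-V-1)^2 = V ((V+1)(d^2-1) + 2t - u^2) - 2 t V + (V+1)^2` (`linear_combination e3`). `hn`, `hw` are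
`e1`, `e2`. `hb`: `b K t = d (n t) (V+2)(V+1) = (V+2) K K'`, cancel `K`. `mda`, `mdc` are `hx`,
`hx'`. Work in `ℤ`, `exact_mod_cast` at the end. -/
def S_Dpar : Prop := ∀ (α ι : Type) [Fintype α] [DecidableEq α] [Fintype ι] [DecidableEq ι]
  (B : ι → Finset α) (k l x y : ℕ), IsDesign3 B k l → IsQS B x y → 0 < x →
  2 * k < Fintype.card α + x →
  ∃ V a c p d n w t b r lam : ℕ, Fintype.card α = V + 2 ∧ Par V a c p d n w t b r lam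

/-- TASK Nsq. Modulo `V`: `c = -a`, `K = (a+1)(c+1) = 1 - a^2`, `K' = 1 - K = a^2`, `K K' = 0`.
(`K = (a+1) V + 1 - a^2`; in `ℤ`; the statement for `c` is the one for `a` with `a`, `c`
exchanged.) -/
def S_Nsq : Prop := ∀ V a c p d t : ℕ, a + c = V → 1 ≤ a → 1 ≤ c →
  (a + 1) * (c + 1) + (a * c + t) = V * ((2 * p + 1) * d) + 1 →
  (a + 1) * (c + 1) * (a * c + t) = p * (p + 1) * d ^ 2 * (V * (V + 1)) →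
  V ∣ a ^ 2 * (a ^ 2 - 1) ∧ V ∣ c ^ 2 * (c ^ 2 - 1)

/-- TASK Hlf (`v ≠ 2k`). Suppose `a = c`, `V = 2a`. `K = (a+1)^2`,
`K' = 2 a M d + 1 - (a+1)^2 = a W`, `W = 2 M d - a - 2`; `q2` gives (cancel `2a`)
`2 (a+1)^2 W = 4 p (p+1) d^2 (2a+1)`. `2a+1` is coprime to `2 (a+1)^2`, so `W = (2a+1) z` and
`(a+1)^2 z = 2 p (p+1) d^2`, i.e. `2 (a+1)^2 z = (M^2 - 1) d^2`; `z ≥ 1`. With
`X = (2a+1) z - a - 1`: `4 d^2 = X^2 + 2a + 3 - 2z` (from `2 M d = (2a+1) z + a + 2`,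
`4 M^2 d^2 = 4 d^2 + 8 (a+1)^2 z`; `linear_combination`). `z = 1`: `X = a`, `(2d)^2 = (a+1)^2`,
`2 d = a + 1`, but `3 d ≤ (p+1) d ≤ a`. `z ≥ 2`: `X ≥ 3a+1`; if `2d ≥ X+1` then
`2a+3-2z ≥ 2X+1`, if `2d ≤ X-1` then `2a+3-2z ≤ -2X+1`, i.e. `z ≥ (2a+1) z`, and `2d = X` gives
`2a+3 = 2z`: all impossible (`nlinarith` in `ℤ`). -/
def S_Hlf : Prop := ∀ V a c p d n w t b r lam : ℕ, Par V a c p d n w t b r lam → a ≠ c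

/-- TASK Thp. `g = gcd V a`, `V = g S`, `a = g j` (`Nat.exists_coprime` or the quotients). In `ℤ`:
`t = V M d - V - 2 a c` (by `q1` and `K = a c + V + 1`), so `g ∣ t`. `t ∣ p(p+1)d V` by `hn`, and
`w t V = n t a = p(p+1)d a V`, so `w t = p(p+1)d a` and `t ∣ p(p+1)d a`. Hence
`t ∣ gcd (P V) (P a) = P g`, `P = p(p+1)d`, and `s ∣ P` for `t = g s` (`g > 0`). -/
def S_Thp : Prop := ∀ V a c p d n w t b r lam : ℕ, Par V a c p d n w t b r lam →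
  ∃ g S j s : ℕ, GS V a t g S j s ∧ s ∣ p * (p + 1) * d

/-- TASK PrA (prime lemma for `m = p+1`). Suppose `q ∤ d`, `q ∤ d+1`; show `q^2 ∣ V`. Modulo `q` (for
instance in `ZMod q`, a field, or with `Int.emod_emod_of_dvd` / divisibility in `ℤ`): `p = -1`,
`M = -1`, `t = 0`, `K' = a c + t = K - V - 1`, `K + K' = 1 - V d`, `K K' = 0`. So either `K' = 0` and
`V (d+1) = 0`, or `K = 0` and `V (d-1) = 2`.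
Case `q ∤ V`: then `K = 0`, `V (d-1) = 2`. `q ∤ n`: by `hn`, `n g s = p (p+1) d V` where the right
side is divisible by `q` exactly once (`p+1 = q e`, `q ∤ e p d V`) and `q ∣ s`. By `hbk`,
`q ∣ d n (V+2)(V+1)`, so `V = -2` or `V = -1`; then `V (d-1) = 2` gives `2 d = 0` or `d + 1 = 0`:
contradiction.
Case `q ∣ V`: `K' = K - 1`, `K + K' = 1`, so `2 K = 2`, `K = 1`; `c = -a`, `K = 1 - a^2`, so `q ∣ a`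
and `q ∣ g`. In `ℤ`, `t = V M d - V - 2 a c`, divide by `g`: `s = S M d - S - 2 j c`, `q ∣ c`, so
modulo `q`: `0 = s = S (M d - 1) = -S (d+1)`, `q ∣ S`, `q^2 ∣ g S = V`. -/
def S_PrA : Prop := ∀ V a c p d n w t b r lam g S j s : ℕ, Par V a c p d n w t b r lam →
  GS V a t g S j s → ∀ q : ℕ, q.Prime → q ≠ 2 → q ∣ s → q ∣ p + 1 → ¬ q ^ 2 ∣ p + 1 →
  q ∣ d ∨ q ∣ d + 1 ∨ q ^ 2 ∣ V

/-- TASK PrB (prime lemma for `p = m-1`). As `PrA` with other signs. Suppose `q ∤ d`, `q ∤ d-1`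
(so `d ≥ 2`). Modulo `q`: `p = 0`, `M = 1`, `t = 0`, `K' = K - V - 1`, `K + K' = 1 + V d`, `K K' = 0`:
either `K' = 0`, `V (d-1) = 0`, or `K = 0`, `V (d+1) = -2`. Case `q ∤ V`: `K = 0`, `q ∤ n`,
`q ∣ (V+2)(V+1)`; `V = -2` gives `2d = 0`, `V = -1` gives `d = 1`: contradiction. Case `q ∣ V`:
`K = 1`, `q ∣ a`, `q ∣ g`, `0 = s = S (M d - 1) = S (d-1)`, `q ∣ S`, `q^2 ∣ V`. -/
def S_PrB : Prop := ∀ V a c p d n w t b r lam g S j s : ℕ, Par V a c p d n w t b r lam →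
  GS V a t g S j s → ∀ q : ℕ, q.Prime → q ≠ 2 → q ∣ s → q ∣ p → ¬ q ^ 2 ∣ p →
  q ∣ d ∨ q ∣ d - 1 ∨ q ^ 2 ∣ V

/-- TASK IneA (inequalities (i), (ii)). `a, c ≥ 3 d ≥ 3`, so `V ≥ 6`. (i): `4 K K' ≤ (K+K')^2` and
`q1`, `q2` give `(M^2-1) d^2 V (V+1) ≤ (V M d + 1)^2`, i.e. `V d^2 (M^2 - V - 1) ≤ 2 V M d + 1`. If
`M^2 - V - 1 ≥ 2M + 1` then `V d^2 (2M+1) ≤ 2 V M d + 1 < V d (2M+1)`, contradiction. So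
`M^2 ≤ V + 1 + 2M`, `(M-1)^2 ≤ V + 2`, `M - 1 = 2p`. (ii): `(a c)^2 ≤ K K' = p(p+1) d^2 V (V+1)` and
`4 p (p+1) (V+1) ≤ 4 V^2` (from (i): `4 p ≤ p^2 + 4`, `4p^2 + 4p ≤ 5 (V+2)/4 + 4`,
`(5 (V+2) + 16) (V+1) ≤ 16 V^2` for `V ≥ 6`). -/
def S_IneA : Prop := ∀ V a c p d n w t b r lam : ℕ, Par V a c p d n w t b r lam →
  6 ≤ V ∧ 4 * p ^ 2 ≤ V + 2 ∧ (a * c) ^ 2 ≤ V ^ 3 * d ^ 2

/-- TASK IneB (inequality (iii)). With `M^2 - (M^2-1) = 1`: by `q1`, `V^2 M^2 d^2 = (K+K'-1)^2` and by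
`q2`, `V^2 (V+1) (M^2-1) d^2 = 4 V K K'`; so
`V^2 (V+1) d^2 = (V+1) (K+K'-1)^2 - 4 V K K' ≤ (V+1) (K'-K)^2 + 4 K K'`. Here
`(K'-K)^2 = (t-V-1)^2 ≤ (t+V+1)^2`, `4 K = 4 a c + 4 V + 4 ≤ (V+2)^2`, `4 a c ≤ V^2`,
`4 K' ≤ V^2 + 4 t`, and with `V ≥ 6`: `4 K K' ≤ (V+2)^2 (V^2 + 4t)/4 ≤ (V+1) (V^3 + 4 V t)`, and
`(t+V+1)^2 + 4 V t ≤ (t+4V)^2`. Divide by `V+1`. -/
def S_IneB : Prop := ∀ V a c p d n w t b r lam : ℕ, Par V a c p d n w t b r lam →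
  (d * V) ^ 2 ≤ (t + 4 * V) ^ 2 + V ^ 3

/-- TASK Nrs (case (B)). `M = 2p+1 ≤ Y^200 + 2` from `4 p^2 ≤ V + 2 ≤ Y^400 + 2` (so `2p ≤ Y^200+1`).
Let `D = V + 1 - M^2`. From `q1`, `q2`: `(K'-K)^2 = (K+K')^2 - 4KK' = V d^2 D + 2 V M d + 1` and
`K' - K = t - V - 1`. Upper bound: `V d^2 D ≤ (t-V-1)^2 ≤ (3 V Y^80)^2`; if `D > 0`, then with
`(a c)^2 ≤ V^3 d^2`: `D (a c)^2 ≤ D V^3 d^2 ≤ 9 V^4 Y^160`; `2 a c ≥ V Y^394` (the larger of `a`, `c`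
is `≥ V/2`), so `D Y^788 V^2 ≤ 36 V^4 Y^160`, `D Y^788 ≤ 36 V^2 Y^160 ≤ 36 Y^960`, `D ≤ 36 Y^172`.
Lower bound: `V d^2 D + 2 V M d + 1 ≥ 0`, so `d D ≥ -2M` (integers), and `d^2 V^3 ≥ (a c)^2`,
`4 (a c)^2 ≥ V^2 Y^788`, so `4 d^2 Y^400 ≥ 4 d^2 V ≥ Y^788`, `2 d ≥ Y^194`, and
`2 M ≤ 2 Y^200 + 4 ≤ 36 Y^172 d`. -/
def S_Nrs : Prop := S_IneA → ∀ Y V a c p d n w t b r lam : ℕ, Par V a c p d n w t b r lam → 3 ≤ Y →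
  V ≤ Y ^ 400 → Y ^ 394 < a → Y ^ 394 < c → t < V * Y ^ 80 →
  2 * p + 1 ≤ Y ^ 200 + 2 ∧ |(V : ℤ) + 1 - (2 * (p : ℤ) + 1) ^ 2| ≤ 36 * (Y : ℤ) ^ 172

/-- TASK Est. Let `g0 = gcd b ((V+2)(V+1))`, `(V+2)(V+1) = g0 E`, `b = g0 b'`, `gcd b' E = 1`.
`r (V+2) = b (a+1)` gives `r E = b' (a+1)(V+1)`, so `E ∣ (a+1)(V+1)`; `lam (V+1) = r a` gives
`lam E = b' a (a+1)`, so `E ∣ a (a+1)`. `E0 = gcd E (V+2)`, `E1 = gcd E (V+1)`, `E = E0 E1`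
(`Nat.Coprime.gcd_mul`), `E0` is coprime to `V+1`, so `E0 ∣ a+1`. `E b ≥ E g0 = (V+2)(V+1)`
(`b ≥ 1` by `hb`). -/
def S_Est : Prop := ∀ V a c p d n w t b r lam : ℕ, Par V a c p d n w t b r lam →
  ∃ E0 E1 : ℕ, E0 ∣ V + 2 ∧ E0 ∣ a + 1 ∧ E1 ∣ V + 1 ∧ E1 ∣ a * (a + 1) ∧
    (V + 2) * (V + 1) ≤ E0 * E1 * b

/-- TASK Elo. Suppose `E < Z`. Then `Z b > (V+2)(V+1)` (`b ≥ 1`), multiply by `t` and use `hb`: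
`Z (a c + t) > (V+1) t`. But `4 a c ≤ V^2`, so `2 (V+1) t ≥ V (V Z) + V t ≥ 4 a c Z + 2 Z t`.
Contradiction. -/
def S_Elo : Prop := ∀ V a c p d n w t b r lam : ℕ, Par V a c p d n w t b r lam →
  ∀ Z E : ℕ, V * Z ≤ t → 2 * Z ≤ V → (V + 2) * (V + 1) ≤ E * b → Z ≤ E

/-- TASK Dec (decomposition). `T = ∏ q^(v_q T)` over the primes `q ∣ T`. For `q` with `q^2 ∣ x` put
`i = v_q x ≥ 2`; `v_q T ≤ i ≤ 3 (i/2)`; `f = ∏ q^(i/2)` over these `q`, so `f^2 ∣ x` and their part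
of `T` is `≤ f^3`. For the other `q ∣ T`: `v_q T = 1`. The prime `2` contributes at most `2`. Split
the remaining ones into `A1 = {q ∣ D1}`, `A2 = {q ∣ D2} \ A1`, `A3` = the rest, where `q^2 ∣ V`;
`∏_{A1} q ∣ gcd x D1`, `∏_{A2} q ∣ gcd x D2`, `h = ∏_{A3} q`, `h^2 ∣ V` (products of distinct
primes, `Finset.prod_coprime_dvd` style; or strong induction on `T` via
`Nat.recOnPosPrimePosCoprime`). -/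
def S_Dec : Prop := ∀ x T D1 D2 V : ℕ, 1 ≤ x → 1 ≤ D1 → 1 ≤ D2 → 1 ≤ V → T ∣ x →
  (∀ q : ℕ, q.Prime → q ≠ 2 → q ∣ T → ¬ q ^ 2 ∣ x → q ∣ D1 ∨ q ∣ D2 ∨ q ^ 2 ∣ V) →
  ∃ h f : ℕ, h ^ 2 ∣ V ∧ f ^ 2 ∣ x ∧ T ≤ 2 * Nat.gcd x D1 * Nat.gcd x D2 * h * f ^ 3

/-- TASK CaC (case (C)). `Est` gives `E0`, `E1`; `E0 E1 ≥ Y^80` by `Elo` with `Z = Y^80`
(`V ≥ a > Y^394 ≥ 2 Y^80`). `CD`: `j < S` since `a < V`; `2j ≠ S` since `a ≠ c` (`Hlf`);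
`S ∣ g ((g j)^2 - 1)`: `g S = V ∣ a^2 (a^2-1) = g^2 j^2 ((gj)^2 - 1)` (`Nsq`), cancel `g`, and `S` is
coprime to `j^2`. -/
def S_CaC : Prop := S_Nsq → S_Hlf → S_Est → S_Elo →
  ∀ Y V a c p d n w t b r lam g S j s : ℕ, Par V a c p d n w t b r lam → GS V a t g S j s → 3 ≤ Y →
  Y ^ 394 < a → V * Y ^ 80 ≤ t → ∃ E0 E1 : ℕ, CD g S j E0 E1 ∧ Y ^ 80 ≤ E0 * E1

/-- TASK CaD (case (D)). `t = g s`, `V = g S`, so `s V = S t`. By `IneB`, `(d V)^2 ≤ (t+4V)^2 + V^3`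
and `4 V ≤ V Y^80 ≤ t`: `(dV)^2 ≤ 4 t^2 + V^3`. Then `(8 s)^2 ≥ (Y^76 d)^2`: multiply by `V^2`:
`64 S^2 t^2 ≥ 64 Y^392 t^2 ≥ Y^152 (4 t^2 + V^3)` because `32 Y^392 ≥ 4 Y^152` and
`32 Y^392 t^2 ≥ 32 Y^392 V^2 Y^160 ≥ Y^152 V^3` (`V ≤ Y^400`). So `8 s ≥ Y^76 d`. Put
`T1 = gcd s (p+1)`, `T2 = gcd s p`; `s ∣ p (p+1) d` gives `s ≤ T1 T2 d` (`s ∣ T2 T1 gcd(s,d)`,
`Nat.gcd_mul_dvd_mul_gcd`), so `8 T1 T2 ≥ Y^76 > 8 · 4 · Y^72` and `T1 ≥ 2 Y^36` or `T2 ≥ 2 Y^36`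
(`Y ≥ 3`, `Y^4 ≥ 81`). Apply `Dec` with `x = p+1`, `T = T1`, `D1 = d`, `D2 = d+1` (by `PrA`) or
`x = p`, `T = T2`, `D1 = d`, `D2 = d-1` (by `PrB`; if `d = 1` then `Rare` holds by its first
alternative): if `h`, `f` and both gcd's were `< Y^6`, then `T < 2 Y^36`. -/
def S_CaD : Prop := S_PrA → S_PrB → S_IneB → S_Dec →
  ∀ Y V a c p d n w t b r lam g S j s : ℕ, Par V a c p d n w t b r lam → GS V a t g S j s →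
  s ∣ p * (p + 1) * d → 3 ≤ Y → V ≤ Y ^ 400 → V * Y ^ 80 ≤ t → Y ^ 196 ≤ S →
  (∃ h, Y ^ 6 ≤ h ∧ h ^ 2 ∣ V) ∨ Rare (Y ^ 6) p d

/-- TASK Tau (divisor bound). `Pool.Agent.Lib.MP_640417_ag.All.divisor_bound` in
`Lib/MP_640417_ag/All/Divisor.lean` (import it) with `δ = 1/12800`:
`τ(n)^8 ≤ C^8 n^(1/1600) ≤ C^8 64 Y`. -/
def S_Tau : Prop := ∃ C : ℕ, ∀ Y : ℕ, 1 ≤ Y → ∀ n : ℕ, 1 ≤ n → n ≤ 64 * Y ^ 1600 →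
  n.divisors.card ^ 8 ≤ C * Y

/-- TASK Har. `∑_{i ≤ n} 1/i ≤ 1 + log n` (`harmonic_le_one_add_log`), `log (Y^j) = j log Y ≤ j Y`. -/
def S_Har : Prop := ∀ j : ℕ, ∃ C : ℕ, ∀ Y : ℕ, 1 ≤ Y → ∀ n : ℕ, n ≤ 4 * Y ^ j →
  ∑ i ∈ Icc 1 n, (1 : ℝ) / i ≤ C * Y

/-- TASK CntA. `F ⊆ ⋃_{e ≤ Y^394} divisors (e^2 (e^2-1))`; `e^2 (e^2-1) ≤ Y^1576`, and
`τ ≤ τ^8 ≤ C Y`. -/
def S_CntA : Prop := S_Tau → ∃ C : ℕ, ∀ Y : ℕ, 1 ≤ Y → ∀ F : Finset ℕ,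
  (∀ V ∈ F, ∃ e, 2 ≤ e ∧ e ≤ Y ^ 394 ∧ V ∣ e ^ 2 * (e ^ 2 - 1)) → F.card ≤ C * Y ^ 395

/-- TASK CntB. `V` is determined by `M ≤ Y^200 + 2` and the integer `V + 1 - M^2`, with at most
`72 Y^172 + 1` values. -/
def S_CntB : Prop := ∃ C : ℕ, ∀ Y : ℕ, 1 ≤ Y → ∀ F : Finset ℕ,
  (∀ V ∈ F, ∃ M : ℕ, M ≤ Y ^ 200 + 2 ∧ |(V : ℤ) + 1 - (M : ℤ) ^ 2| ≤ 36 * (Y : ℤ) ^ 172) →
  F.card ≤ C * Y ^ 372

/-- TASK Sep (separation). Let `D = g - g' > 0`. `A ∣ D`; `B ∣ (gj-1) - (g'j-1) = D j` and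
`gcd B j = 1`, so `B ∣ D`; `C ∣ D` in the same way. `A` is coprime to `B` and to `C`,
`gcd B C ∣ 2`. So `A lcm(B,C) ∣ D` and `S = ABC ∣ 2 D`. `E1 ∣ D S` and `gcd E1 S = 1`, so `E1 ∣ D`;
`E0 ∣ D S` and `gcd E0 S ∣ 2`, so `E0 ∣ 2D`; `gcd E0 E1 = 1` (`E0 ∣ gS+2`, `E1 ∣ gS+1`), so
`E0 E1 ∣ 2D`; `gcd S (E0 E1) ∣ 2`, so `S E0 E1 ∣ 4 D` (`Nat.gcd_mul_lcm`). (`g, j ≥ 1`, so the
subtractions `g j - 1` are harmless.) -/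
def S_Sep : Prop := ∀ S j g g' A B C E0 E1 : ℕ, 1 ≤ j → 1 ≤ g' → g' < g → Nat.Coprime S j →
  S = A * B * C → A ∣ g → A ∣ g' → B ∣ g * j - 1 → B ∣ g' * j - 1 → C ∣ g * j + 1 →
  C ∣ g' * j + 1 → E0 ∣ g * S + 2 → E0 ∣ g' * S + 2 → E1 ∣ g * S + 1 → E1 ∣ g' * S + 1 →
  S * (E0 * E1) ∣ 4 * (g - g')

/-- TASK Spc (spacing). `F ⊆ [1, X]`, distinct elements differ by at least `Δ` (in the form
`Δ ≤ 4 (g - g')`). The map `g ↦ 4 g / Δ` is injective on `F` with values `≤ 4 X / Δ`. -/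
def S_Spc : Prop := ∀ (X Δ : ℕ) (F : Finset ℕ), 1 ≤ Δ → (∀ g ∈ F, g ≤ X) →
  (∀ g ∈ F, ∀ g' ∈ F, g' < g → Δ ≤ 4 * (g - g')) → F.card ≤ 4 * X / Δ + 1

/-- TASK CntG (case (C) for fixed `S`, `j`). To `g ∈ F` with its `E0`, `E1` attach
`(A, B, C, E0, E1)` with `S = A B C`, `A ∣ g`, `B ∣ gj-1`, `C ∣ gj+1` (from
`S ∣ g (gj-1)(gj+1)`, `exists_dvd_and_dvd_of_dvd_mul` twice). `A, B, C ∈ divisors S`;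
`E0 ∣ |S - 2j|` (`S (gj+1) - j (gS+2) = S - 2j ≠ 0`), `E1 ∣ j (S-j)` (modulo `E1`, `gS = -1`,
`g j (g j + 1) = g j (g j - g S) = -g^2 j (S-j)` and `gcd E1 g = 1`). So there are at most
`τ(S)^3 τ(|S-2j|) τ(j(S-j)) ≤ (C Y)` keys (product of five numbers `≤ τmax`, `τmax^8 ≤ C Y`; here
`j (S-j) ≤ S^2 ≤ Y^392`), and by `Sep`, `Spc` (`Δ = S E0 E1 ≥ S Y^80`, `X = Y^400/S`) at most
`4 (Y^400/S)/(S Y^80) + 1 ≤ 4 Y^320/S^2 + 1` elements for each key. -/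
def S_CntG : Prop := S_Tau → S_Sep → S_Spc → ∃ C : ℕ, ∀ Y : ℕ, 1 ≤ Y → ∀ S j : ℕ,
  S ≤ Y ^ 196 → ∀ F : Finset ℕ,
  (∀ g ∈ F, g * S ≤ Y ^ 400 ∧ ∃ E0 E1 : ℕ, CD g S j E0 E1 ∧ Y ^ 80 ≤ E0 * E1) →
  (F.card : ℝ) ≤ C * Y * (1 + 4 * (Y : ℝ) ^ 320 / (S : ℝ) ^ 2)

/-- TASK CntC. Sum `CntG` over `1 ≤ j < S ≤ Y^196`: at most
`C Y ∑_S S (1 + 4 Y^320/S^2) ≤ C Y (Y^392 + 4 Y^320 C' Y)` (`Har` with `j = 196`). -/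
def S_CntC : Prop := S_CntG → S_Har → ∃ C : ℕ, ∀ Y : ℕ, 1 ≤ Y → ∀ F : Finset ℕ,
  (∀ V ∈ F, V ≤ Y ^ 400 ∧ ∃ g S j E0 E1 : ℕ, V = g * S ∧ S ≤ Y ^ 196 ∧ CD g S j E0 E1 ∧
    Y ^ 80 ≤ E0 * E1) → F.card ≤ C * Y ^ 393

/-- TASK CntE. `F ⊆ ⋃_{h ≥ Q} {multiples of h^2 in [1, X]}`, `Q = Y^6`, `X = Y^400`:
`∑_{h ≥ Q} X/h^2 ≤ X/(Q-1) ≤ 2X/Q` or `2 X / Q` directly by `1/h^2 ≤ 2 (1/h - 1/(h+1))`. -/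
def S_CntE : Prop := ∃ C : ℕ, ∀ Y : ℕ, 1 ≤ Y → ∀ F : Finset ℕ,
  (∀ V ∈ F, 1 ≤ V ∧ V ≤ Y ^ 400 ∧ ∃ h, Y ^ 6 ≤ h ∧ h ^ 2 ∣ V) → F.card ≤ C * Y ^ 394

/-- TASK Vpd (given `(p,d)` there are few `V`). In `ℤ`: `M = 2p+1`, `B = 4 p (p+1) d^2 - 2 M d`,
`A = 2 d^2 V - B`, `e = A + 2 d (K'-K)`, `e' = A - 2 d (K'-K)`. By the two equations
`(K'-K)^2 = (V M d + 1)^2 - 4 p(p+1) d^2 V (V+1) = V^2 d^2 - V B + 1`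
(as `M^2 - 4p(p+1) = 1` and `V (2 M d - 4 p (p+1) d^2) = - V B`), so
`e e' = A^2 - 4 d^2 (K'-K)^2 = B^2 - 4 d^2 = 16 d^2 p (p+1) (p d - 1) ((p+1) d - 1)`, a positive
number `Pi` (`p ≥ 2`). `e` determines `e' = Pi / e` and `4 d^2 V = e + e' + 2 B`. So `V ↦ e` (for
chosen `K, K'`) is injective into the integer divisors of `Pi`: at most `2 τ(Pi)`. -/
def S_Vpd : Prop := ∀ p d : ℕ, 2 ≤ p → 1 ≤ d → ∀ F : Finset ℕ, (∀ V ∈ F, Eqs V p d) →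
  F.card ≤ 2 * (16 * d ^ 2 * (p * (p + 1)) * ((p * d - 1) * ((p + 1) * d - 1))).divisors.card

/-- TASK Hyp (hyperbola count). The triples `(e, x, y)` of positive integers with `Q ≤ e` and
`e^2 x y ≤ X`, `X = 4 Y^400`, `Q = Y^6`: at most `∑_{e ≥ Q} ∑_{x ≤ X} X/(e^2 x) ≤
X (∑_{e≥Q} 1/e^2) (∑_{x ≤ X} 1/x) ≤ X (2/Q) (C Y)` (`Har` with `j = 400`). -/
def S_Hyp : Prop := S_Har → ∃ C : ℕ, ∀ Y : ℕ, 1 ≤ Y → ∀ G : Finset (ℕ × ℕ × ℕ),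
  (∀ z ∈ G, Y ^ 6 ≤ z.1 ∧ 1 ≤ z.2.1 ∧ 1 ≤ z.2.2 ∧ z.1 ^ 2 * (z.2.1 * z.2.2) ≤ 4 * Y ^ 400) →
  G.card ≤ C * Y ^ 395

/-- TASK CntR (rare pairs). `d = 1`: `p ≤ Y^200` (from `4 p^2 ≤ Y^400 + 2`), at most `Y^200+1` pairs.
Otherwise `(p, d)` is determined by the case (one of six) and `(e, p', d')`: (1) `p+1 = e p'`,
`d = e d'`; (2) `p+1 = e p'`, `d+1 = e d'`; (3) `p+1 = e^2 p'`, `d = d'`; (4) `p = e p'`, `d = e d'`;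
(5) `p = e p'`, `d-1 = e d'` (`d ≥ 2`); (6) `p = e^2 p'`, `d = d'`; in all cases
`e^2 p' d' ≤ (p+1)(d+1) ≤ 4 p d ≤ 4 Y^400`. So at most `6 C Y^395` by `Hyp`. -/
def S_CntR : Prop := S_Har → S_Hyp → ∃ C : ℕ, ∀ Y : ℕ, 1 ≤ Y → ∀ G : Finset (ℕ × ℕ),
  (∀ z ∈ G, 2 ≤ z.1 ∧ 1 ≤ z.2 ∧ z.1 * z.2 ≤ Y ^ 400 ∧ 4 * z.1 ^ 2 ≤ Y ^ 400 + 2 ∧
    Rare (Y ^ 6) z.1 z.2) → G.card ≤ C * Y ^ 395

/-- TASK CntD. Sum `Vpd` over the pairs of `CntR` (choose `(p,d)` for each `V`; the finset of the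
chosen pairs satisfies the hypothesis of `CntR`); `Pi ≤ 64 (p d)^4 ≤ 64 Y^1600`
(`p+1 ≤ 2p`, `p d - 1 ≤ p d`, `(p+1)d - 1 ≤ 2 p d`; `Pi ≥ 1`), `τ(Pi) ≤ τ(Pi)^8 ≤ C Y`. -/
def S_CntD : Prop := S_Tau → S_Vpd → S_CntR → S_Har → S_Hyp →
  ∃ C : ℕ, ∀ Y : ℕ, 1 ≤ Y → ∀ F : Finset ℕ,
  (∀ V ∈ F, ∃ p d : ℕ, 2 ≤ p ∧ 1 ≤ d ∧ p * d ≤ Y ^ 400 ∧ 4 * p ^ 2 ≤ Y ^ 400 + 2 ∧
    Rare (Y ^ 6) p d ∧ Eqs V p d) → F.card ≤ C * Y ^ 396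

/-- TASK Main. Let `V ∈ F`, with `Par`, `GS` (`Thp`). If `a ≤ Y^394` or `c ≤ Y^394`: `Nsq`, `CntA`
(with `e = a` or `e = c`; both are `≥ 3`). If `t < V Y^80`: `Nrs`, `CntB` (`M = 2p+1`). If
`S < Y^196`: `CaC`, `CntC`. Otherwise `CaD`: `CntE` or `CntD` (`p d ≤ (p+1) d ≤ a ≤ V`,
`4 p^2 ≤ V + 2` by `IneA`, `Eqs` from `q1`, `q2`). `F` is the union of five subsets
(`Finset.filter` with classical decidability), and `Y^i ≤ Y^396`. -/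
def S_Main : Prop := S_Nsq → S_Hlf → S_Thp → S_PrA → S_PrB → S_IneA → S_IneB → S_Nrs → S_Est →
  S_Elo → S_Dec → S_CaC → S_CaD → S_Tau → S_Har → S_Sep → S_Spc → S_Hyp → S_Vpd → S_CntG →
  S_CntR → S_CntA → S_CntB → S_CntC → S_CntD → S_CntE →
  ∃ C : ℕ, ∀ Y : ℕ, 3 ≤ Y → ∀ F : Finset ℕ,
  (∀ V ∈ F, V ≤ Y ^ 400 ∧ ∃ a c p d n w t b r lam : ℕ, Par V a c p d n w t b r lam) →
  F.card ≤ C * Y ^ 396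

/-- TASK Rp (from `Y` to a real power). For `N ≥ 1` let `X = ⌊N^(1/400)⌋`, `Y = X + 3` (or
`Y = max 3 ⌈...⌉`): `N ≤ (X+1)^400 ≤ Y^400`, `Y ≤ 4 X`, `X ≤ N^(1/400)`, so
`C Y^396 ≤ C 4^396 N^(99/100)`. For `N = 0` the hypothesis is not used: `F ⊆ {0}` and
`P 0` is false by `h0`. -/
def S_Rp : Prop := ∀ P : ℕ → Prop, ¬ P 0 →
  (∃ C : ℕ, ∀ Y : ℕ, 3 ≤ Y → ∀ F : Finset ℕ, (∀ v ∈ F, v ≤ Y ^ 400 ∧ P v) →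
    F.card ≤ C * Y ^ 396) →
  ∃ C : ℝ, ∀ N : ℕ, ∀ F : Finset ℕ, (∀ v ∈ F, v ≤ N ∧ P v) →
    (F.card : ℝ) ≤ C * (N : ℝ) ^ (99 / 100 : ℝ)

end QS3D.AA
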