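import Pool.Agent.Lib.MP_72d5fb_co.Des
import Pool.Agent.Lib.MP_72d5fb_co.Bas
import Pool.Agent.Lib.MP_72d5fb_co.Small
import Pool.Agent.Lib.MP_72d5fb_co.AA.Spec

/-! MP_72d5fb_co, AA/Dpar: from the design to `Par`. -/

set_option autoImplicit false

namespace QS3D.AA

open Finset

theorem t_Dpar : S_Dpar := by
  intro α ι _ _ _ _ B k l x y hD hQ hx hx'
  have h3 := hD.three_le
  have hlt := hD.lt_card
  obtain ⟨m, d, n, w, lam, r, hy, hk, hr, hlam, hl, hlr, hrb, hF, -, -⟩ :=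
    des B k l x y hD hQ hx (by omega)
  obtain ⟨v, hv⟩ : ∃ v, Fintype.card α = v := ⟨_, rfl⟩
  obtain ⟨b, hb⟩ : ∃ b, Fintype.card ι = b := ⟨_, rfl⟩
  obtain ⟨b0, b1, -, -, -, -, -, -⟩ := bas _ _ _ _ _ _ hF
  have hm3 := small _ _ _ _ _ _ hF b0 b1
  have hm3' : 3 ≤ m := by exact_mod_cast hm3
  rw [hv] at hF hl hlr hrb hx' hlt ⊢
  rw [hb] at hrb
  obtain ⟨V, rfl⟩ : ∃ V, v = V + 2 := ⟨v - 2, by omega⟩
  obtain ⟨a, rfl⟩ : ∃ a, k = a + 1 := ⟨k - 1, by omega⟩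
  obtain ⟨p, rfl⟩ : ∃ p, m = p + 1 := ⟨m - 1, by omega⟩
  obtain ⟨f1, f2, f3, f4, f5, f6, f7, g1, g2, g3⟩ := hF
  have cV : (((V + 2 : ℕ) : ℤ) - 2) = (V : ℤ) := by push_cast; ring
  rw [cV] at f7 g1 g2 g3
  have hmdc0 : (((p + 1 : ℕ) : ℤ)) * d + 1 ≤ (V : ℤ) + 2 - ((a + 1 : ℕ) : ℤ) := f7
  have hd1 : 1 ≤ d := by exact_mod_cast f2
  have hn1 : 1 ≤ n := by exact_mod_cast f4
  have hmda : (p + 1) * d ≤ a := by
    have : (((p + 1 : ℕ) : ℤ)) * d + 1 ≤ ((a + 1 : ℕ) : ℤ) := f6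
    push_cast at this
    have h : (((p + 1) * d : ℕ) : ℤ) ≤ (a : ℤ) := by push_cast; linarith
    exact_mod_cast h
  have hpd : 1 ≤ (p + 1) * d := Nat.mul_pos (by omega) (by omega)
  have haV : a + (p + 1) * d ≤ V := by
    have h : (((a + (p + 1) * d : ℕ)) : ℤ) ≤ (V : ℤ) := by
      push_cast at hmdc0 ⊢; linarith
    exact_mod_cast h
  obtain ⟨c, rfl⟩ : ∃ c, V = a + c := ⟨V - a, by omega⟩
  have hV0 : (0 : ℤ) < ((a + c : ℕ) : ℤ) := by
    have : 0 < a + c := by omega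
    exact_mod_cast this
  -- `t`
  have hPpos : (0 : ℤ) < P ((p + 1 : ℕ) : ℤ) d := by
    unfold P
    have h1 : (2 : ℤ) ≤ (p : ℤ) := by exact_mod_cast (by omega : 2 ≤ p)
    have h2 : (1 : ℤ) ≤ (d : ℤ) := by exact_mod_cast hd1
    push_cast
    have : (0 : ℤ) < ((p : ℤ) + 1) * ((p : ℤ) + 1 - 1) := by nlinarith
    exact mul_pos this (by linarith)
  have hTpos : 0 < Th ((p + 1 : ℕ) : ℤ) d ((a + c : ℕ) : ℤ) ((a + 1 : ℕ) : ℤ) := by
    have h1 : (0 : ℤ) < (n : ℤ) * Th ((p + 1 : ℕ) : ℤ) d ((a + c : ℕ) : ℤ) ((a + 1 : ℕ) : ℤ) := by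
      rw [g1]; exact mul_pos hPpos hV0
    have h2 : (0 : ℤ) < (n : ℤ) := by exact_mod_cast (by omega : 0 < n)
    exact (mul_pos_iff_of_pos_left h2).1 h1
  obtain ⟨t, ht⟩ : ∃ t : ℕ,
      (t : ℤ) = Th ((p + 1 : ℕ) : ℤ) d ((a + c : ℕ) : ℤ) ((a + 1 : ℕ) : ℤ) :=
    ⟨(Th ((p + 1 : ℕ) : ℤ) d ((a + c : ℕ) : ℤ) ((a + 1 : ℕ) : ℤ)).toNat,
      Int.toNat_of_nonneg hTpos.le⟩
  rw [← ht] at g1 g3 hTpos
  have ht1 : 1 ≤ t := by
    have : (0 : ℤ) < (t : ℤ) := hTpos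
    exact_mod_cast this
  have zq1 : ((a : ℤ) + 1) * (c + 1) + (a * c + t) = (a + c) * ((2 * p + 1) * d) + 1 := by
    rw [ht]; unfold Th; push_cast; ring
  have ze3 : ((a : ℤ) + c) * (((a : ℤ) + c + 1) * ((d : ℤ) ^ 2 - 1) + 2 * t -
      ((2 * p + 1) * d - 1) ^ 2) = t * (t - 2) := by
    have h := g3
    unfold u at h
    push_cast at h
    linear_combination h
  have zq2 : ((a : ℤ) + 1) * (c + 1) * (a * c + t) =
      p * (p + 1) * d ^ 2 * ((a + c) * (a + c + 1)) := by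
    have h4 : (4 : ℤ) * (((a : ℤ) + 1) * (c + 1) * (a * c + t)) =
        4 * (p * (p + 1) * d ^ 2 * ((a + c) * (a + c + 1))) := by
      have e1 : (t : ℤ) = (a + c) * ((2 * p + 1) * d) + 1 - ((a : ℤ) + 1) * (c + 1) - a * c := by
        linear_combination zq1
      rw [e1] at ze3 ⊢
      linear_combination ze3
    linarith
  have zn : (n : ℤ) * t = p * (p + 1) * d * (a + c) := by
    have h := g1
    unfold P at h
    push_cast at h
    linear_combination h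
  have zw : (w : ℤ) * (a + c) = n * a := by
    have h := g2
    push_cast at h
    linear_combination h
  have zlr : (lam : ℤ) * (a + c + 1) = r * a := by
    have h1 : (a + c + 2) - 1 = a + c + 1 := by omega
    have h2 : a + 1 - 1 = a := by omega
    rw [h1, h2] at hlr
    exact_mod_cast hlr
  have zr : (r : ℤ) = lam + d * n := by exact_mod_cast hr
  have zrb : (r : ℤ) * (a + c + 2) = b * (a + 1) := by exact_mod_cast hrb
  have zbk : (b : ℤ) * (((a : ℤ) + 1) * (c + 1)) = d * n * ((a + c + 2) * (a + c + 1)) := by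
    have h1 : (r : ℤ) * (c + 1) = d * n * (a + c + 1) := by
      linear_combination zlr + ((a : ℤ) + c + 1) * zr
    linear_combination (-((c : ℤ) + 1)) * zrb + ((a : ℤ) + c + 2) * h1
  have zb : (b : ℤ) * t = (a + c + 2) * (a * c + t) := by
    have hK : ((a : ℤ) + 1) * (c + 1) ≠ 0 := by positivity
    apply mul_left_cancel₀ hK
    linear_combination (t : ℤ) * zbk + (d : ℤ) * (a + c + 2) * (a + c + 1) * zn -
      ((a : ℤ) + c + 2) * zq2
  refine ⟨a + c, a, c, p, d, n, w, t, b, r, lam, rfl, ⟨rfl, by omega, hd1, ht1, hmda, by omega,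
    ?_, ?_, ?_, ?_, ?_, ?_, ?_, ?_⟩⟩
  · exact_mod_cast zq1
  · exact_mod_cast zq2
  · exact_mod_cast zn
  · exact_mod_cast zw
  · exact_mod_cast zb
  · exact_mod_cast zbk
  · exact_mod_cast zrb
  · exact_mod_cast zlr

end QS3D.AA
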