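import Pool.Agent.Lib.MP_72d5fb_co.AA.Spec

/-! MP_72d5fb_co, AA/Elo: lower bound for `E`. -/

set_option autoImplicit false

namespace QS3D.AA

open Finset

theorem t_Elo : S_Elo := by
  intro V a c p d n w t b r lam h Z E hZ h2 hE
  by_contra hcon
  push Not at hcon
  have hb := h.hb
  have ht := h.t1
  have hs := h.sum
  have hbp : 0 < b := by
    rcases Nat.eq_zero_or_pos b with h0 | h0
    · rw [h0, zero_mul] at hb
      have : 0 < (V + 2) * (a * c + t) := by positivity
      omega
    · exact h0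
  have h4 : 4 * (a * c) ≤ V ^ 2 := by
    rw [← hs]
    have h0 := sq_nonneg ((a : ℤ) - c)
    zify
    nlinarith
  have h5 : (V + 2) * (V + 1) < Z * b := lt_of_le_of_lt hE (Nat.mul_lt_mul_of_pos_right hcon hbp)
  have h6 : (V + 2) * ((V + 1) * t) < (V + 2) * (Z * (a * c + t)) := by
    calc (V + 2) * ((V + 1) * t) = (V + 2) * (V + 1) * t := by ring
      _ < Z * b * t := Nat.mul_lt_mul_of_pos_right h5 (by omega)
      _ = Z * (b * t) := by ring
      _ = (V + 2) * (Z * (a * c + t)) := by rw [hb]; ring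
  have h7 : (V + 1) * t < Z * (a * c + t) := Nat.lt_of_mul_lt_mul_left h6
  have h8 : 2 * Z * t ≤ V * t := Nat.mul_le_mul_right _ h2
  have h9 : V * (V * Z) ≤ V * t := Nat.mul_le_mul_left _ hZ
  nlinarith [Nat.mul_le_mul_left Z h4]

end QS3D.AA
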