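import Pool.Agent.Lib.MP_72d5fb_co.AA.Spec

/-!
# MP_72d5fb_co, part AA: the structure of E (S_Est)
-/

set_option autoImplicit false

namespace QS3D.AA

open Finset

theorem t_Est : S_Est := by
  intro V a c p d n w t b r lam h
  have hbpos : 0 < b := by
    rcases Nat.eq_zero_or_pos b with hb0 | hb0
    · exfalso
      have h1 := h.hb
      rw [hb0, Nat.zero_mul] at h1
      have h2 : 0 < (V + 2) * (a * c + t) :=
        Nat.mul_pos (by omega) (by have := h.t1; omega)
      omega
    · exact hb0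
  obtain ⟨b', E, hcop, hb', hE⟩ := Nat.exists_coprime b ((V + 2) * (V + 1))
  have hgpos : 0 < Nat.gcd b ((V + 2) * (V + 1)) := Nat.gcd_pos_of_pos_left _ hbpos
  have hgdvd : Nat.gcd b ((V + 2) * (V + 1)) ∣ b := Nat.gcd_dvd_left _ _
  set g := Nat.gcd b ((V + 2) * (V + 1)) with hg
  -- first divisibility
  have e1 : r * E = b' * ((a + 1) * (V + 1)) := by
    apply Nat.eq_of_mul_eq_mul_right hgpos
    calc r * E * g = r * (E * g) := by ring
      _ = r * ((V + 2) * (V + 1)) := by rw [← hE]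
      _ = (r * (V + 2)) * (V + 1) := by ring
      _ = (b * (a + 1)) * (V + 1) := by rw [h.hr]
      _ = (b' * g * (a + 1)) * (V + 1) := by rw [← hb']
      _ = b' * ((a + 1) * (V + 1)) * g := by ring
  have e2 : lam * E = b' * (a * (a + 1)) := by
    apply Nat.eq_of_mul_eq_mul_right hgpos
    calc lam * E * g = lam * (E * g) := by ring
      _ = lam * ((V + 2) * (V + 1)) := by rw [← hE]
      _ = (lam * (V + 1)) * (V + 2) := by ring
      _ = (r * a) * (V + 2) := by rw [h.hl]
      _ = (r * (V + 2)) * a := by ring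
      _ = (b * (a + 1)) * a := by rw [h.hr]
      _ = (b' * g * (a + 1)) * a := by rw [← hb']
      _ = b' * (a * (a + 1)) * g := by ring
  have d1 : E ∣ (a + 1) * (V + 1) :=
    hcop.symm.dvd_of_dvd_mul_left (Dvd.intro_left r e1)
  have d2 : E ∣ a * (a + 1) :=
    hcop.symm.dvd_of_dvd_mul_left (Dvd.intro_left lam e2)
  have hcon : Nat.Coprime (V + 2) (V + 1) := by
    have : V + 2 = (V + 1) + 1 := rfl
    rw [this]
    exact (Nat.coprime_self_add_left).mpr (Nat.coprime_one_left _)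
  have hsplit : Nat.gcd E (V + 2) * Nat.gcd E (V + 1) = E := by
    rw [← Nat.Coprime.gcd_mul E hcon]
    exact Nat.gcd_eq_left (Dvd.intro _ hE.symm)
  refine ⟨Nat.gcd E (V + 2), Nat.gcd E (V + 1), Nat.gcd_dvd_right _ _, ?_,
    Nat.gcd_dvd_right _ _, (Nat.gcd_dvd_left _ _).trans d2, ?_⟩
  · have hc : Nat.Coprime (Nat.gcd E (V + 2)) (V + 1) :=
      Nat.Coprime.coprime_dvd_left (Nat.gcd_dvd_right _ _) hcon
    exact hc.dvd_of_dvd_mul_right ((Nat.gcd_dvd_left _ _).trans d1)
  · rw [hsplit, hE]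
    exact Nat.mul_le_mul_left _ (Nat.le_of_dvd hbpos hgdvd)

end QS3D.AA
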