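import Pool.Agent.Lib.MP_72d5fb_co.AA.Spec

/-!
# MP_72d5fb_co, part AA: the harmonic sum
-/

set_option autoImplicit false

namespace QS3D.AA

open Finset

theorem t_Har : S_Har := by
  intro j
  refine ⟨j + 4, fun Y hY n hn => ?_⟩
  have hY' : (1 : ℝ) ≤ Y := by exact_mod_cast hY
  have h1 : ∑ i ∈ Icc 1 n, (1 : ℝ) / i = ((harmonic n : ℚ) : ℝ) := by
    rw [harmonic_eq_sum_Icc]
    push_cast
    simp only [one_div]
  rw [h1]
  rcases Nat.eq_zero_or_pos n with h0 | h0
  · rw [h0]
    simp
    positivity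
  · have h2 := harmonic_le_one_add_log n
    have h3 : Real.log n ≤ Real.log (4 * (Y : ℝ) ^ j) := by
      apply Real.log_le_log (by exact_mod_cast h0)
      exact_mod_cast hn
    have h4 : Real.log (4 * (Y : ℝ) ^ j) = Real.log 4 + j * Real.log Y := by
      rw [Real.log_mul (by norm_num) (by positivity), Real.log_pow]
    have h5 : Real.log 4 ≤ 4 - 1 := Real.log_le_sub_one_of_pos (by norm_num)
    have h6 : Real.log Y ≤ Y - 1 := Real.log_le_sub_one_of_pos (by linarith)
    have h7 : (j : ℝ) * Real.log Y ≤ j * Y :=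
      mul_le_mul_of_nonneg_left (by linarith) (Nat.cast_nonneg j)
    push_cast
    nlinarith

end QS3D.AA
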