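import Pool.Agent.Lib.MP_72d5fb_co.AA.Spec

/-!
# MP_72d5fb_co, part AA: `v` is not `2k` (`t_Hlf`)
-/

set_option autoImplicit false

namespace QS3D.AA

open Finset

private theorem Hlf_int (a p d W : ℤ) (ha : 1 ≤ a) (hp : 1 ≤ p) (hd : 1 ≤ d)
    (h3 : 3 * d ≤ a) (hW : 2 * ((2 * p + 1) * d) = W + a + 2)
    (hq : (a + 1) ^ 2 * W = 2 * (p * (p + 1)) * d ^ 2 * (2 * a + 1)) : False := by
  have hcop : IsCoprime (2 * a + 1) ((a + 1) ^ 2) := by
    refine IsCoprime.pow_right ?_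
    exact ⟨-1, 2, by ring⟩
  have hdvd : (2 * a + 1) ∣ (a + 1) ^ 2 * W := ⟨2 * (p * (p + 1)) * d ^ 2, by rw [hq]; ring⟩
  obtain ⟨z, hz⟩ := hcop.dvd_of_dvd_mul_left hdvd
  have hz1 : (a + 1) ^ 2 * z = 2 * (p * (p + 1)) * d ^ 2 := by
    have h1 : (2 * a + 1) * ((a + 1) ^ 2 * z) = (2 * a + 1) * (2 * (p * (p + 1)) * d ^ 2) := by
      rw [hz] at hq
      linear_combination hq
    exact mul_left_cancel₀ (by omega) h1
  have hpos : 0 < 2 * (p * (p + 1)) * d ^ 2 := by positivity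
  have hzpos : 1 ≤ z := by
    by_contra h
    have h1 : z ≤ 0 := by omega
    have h2 : (a + 1) ^ 2 * z ≤ 0 := mul_nonpos_of_nonneg_of_nonpos (by positivity) h1
    omega
  have hX : (2 * d) ^ 2 = ((2 * a + 1) * z - a - 1) ^ 2 + 2 * a + 3 - 2 * z := by
    have h1 : (2 * ((2 * p + 1) * d)) ^ 2 = ((2 * a + 1) * z + a + 2) ^ 2 := by rw [hW, hz]
    linear_combination h1 + 8 * hz1
  rcases lt_or_ge 1 z with h2 | h2
  · obtain ⟨X, hXd⟩ : ∃ X, X = (2 * a + 1) * z - a - 1 := ⟨_, rfl⟩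
    rw [← hXd] at hX
    have hX1 : 3 * a + 1 ≤ X := by nlinarith
    rcases lt_trichotomy (2 * d) X with h4 | h4 | h4
    · have h5 : (2 * d) ^ 2 ≤ (X - 1) ^ 2 := by
        refine pow_le_pow_left₀ (by omega) (by omega) 2
      have h6 : 2 * X + 2 * a + 2 ≤ 2 * z := by nlinarith
      have h7 : (2 * a + 1) * z ≤ z := by omega
      nlinarith
    · rw [h4] at hX
      omega
    · have h5 : (X + 1) ^ 2 ≤ (2 * d) ^ 2 := by
        refine pow_le_pow_left₀ (by omega) (by omega) 2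
      nlinarith
  · have h3' : z = 1 := by omega
    subst h3'
    have h4 : (2 * d) ^ 2 = (a + 1) ^ 2 := by linear_combination hX
    have h5 : 2 * d = a + 1 := by
      rcases sq_eq_sq_iff_eq_or_eq_neg.1 h4 with h | h <;> omega
    omega

/-- `v ≠ 2k`. -/
theorem t_Hlf : S_Hlf := by
  intro V a c p d n w t b r lam h hac
  subst hac
  have hV : V = 2 * a := by have := h.sum; omega
  subst hV
  have hp := h.two
  have hd := h.d1
  have hm := h.mda
  have h3 : 3 * d ≤ a := (Nat.mul_le_mul_right d (by omega)).trans hm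
  have ha : 1 ≤ a := by omega
  have hq1 : ((a : ℤ) + 1) * (a + 1) + (a * a + t) = 2 * a * ((2 * p + 1) * d) + 1 := by
    exact_mod_cast h.q1
  have hq2 : ((a : ℤ) + 1) * (a + 1) * (a * a + t) =
      p * (p + 1) * d ^ 2 * (2 * a * (2 * a + 1)) := by
    exact_mod_cast h.q2
  refine Hlf_int a p d (2 * ((2 * p + 1) * d) - a - 2) (by exact_mod_cast ha)
    (by exact_mod_cast (by omega : 1 ≤ p)) (by exact_mod_cast hd) (by exact_mod_cast h3)
    (by ring) ?_
  have hne : (a : ℤ) ≠ 0 := by exact_mod_cast (by omega : a ≠ 0)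
  refine mul_left_cancel₀ hne ?_
  have h4 : (a : ℤ) * a + t = a * (2 * ((2 * p + 1) * d) - a - 2) := by linear_combination hq1
  rw [h4] at hq2
  linear_combination hq2

end QS3D.AA
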