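import Pool.Agent.Lib.MP_72d5fb_co.AA.Spec

/-!
# MP_72d5fb_co, part AA: the hyperbola count
-/

set_option autoImplicit false

namespace QS3D.AA

open Finset

private theorem Hyp_tele (Q : ℕ) (hQ : 1 ≤ Q) (n : ℕ) :
    ∑ i ∈ range n, (1 : ℝ) / ((Q + i : ℕ) : ℝ) ^ 2 ≤ 2 / (Q : ℝ) - 2 / ((Q : ℝ) + n) := by
  have hQ' : (1 : ℝ) ≤ (Q : ℝ) := by exact_mod_cast hQ
  induction n with
  | zero => simp
  | succ n ih =>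
    rw [sum_range_succ]
    have h0 : (1 : ℝ) ≤ (Q : ℝ) + n := by
      have : (0 : ℝ) ≤ (n : ℝ) := Nat.cast_nonneg n
      linarith
    have key : (1 : ℝ) / ((Q + n : ℕ) : ℝ) ^ 2 ≤ 2 / ((Q : ℝ) + n) - 2 / ((Q : ℝ) + (n + 1 : ℕ)) := by
      push_cast
      have e1 : 2 / ((Q : ℝ) + n) - 2 / ((Q : ℝ) + (n + 1)) =
          2 / (((Q : ℝ) + n) * ((Q : ℝ) + (n + 1))) := by
        field_simp
        ring
      rw [e1, div_le_div_iff₀ (by positivity) (by positivity)]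
      nlinarith
    linarith

private theorem Hyp_sq (Q X : ℕ) (hQ : 1 ≤ Q) :
    ∑ e ∈ Ico Q (X + 1), (1 : ℝ) / (e : ℝ) ^ 2 ≤ 2 / (Q : ℝ) := by
  rw [sum_Ico_eq_sum_range]
  have h := Hyp_tele Q hQ (X + 1 - Q)
  have h2 : (0 : ℝ) ≤ 2 / ((Q : ℝ) + ((X + 1 - Q : ℕ) : ℝ)) := by positivity
  linarith

private theorem Hyp_card (Q X : ℕ) (hQ : 1 ≤ Q) (G : Finset (ℕ × ℕ × ℕ))
    (hG : ∀ z ∈ G, Q ≤ z.1 ∧ 1 ≤ z.2.1 ∧ 1 ≤ z.2.2 ∧ z.1 ^ 2 * (z.2.1 * z.2.2) ≤ X) :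
    (G.card : ℝ) ≤ X * (∑ e ∈ Ico Q (X + 1), (1 : ℝ) / (e : ℝ) ^ 2) *
      ∑ x ∈ Icc 1 X, (1 : ℝ) / (x : ℝ) := by
  have hsub : G ⊆ (Ico Q (X + 1) ×ˢ Icc 1 X).biUnion
      (fun p => (Icc 1 (X / (p.1 ^ 2 * p.2))).image (fun y => (p.1, p.2, y))) := by
    intro z hz
    obtain ⟨h1, h2, h3, h4⟩ := hG z hz
    have he1 : 1 ≤ z.1 := le_trans hQ h1
    have hsq : z.1 ≤ z.1 ^ 2 := by nlinarith
    have hprod : 1 ≤ z.2.1 * z.2.2 := Nat.mul_pos h2 h3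
    have heX : z.1 ≤ X := by nlinarith
    have hxX : z.2.1 ≤ X := by
      have e1 : z.2.1 ≤ z.2.1 * z.2.2 := Nat.le_mul_of_pos_right _ h3
      have e2 : z.2.1 * z.2.2 ≤ z.1 ^ 2 * (z.2.1 * z.2.2) :=
        Nat.le_mul_of_pos_left _ (by positivity)
      omega
    rw [mem_biUnion]
    refine ⟨(z.1, z.2.1), ?_, ?_⟩
    · rw [mem_product, mem_Ico, mem_Icc]
      exact ⟨⟨h1, by simp only; omega⟩, h2, hxX⟩
    · rw [mem_image]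
      refine ⟨z.2.2, ?_, rfl⟩
      rw [mem_Icc]
      refine ⟨h3, ?_⟩
      simp only
      rw [Nat.le_div_iff_mul_le (by positivity)]
      calc z.2.2 * (z.1 ^ 2 * z.2.1) = z.1 ^ 2 * (z.2.1 * z.2.2) := by ring
        _ ≤ X := h4
  have hcard : G.card ≤ ∑ p ∈ Ico Q (X + 1) ×ˢ Icc 1 X, X / (p.1 ^ 2 * p.2) := by
    refine (card_le_card hsub).trans (card_biUnion_le.trans ?_)
    refine sum_le_sum fun p _ => ?_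
    refine card_image_le.trans ?_
    rw [Nat.card_Icc, Nat.add_sub_cancel]
  have hreal : (G.card : ℝ) ≤ ∑ p ∈ Ico Q (X + 1) ×ˢ Icc 1 X,
      ((X : ℝ) * (1 / (p.1 : ℝ) ^ 2)) * (1 / (p.2 : ℝ)) := by
    have h1 : (G.card : ℝ) ≤ ((∑ p ∈ Ico Q (X + 1) ×ˢ Icc 1 X, X / (p.1 ^ 2 * p.2) : ℕ) : ℝ) := by
      exact_mod_cast hcard
    refine h1.trans ?_
    rw [Nat.cast_sum]
    refine sum_le_sum fun p _ => ?_
    refine (Nat.cast_div_le).trans (le_of_eq ?_)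
    push_cast
    simp only [div_eq_mul_inv, mul_inv, one_mul]
    ring
  refine hreal.trans (le_of_eq ?_)
  rw [sum_product, mul_assoc, sum_mul_sum, mul_sum]
  refine sum_congr rfl fun e _ => ?_
  rw [mul_sum]
  refine sum_congr rfl fun x _ => ?_
  ring

theorem t_Hyp : S_Hyp := by
  intro hHar
  obtain ⟨C, hC⟩ := hHar 400
  refine ⟨8 * C, ?_⟩
  intro Y hY G hG
  have hQ : 1 ≤ Y ^ 6 := Nat.one_le_pow _ _ hY
  have h := Hyp_card (Y ^ 6) (4 * Y ^ 400) hQ G hG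
  have hs := Hyp_sq (Y ^ 6) (4 * Y ^ 400) hQ
  have hx := hC Y hY (4 * Y ^ 400) le_rfl
  have hY' : (1 : ℝ) ≤ (Y : ℝ) := by exact_mod_cast hY
  have hY0 : (Y : ℝ) ≠ 0 := by positivity
  obtain ⟨S1, hS1⟩ : ∃ s : ℝ, s = ∑ x ∈ (Icc 1 (4 * Y ^ 400) : Finset ℕ), (1 : ℝ) / (x : ℝ) :=
    ⟨_, rfl⟩
  obtain ⟨S2, hS2⟩ : ∃ s : ℝ, s =
      ∑ e ∈ (Ico (Y ^ 6) (4 * Y ^ 400 + 1) : Finset ℕ), (1 : ℝ) / (e : ℝ) ^ 2 := ⟨_, rfl⟩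
  have hnn : (0 : ℝ) ≤ S1 := by
    rw [hS1]
    exact sum_nonneg fun x _ => by positivity
  rw [← hS1, ← hS2] at h
  rw [← hS2] at hs
  rw [← hS1] at hx
  have hX0 : (0 : ℝ) ≤ ((4 * Y ^ 400 : ℕ) : ℝ) := Nat.cast_nonneg _
  have final : (G.card : ℝ) ≤ ((8 * C * Y ^ 395 : ℕ) : ℝ) := by
    calc (G.card : ℝ) ≤ ((4 * Y ^ 400 : ℕ) : ℝ) * S2 * S1 := h
      _ ≤ ((4 * Y ^ 400 : ℕ) : ℝ) * (2 / ((Y ^ 6 : ℕ) : ℝ)) * S1 :=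
        mul_le_mul_of_nonneg_right (mul_le_mul_of_nonneg_left hs hX0) hnn
      _ ≤ ((4 * Y ^ 400 : ℕ) : ℝ) * (2 / ((Y ^ 6 : ℕ) : ℝ)) * (C * Y) :=
        mul_le_mul_of_nonneg_left hx (by positivity)
      _ = ((8 * C * Y ^ 395 : ℕ) : ℝ) := by
        push_cast
        have e : (Y : ℝ) ^ 400 = (Y : ℝ) ^ 394 * (Y : ℝ) ^ 6 := by rw [← pow_add]
        have e2 : (Y : ℝ) ^ 395 = (Y : ℝ) ^ 394 * (Y : ℝ) := by rw [← pow_succ]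
        rw [e, e2]
        have h6 : (Y : ℝ) ^ 6 ≠ 0 := pow_ne_zero _ hY0
        field_simp
        ring
  exact_mod_cast final

end QS3D.AA
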