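import Pool.Agent.Lib.MP_72d5fb_co.AA.Spec

set_option autoImplicit false

namespace QS3D.AA

open Finset

private theorem IneA_fst (V p d K K' : ℤ) (hV : 6 ≤ V) (hd : 1 ≤ d) (hp : 2 ≤ p)
    (q1 : K + K' = V * ((2 * p + 1) * d) + 1)
    (q2 : K * K' = p * (p + 1) * d ^ 2 * (V * (V + 1))) : 4 * p ^ 2 ≤ V + 2 := by
  by_contra hc
  have hc1 : V + 3 ≤ 4 * p ^ 2 := by linarith [not_le.mp hc, Int.add_one_le_iff.mpr (not_le.mp hc)]
  have h1 : 4 * (K * K') ≤ (K + K') ^ 2 := by nlinarith [sq_nonneg (K - K')]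
  rw [q1, q2] at h1
  have h2 : V * d ^ 2 * ((2 * p + 1) ^ 2 - 1 - V) ≤ 2 * V * (2 * p + 1) * d + 1 := by nlinarith
  have h3 : 2 * (2 * p + 1) + 1 ≤ (2 * p + 1) ^ 2 - 1 - V := by nlinarith
  have hVd : 0 ≤ V * d ^ 2 := by positivity
  have h4 : V * d ^ 2 * (2 * (2 * p + 1) + 1) ≤ V * d ^ 2 * ((2 * p + 1) ^ 2 - 1 - V) :=
    mul_le_mul_of_nonneg_left h3 hVd
  have h5 : V * d ≤ V * d ^ 2 := by nlinarith [mul_nonneg (by linarith : (0:ℤ) ≤ V) (mul_nonneg (by linarith : (0:ℤ) ≤ d) (by linarith : (0:ℤ) ≤ d - 1))]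
  have h6 : V * d * (2 * (2 * p + 1) + 1) ≤ V * d ^ 2 * (2 * (2 * p + 1) + 1) :=
    mul_le_mul_of_nonneg_right h5 (by linarith)
  have h7 : 6 ≤ V * d := by nlinarith
  nlinarith

private theorem IneA_snd (V p : ℤ) (hV : 6 ≤ V) (h : 4 * p ^ 2 ≤ V + 2) :
    p * (p + 1) * (V + 1) ≤ V ^ 2 := by
  have h1 : 4 * p ≤ p ^ 2 + 4 := by nlinarith [sq_nonneg (p - 2)]
  have h2 : 16 * (p * (p + 1)) ≤ 5 * (V + 2) + 16 := by nlinarith
  have h3 : 16 * (p * (p + 1)) * (V + 1) ≤ (5 * (V + 2) + 16) * (V + 1) :=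
    mul_le_mul_of_nonneg_right h2 (by linarith)
  nlinarith

theorem t_IneA : S_IneA := by
  intro V a c p d n w t b r lam H
  have hpd : 3 ≤ (p + 1) * d := by
    have := H.two
    have := H.d1
    nlinarith
  have ha : 3 ≤ a := hpd.trans H.mda
  have hcc : 3 ≤ c := hpd.trans H.mdc
  have hV : 6 ≤ V := by have := H.sum; omega
  have hV' : (6 : ℤ) ≤ V := by exact_mod_cast hV
  have hp' : (2 : ℤ) ≤ p := by exact_mod_cast H.two
  have hd' : (1 : ℤ) ≤ d := by exact_mod_cast H.d1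
  have q1 : (((a : ℤ) + 1) * (c + 1)) + (a * c + t) = V * ((2 * p + 1) * d) + 1 := by
    exact_mod_cast H.q1
  have q2 : (((a : ℤ) + 1) * (c + 1)) * (a * c + t) = p * (p + 1) * d ^ 2 * (V * (V + 1)) := by
    exact_mod_cast H.q2
  have h1 : 4 * (p : ℤ) ^ 2 ≤ V + 2 := IneA_fst V p d _ _ hV' hd' hp' q1 q2
  refine ⟨hV, by exact_mod_cast h1, ?_⟩
  have h2 : (p : ℤ) * (p + 1) * (V + 1) ≤ V ^ 2 := IneA_snd V p hV' h1
  have ha' : (0 : ℤ) ≤ a := by positivity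
  have hc' : (0 : ℤ) ≤ c := by positivity
  have ht' : (0 : ℤ) ≤ t := by positivity
  have hac : (0 : ℤ) ≤ (a : ℤ) * c := by positivity
  have h3 : ((a : ℤ) * c) ^ 2 ≤ (((a : ℤ) + 1) * (c + 1)) * (a * c + t) := by
    rw [sq]
    apply mul_le_mul _ _ hac (by positivity)
    · nlinarith
    · linarith
  have h4 : (p : ℤ) * (p + 1) * (V + 1) * (V * d ^ 2) ≤ V ^ 2 * (V * d ^ 2) :=
    mul_le_mul_of_nonneg_right h2 (by positivity)
  have h5 : ((a : ℤ) * c) ^ 2 ≤ V ^ 3 * d ^ 2 := by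
    calc ((a : ℤ) * c) ^ 2 ≤ _ := h3
      _ = (p : ℤ) * (p + 1) * (V + 1) * (V * d ^ 2) := by rw [q2]; ring
      _ ≤ _ := h4
      _ = V ^ 3 * d ^ 2 := by ring
  exact_mod_cast h5

end QS3D.AA
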