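import Pool.Agent.Lib.MP_72d5fb_co.AA.Spec

set_option autoImplicit false

namespace QS3D.AA

open Finset

private theorem IneB_int (V a c p d t : ℤ) (hV : 6 ≤ V) (ht : 0 ≤ t) (ha : 0 ≤ a) (hc : 0 ≤ c)
    (hs : a + c = V)
    (q1 : (a + 1) * (c + 1) + (a * c + t) = V * ((2 * p + 1) * d) + 1)
    (q2 : (a + 1) * (c + 1) * (a * c + t) = p * (p + 1) * d ^ 2 * (V * (V + 1))) :
    (d * V) ^ 2 ≤ (t + 4 * V) ^ 2 + V ^ 3 := by
  obtain ⟨A, hA⟩ : ∃ A, A = a * c := ⟨_, rfl⟩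
  have hA0 : 0 ≤ A := by rw [hA]; positivity
  have hA4 : 4 * A ≤ V ^ 2 := by
    rw [hA, ← hs]
    nlinarith [sq_nonneg (a - c)]
  have hK : (a + 1) * (c + 1) = A + V + 1 := by rw [hA, ← hs]; ring
  rw [hK, ← hA] at q1 q2
  -- the main identity
  have e1 : (V + 1) * (d * V) ^ 2 =
      (V + 1) * (t - V - 1) ^ 2 + 4 * (A + V + 1) * (A + t) -
        (V + 1) * (2 * (A + V + 1 + (A + t)) - 1) := by
    have h1 : V * ((2 * p + 1) * d) = A + V + 1 + (A + t) - 1 := by linarith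
    have h2 : (V * ((2 * p + 1) * d)) ^ 2 = (A + V + 1 + (A + t) - 1) ^ 2 := by rw [h1]
    linear_combination (V + 1) * h2 + 4 * V * q2
  have e2 : 0 ≤ (V + 1) * (2 * (A + V + 1 + (A + t)) - 1) := by
    apply mul_nonneg <;> linarith
  have e3 : (t - V - 1) ^ 2 ≤ (t + V + 1) ^ 2 := by nlinarith
  have e4 : 4 * (A + V + 1) * (A + t) ≤ (V + 1) * (V * (V ^ 2 + 4 * t)) := by
    have h1 : 4 * (A + V + 1) ≤ (V + 2) ^ 2 := by nlinarith
    have h2 : 4 * (A + t) ≤ V ^ 2 + 4 * t := by linarith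
    have h3 : (4 * (A + V + 1)) * (4 * (A + t)) ≤ (V + 2) ^ 2 * (V ^ 2 + 4 * t) :=
      mul_le_mul h1 h2 (by linarith) (by positivity)
    have h4 : (V + 2) ^ 2 ≤ 4 * (V * (V + 1)) := by nlinarith
    have h5 : (V + 2) ^ 2 * (V ^ 2 + 4 * t) ≤ 4 * (V * (V + 1)) * (V ^ 2 + 4 * t) :=
      mul_le_mul_of_nonneg_right h4 (by positivity)
    nlinarith
  have e5 : (t + V + 1) ^ 2 + 4 * V * t ≤ (t + 4 * V) ^ 2 := by nlinarith
  have e6 : (V + 1) * (d * V) ^ 2 ≤ (V + 1) * ((t + V + 1) ^ 2 + V * (V ^ 2 + 4 * t)) := by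
    have h1 : (V + 1) * (t - V - 1) ^ 2 ≤ (V + 1) * (t + V + 1) ^ 2 :=
      mul_le_mul_of_nonneg_left e3 (by linarith)
    linarith
  have e7 : (d * V) ^ 2 ≤ (t + V + 1) ^ 2 + V * (V ^ 2 + 4 * t) :=
    le_of_mul_le_mul_left e6 (by linarith)
  nlinarith

theorem t_IneB : S_IneB := by
  intro V a c p d n w t b r lam h
  have ha : 3 ≤ a := by
    have h1 := h.mda
    have h2 : 3 * 1 ≤ (p + 1) * d := Nat.mul_le_mul (by have := h.two; omega) h.d1
    omega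
  have hc : 3 ≤ c := by
    have h1 := h.mdc
    have h2 : 3 * 1 ≤ (p + 1) * d := Nat.mul_le_mul (by have := h.two; omega) h.d1
    omega
  have hs := h.sum
  have q1 := h.q1
  have q2 := h.q2
  zify at q1 q2 hs ⊢
  exact IneB_int V a c p d t (by omega) (by positivity) (by positivity) (by positivity) hs q1 q2

end QS3D.AA
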