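import Pool.Agent.Lib.MP_72d5fb_co.AA.Spec

/-!
# MP_72d5fb_co, part AA (almost all v): assembly of the cases
-/

set_option autoImplicit false

namespace QS3D.AA

open Finset

private lemma Main_union (F : Finset ℕ) (P1 P2 P3 P4 P5 : ℕ → Prop)
    (h : ∀ V ∈ F, P1 V ∨ P2 V ∨ P3 V ∨ P4 V ∨ P5 V) (n1 n2 n3 n4 n5 : ℕ)
    (h1 : ∀ G : Finset ℕ, (∀ V ∈ G, P1 V) → G.card ≤ n1)
    (h2 : ∀ G : Finset ℕ, (∀ V ∈ G, P2 V) → G.card ≤ n2)
    (h3 : ∀ G : Finset ℕ, (∀ V ∈ G, P3 V) → G.card ≤ n3)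
    (h4 : ∀ G : Finset ℕ, (∀ V ∈ G, P4 V) → G.card ≤ n4)
    (h5 : ∀ G : Finset ℕ, (∀ V ∈ G, P5 V) → G.card ≤ n5) :
    F.card ≤ n1 + (n2 + (n3 + (n4 + n5))) := by
  classical
  have hsub : F ⊆ F.filter P1 ∪ (F.filter P2 ∪ (F.filter P3 ∪ (F.filter P4 ∪ F.filter P5))) := by
    intro V hV
    simp only [Finset.mem_union, Finset.mem_filter]
    rcases h V hV with a | a | a | a | a
    · exact Or.inl ⟨hV, a⟩
    · exact Or.inr (Or.inl ⟨hV, a⟩)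
    · exact Or.inr (Or.inr (Or.inl ⟨hV, a⟩))
    · exact Or.inr (Or.inr (Or.inr (Or.inl ⟨hV, a⟩)))
    · exact Or.inr (Or.inr (Or.inr (Or.inr ⟨hV, a⟩)))
  have e1 := h1 (F.filter P1) fun V hV => (Finset.mem_filter.mp hV).2
  have e2 := h2 (F.filter P2) fun V hV => (Finset.mem_filter.mp hV).2
  have e3 := h3 (F.filter P3) fun V hV => (Finset.mem_filter.mp hV).2
  have e4 := h4 (F.filter P4) fun V hV => (Finset.mem_filter.mp hV).2
  have e5 := h5 (F.filter P5) fun V hV => (Finset.mem_filter.mp hV).2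
  have c0 := Finset.card_le_card hsub
  have c1 := Finset.card_union_le (F.filter P1)
    (F.filter P2 ∪ (F.filter P3 ∪ (F.filter P4 ∪ F.filter P5)))
  have c2 := Finset.card_union_le (F.filter P2) (F.filter P3 ∪ (F.filter P4 ∪ F.filter P5))
  have c3 := Finset.card_union_le (F.filter P3) (F.filter P4 ∪ F.filter P5)
  have c4 := Finset.card_union_le (F.filter P4) (F.filter P5)
  omega

theorem t_Main : S_Main := by
  intro nsq hlf thp prA prB ineA ineB nrs est elo dec caC caD tau har sep spc hyp vpd cntG cntR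
    cntA cntB cntC cntD cntE
  obtain ⟨CA, hCA⟩ := cntA tau
  obtain ⟨CB, hCB⟩ := cntB
  obtain ⟨CC, hCC⟩ := cntC cntG har
  obtain ⟨CD', hCD⟩ := cntD tau vpd cntR har hyp
  obtain ⟨CE, hCE⟩ := cntE
  refine ⟨CA + (CB + (CC + (CE + CD'))), ?_⟩
  intro Y hY F hF
  have hY1 : 1 ≤ Y := by omega
  have key := Main_union F
    (fun V => ∃ e, 2 ≤ e ∧ e ≤ Y ^ 394 ∧ V ∣ e ^ 2 * (e ^ 2 - 1))
    (fun V => ∃ M : ℕ, M ≤ Y ^ 200 + 2 ∧ |(V : ℤ) + 1 - (M : ℤ) ^ 2| ≤ 36 * (Y : ℤ) ^ 172)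
    (fun V => V ≤ Y ^ 400 ∧ ∃ g S j E0 E1 : ℕ, V = g * S ∧ S ≤ Y ^ 196 ∧ CD g S j E0 E1 ∧
      Y ^ 80 ≤ E0 * E1)
    (fun V => 1 ≤ V ∧ V ≤ Y ^ 400 ∧ ∃ h, Y ^ 6 ≤ h ∧ h ^ 2 ∣ V)
    (fun V => ∃ p d : ℕ, 2 ≤ p ∧ 1 ≤ d ∧ p * d ≤ Y ^ 400 ∧ 4 * p ^ 2 ≤ Y ^ 400 + 2 ∧
      Rare (Y ^ 6) p d ∧ Eqs V p d)
    ?_ (CA * Y ^ 395) (CB * Y ^ 372) (CC * Y ^ 393) (CE * Y ^ 394) (CD' * Y ^ 396)
    (fun G hG => hCA Y hY1 G hG) (fun G hG => hCB Y hY1 G hG) (fun G hG => hCC Y hY1 G hG)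
    (fun G hG => hCE Y hY1 G hG) (fun G hG => hCD Y hY1 G hG)
  · have p1 : Y ^ 395 ≤ Y ^ 396 := Nat.pow_le_pow_right hY1 (by norm_num)
    have p2 : Y ^ 372 ≤ Y ^ 396 := Nat.pow_le_pow_right hY1 (by norm_num)
    have p3 : Y ^ 393 ≤ Y ^ 396 := Nat.pow_le_pow_right hY1 (by norm_num)
    have p4 : Y ^ 394 ≤ Y ^ 396 := Nat.pow_le_pow_right hY1 (by norm_num)
    calc F.card ≤ CA * Y ^ 395 + (CB * Y ^ 372 + (CC * Y ^ 393 + (CE * Y ^ 394 + CD' * Y ^ 396))) :=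
          key
      _ ≤ CA * Y ^ 396 + (CB * Y ^ 396 + (CC * Y ^ 396 + (CE * Y ^ 396 + CD' * Y ^ 396))) := by
          gcongr
      _ = (CA + (CB + (CC + (CE + CD')))) * Y ^ 396 := by
          simp only [add_mul]
  · intro V hV
    obtain ⟨hV400, a, c, p, d, n, w, t, b, r, lam, hP⟩ := hF V hV
    have hpd : 3 ≤ (p + 1) * d := by
      have h1 := hP.two
      have h2 := hP.d1
      calc 3 = 3 * 1 := by norm_num
        _ ≤ (p + 1) * d := Nat.mul_le_mul (by omega) h2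
    have ha3 : 3 ≤ a := hpd.trans hP.mda
    have hc3 : 3 ≤ c := hpd.trans hP.mdc
    obtain ⟨na, nc⟩ := nsq V a c p d t hP.sum (by omega) (by omega) hP.q1 hP.q2
    obtain ⟨hV6, h4p, -⟩ := ineA V a c p d n w t b r lam hP
    by_cases ha : a ≤ Y ^ 394
    · exact Or.inl ⟨a, by omega, ha, na⟩
    by_cases hc : c ≤ Y ^ 394
    · exact Or.inl ⟨c, by omega, hc, nc⟩
    rw [not_le] at ha hc
    by_cases ht : t < V * Y ^ 80
    · obtain ⟨m1, m2⟩ := nrs ineA Y V a c p d n w t b r lam hP hY hV400 ha hc ht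
      refine Or.inr (Or.inl ⟨2 * p + 1, m1, ?_⟩)
      have e : (((2 * p + 1 : ℕ) : ℤ)) = 2 * (p : ℤ) + 1 := by push_cast; rfl
      rw [e]
      exact m2
    rw [not_lt] at ht
    obtain ⟨g, S, j, s, hGS, hs⟩ := thp V a c p d n w t b r lam hP
    by_cases hS : S ≤ Y ^ 196
    · obtain ⟨E0, E1, hE, hE'⟩ := caC nsq hlf est elo Y V a c p d n w t b r lam g S j s hP hGS hY
        ha ht
      exact Or.inr (Or.inr (Or.inl ⟨hV400, g, S, j, E0, E1, hGS.hV, hS, hE, hE'⟩))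
    rw [not_le] at hS
    rcases caD prA prB ineB dec Y V a c p d n w t b r lam g S j s hP hGS hs hY hV400 ht hS.le with
      ⟨h, hh, hh'⟩ | hR
    · exact Or.inr (Or.inr (Or.inr (Or.inl ⟨by omega, hV400, h, hh, hh'⟩)))
    · refine Or.inr (Or.inr (Or.inr (Or.inr ⟨p, d, hP.two, hP.d1, ?_, ?_, hR, ?_⟩)))
      · have h1 : p * d ≤ (p + 1) * d := Nat.mul_le_mul_right d (Nat.le_succ p)
        have h2 := hP.mda
        have h3 := hP.sum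
        omega
      · omega
      · exact ⟨(a + 1) * (c + 1), a * c + t, hP.q1, hP.q2⟩

end QS3D.AA
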