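import Pool.Agent.Lib.MP_72d5fb_co.AA.Spec

/-!
# MP_72d5fb_co, part AA: case (B), V near a square (S_Nrs)
-/

set_option autoImplicit false

namespace QS3D.AA

open Finset

private theorem Nrs_core (V a c p d t A B P R L : ℤ) (hsum : a + c = V) (hd : 1 ≤ d)
    (hp : 2 ≤ p) (ht : 1 ≤ t) (q1 : (a + 1) * (c + 1) + (a * c + t) = V * ((2 * p + 1) * d) + 1)
    (q2 : (a + 1) * (c + 1) * (a * c + t) = p * (p + 1) * d ^ 2 * (V * (V + 1)))
    (hV : 6 ≤ V) (hM : 2 * p + 1 ≤ P + 2) (hac : (a * c) ^ 2 ≤ V ^ 3 * d ^ 2)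
    (hA1 : 1 ≤ A) (hB1 : 1 ≤ B) (hP1 : 1 ≤ P) (hR1 : 1 ≤ R)
    (hVQ : V ≤ P ^ 2) (ha : A < a) (hc : A < c) (htB : t < V * B)
    (hAL : A = P * L) (hrel : (P ^ 2) ^ 2 * B ^ 2 = A ^ 2 * R) (hRL : P ≤ R * L) :
    |V + 1 - (2 * p + 1) ^ 2| ≤ 36 * R := by
  have hVpos : 0 < V := by linarith
  have hV2 : 0 < V ^ 2 := by positivity
  have hA2 : 0 < A ^ 2 := by positivity
  have hsq : (t - V - 1) ^ 2 =
      V * (d ^ 2 * (V + 1 - (2 * p + 1) ^ 2)) + 2 * V * ((2 * p + 1) * d) + 1 := by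
    subst hsum
    linear_combination ((a + 1) * (c + 1) + (a * c + t) +
      ((a + c) * ((2 * p + 1) * d) + 1)) * q1 - 4 * q2
  -- `2 a c ≥ V A`
  have h2ac : V * A ≤ 2 * (a * c) := by
    rcases le_total a c with hle | hle
    · have h1 : V ≤ 2 * c := by linarith
      have h2 : V * A ≤ 2 * c * A := mul_le_mul_of_nonneg_right h1 (by linarith)
      have h3 : 2 * c * A ≤ 2 * c * a := mul_le_mul_of_nonneg_left ha.le (by linarith)
      linarith
    · have h1 : V ≤ 2 * a := by linarith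
      have h2 : V * A ≤ 2 * a * A := mul_le_mul_of_nonneg_right h1 (by linarith)
      have h3 : 2 * a * A ≤ 2 * a * c := mul_le_mul_of_nonneg_left hc.le (by linarith)
      linarith
  have hVA : 0 ≤ V * A := by positivity
  have h4ac : V ^ 2 * A ^ 2 ≤ 4 * (a * c) ^ 2 := by
    have := mul_self_le_mul_self hVA h2ac
    linarith
  have h4 : V ^ 2 * A ^ 2 ≤ 4 * (V ^ 3 * d ^ 2) := le_trans h4ac (by linarith)
  set D := V + 1 - (2 * p + 1) ^ 2 with hD
  rw [abs_le]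
  constructor
  · -- lower bound
    have h5 : 0 ≤ V * (d ^ 2 * D) + 2 * V * ((2 * p + 1) * d) + 1 := by
      rw [← hsq]; positivity
    have h6 : 0 ≤ d ^ 2 * D + 2 * ((2 * p + 1) * d) := by
      by_contra hneg
      push Not at hneg
      have h7 : d ^ 2 * D + 2 * ((2 * p + 1) * d) ≤ -1 := by linarith
      have h8 := mul_le_mul_of_nonneg_left h7 hVpos.le
      linarith
    have h7 : 0 ≤ d * D + 2 * (2 * p + 1) := by
      by_contra hneg
      push Not at hneg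
      have h8 : d * (d * D + 2 * (2 * p + 1)) < 0 := by
        apply mul_neg_of_pos_of_neg (by linarith) hneg
      linarith
    -- `A ≤ 2 d P`
    have h8 : A ^ 2 ≤ 4 * (V * d ^ 2) := by
      have : V ^ 2 * A ^ 2 ≤ V ^ 2 * (4 * (V * d ^ 2)) := by linarith
      exact le_of_mul_le_mul_left this hV2
    have h9 : A ^ 2 ≤ (2 * (d * P)) ^ 2 := by
      have h10 : V * d ^ 2 ≤ P ^ 2 * d ^ 2 := mul_le_mul_of_nonneg_right hVQ (by positivity)
      linarith
    have h10 : A ≤ 2 * (d * P) := by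
      have h0 : 0 ≤ 2 * (d * P) := by positivity
      exact abs_le_of_sq_le_sq' h9 h0 |>.2
    have h11 : L ≤ 2 * d := by
      have : P * L ≤ P * (2 * d) := by rw [← hAL]; linarith
      exact le_of_mul_le_mul_left this (by linarith)
    have h12 : P ≤ R * (2 * d) := le_trans hRL (mul_le_mul_of_nonneg_left h11 (by linarith))
    have h13' : 1 ≤ R * d := by
      have := mul_le_mul hR1 hd (by norm_num) (by linarith)
      linarith
    have h13 : 2 * (2 * p + 1) ≤ 36 * R * d := by linarith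
    have h14 : 0 ≤ d * (D + 36 * R) := by linarith
    have h15 : 0 ≤ D + 36 * R := by
      by_contra hneg
      push Not at hneg
      have := mul_neg_of_pos_of_neg (show (0 : ℤ) < d by linarith) hneg
      linarith
    linarith
  · -- upper bound
    rcases le_or_gt D 0 with hD0 | hD0
    · linarith
    have h5 : |t - V - 1| ≤ 3 * (V * B) := by
      have h51 : V * 1 ≤ V * B := mul_le_mul_of_nonneg_left hB1 hVpos.le
      rw [abs_le]
      constructor <;> linarith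
    have h6 : (t - V - 1) ^ 2 ≤ (3 * (V * B)) ^ 2 := by
      rw [← sq_abs (t - V - 1)]
      exact pow_le_pow_left₀ (abs_nonneg _) h5 2
    have h7 : V * (d ^ 2 * D) ≤ V * (9 * (V * B ^ 2)) := by
      have h8 : 0 ≤ 2 * V * ((2 * p + 1) * d) := by positivity
      linarith
    have h8 : d ^ 2 * D ≤ 9 * (V * B ^ 2) := le_of_mul_le_mul_left h7 hVpos
    have h9 : D * (V ^ 2 * A ^ 2) ≤ V ^ 2 * (36 * (V ^ 2 * B ^ 2)) := by
      have h10 : D * (V ^ 2 * A ^ 2) ≤ D * (4 * (V ^ 3 * d ^ 2)) :=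
        mul_le_mul_of_nonneg_left h4 hD0.le
      have h11 : V ^ 3 * (d ^ 2 * D) ≤ V ^ 3 * (9 * (V * B ^ 2)) :=
        mul_le_mul_of_nonneg_left h8 (by positivity)
      linarith
    have h10 : D * A ^ 2 ≤ 36 * (V ^ 2 * B ^ 2) := by
      have : V ^ 2 * (D * A ^ 2) ≤ V ^ 2 * (36 * (V ^ 2 * B ^ 2)) := by linarith
      exact le_of_mul_le_mul_left this hV2
    have h11 : V ^ 2 * B ^ 2 ≤ (P ^ 2) ^ 2 * B ^ 2 :=
      mul_le_mul_of_nonneg_right (pow_le_pow_left₀ hVpos.le hVQ 2) (by positivity)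
    have h12 : A ^ 2 * D ≤ A ^ 2 * (36 * R) := by
      rw [hrel] at h11
      linarith
    exact le_of_mul_le_mul_left h12 hA2

theorem t_Nrs : S_Nrs := by
  intro hIneA Y V a c p d n w t b r lam h hY hVQ ha hc htB
  obtain ⟨hV6, hp4, hac⟩ := hIneA V a c p d n w t b r lam h
  have hYpos : 0 < Y := by omega
  have hP1 : 1 ≤ Y ^ 200 := Nat.one_le_pow _ _ hYpos
  have hQ : Y ^ 400 = (Y ^ 200) ^ 2 := by rw [← pow_mul]
  have hM : 2 * p + 1 ≤ Y ^ 200 + 2 := by
    by_contra hneg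
    push Not at hneg
    have h1 : Y ^ 200 + 2 ≤ 2 * p := by omega
    have h2 : (Y ^ 200 + 2) ^ 2 ≤ (2 * p) ^ 2 := Nat.pow_le_pow_left h1 2
    rw [hQ] at hVQ
    generalize Y ^ 200 = P at *
    nlinarith
  refine ⟨hM, ?_⟩
  have hsum := h.sum
  have hq1 := h.q1
  have hq2 := h.q2
  have hd := h.d1
  have hp := h.two
  have ht := h.t1
  have hA1 : 1 ≤ Y ^ 394 := Nat.one_le_pow _ _ hYpos
  have hB1 : 1 ≤ Y ^ 80 := Nat.one_le_pow _ _ hYpos
  have hR1 : 1 ≤ Y ^ 172 := Nat.one_le_pow _ _ hYpos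
  have hAL : Y ^ 394 = Y ^ 200 * Y ^ 194 := by rw [← pow_add]
  have hrel : ((Y ^ 200) ^ 2) ^ 2 * (Y ^ 80) ^ 2 = (Y ^ 394) ^ 2 * Y ^ 172 := by
    rw [← pow_mul, ← pow_mul, ← pow_mul, ← pow_add, ← pow_mul, ← pow_add]
  have hRL : Y ^ 200 ≤ Y ^ 172 * Y ^ 194 := by
    rw [← pow_add]
    exact Nat.pow_le_pow_right hYpos (by norm_num)
  rw [hQ] at hVQ
  have key := Nrs_core (V : ℤ) a c p d t ((Y ^ 394 : ℕ) : ℤ) ((Y ^ 80 : ℕ) : ℤ)
    ((Y ^ 200 : ℕ) : ℤ) ((Y ^ 172 : ℕ) : ℤ) ((Y ^ 194 : ℕ) : ℤ)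
    (by exact_mod_cast hsum) (by exact_mod_cast hd) (by exact_mod_cast hp) (by exact_mod_cast ht)
    (by exact_mod_cast hq1) (by exact_mod_cast hq2) (by exact_mod_cast hV6)
    (by exact_mod_cast hM) (by exact_mod_cast hac) (by exact_mod_cast hA1)
    (by exact_mod_cast hB1) (by exact_mod_cast hP1) (by exact_mod_cast hR1)
    (by exact_mod_cast hVQ) (by exact_mod_cast ha)
    (by exact_mod_cast hc) (by exact_mod_cast htB) (by exact_mod_cast hAL)
    (by exact_mod_cast hrel) (by exact_mod_cast hRL)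
  rw [Nat.cast_pow] at key
  exact key

end QS3D.AA
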