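import Pool.Agent.Lib.MP_72d5fb_co.AA.Spec

/-! MP_72d5fb_co, AA/Nsq: `V` divides `a^2 (a^2 - 1)`. -/

set_option autoImplicit false

namespace QS3D.AA

open Finset

private theorem Nsq_one (V a c p d t : ℕ) (hs : a + c = V) (ha : 1 ≤ a)
    (q1 : (a + 1) * (c + 1) + (a * c + t) = V * ((2 * p + 1) * d) + 1)
    (q2 : (a + 1) * (c + 1) * (a * c + t) = p * (p + 1) * d ^ 2 * (V * (V + 1))) :
    V ∣ a ^ 2 * (a ^ 2 - 1) := by
  have h1 : 1 ≤ a ^ 2 := Nat.one_le_pow _ _ ha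
  have zs : (a : ℤ) + c = V := by exact_mod_cast hs
  have z1 : ((a : ℤ) + 1) * (c + 1) + (a * c + t) = V * ((2 * p + 1) * d) + 1 := by
    exact_mod_cast q1
  have z2 : ((a : ℤ) + 1) * (c + 1) * (a * c + t) = p * (p + 1) * d ^ 2 * (V * (V + 1)) := by
    exact_mod_cast q2
  have key : (V : ℤ) ∣ (a : ℤ) ^ 2 * ((a : ℤ) ^ 2 - 1) := by
    have hK : ((a : ℤ) + 1) * (c + 1) = (a + 1) * V + (1 - a ^ 2) := by rw [← zs]; ring
    have hK' : ((a : ℤ) * c + t) = V * ((2 * p + 1) * d) - (a + 1) * V + a ^ 2 := by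
      linear_combination z1 - hK
    rw [hK, hK'] at z2
    refine ⟨-((p : ℤ) * (p + 1) * d ^ 2 * (V + 1)) +
      ((a + 1) * (V * ((2 * p + 1) * d) - (a + 1) * V + a ^ 2) +
        (1 - a ^ 2) * (((2 * p + 1) * d) - (a + 1))), ?_⟩
    linear_combination (-1 : ℤ) * z2
  have h2 : (((a ^ 2 * (a ^ 2 - 1) : ℕ)) : ℤ) = (a : ℤ) ^ 2 * ((a : ℤ) ^ 2 - 1) := by
    rw [Nat.cast_mul, Nat.cast_sub h1]; push_cast; ring
  rw [← h2] at key
  exact_mod_cast key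

theorem t_Nsq : S_Nsq := by
  intro V a c p d t hs ha hc q1 q2
  refine ⟨Nsq_one V a c p d t hs ha q1 q2, Nsq_one V c a p d t (by omega) hc ?_ ?_⟩
  · rw [← q1]; ring
  · rw [← q2]; ring

end QS3D.AA
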