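import Pool.Agent.Lib.MP_72d5fb_co.AA.Spec

/-!
# MP_72d5fb_co, part AA, module PrA: the prime lemma for `p + 1`
-/

set_option autoImplicit false

namespace QS3D.AA

open Finset

theorem t_PrA : S_PrA := by
  intro V a c p d n w t b r lam g S j s hP hG q hq hq2 hqs hqp hqp2
  by_contra hcon
  push Not at hcon
  obtain ⟨hd, hd1, hV2⟩ := hcon
  have : Fact q.Prime := ⟨hq⟩
  have h2 : (2 : ZMod q) ≠ 0 := by
    intro h
    have h' : ((2 : ℕ) : ZMod q) = 0 := by exact_mod_cast h
    rw [ZMod.natCast_eq_zero_iff] at h'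
    have h3 := Nat.le_of_dvd (by norm_num) h'
    have h4 := hq.two_le
    omega
  have hδ : (d : ZMod q) ≠ 0 := by
    rwa [Ne, ZMod.natCast_eq_zero_iff]
  have hδ1 : (d : ZMod q) + 1 ≠ 0 := by
    intro h
    have h' : ((d + 1 : ℕ) : ZMod q) = 0 := by push_cast; exact h
    rw [ZMod.natCast_eq_zero_iff] at h'
    exact hd1 h'
  have hp : (p : ZMod q) + 1 = 0 := by
    have h' : ((p + 1 : ℕ) : ZMod q) = 0 := (ZMod.natCast_eq_zero_iff _ _).2 hqp
    push_cast at h'
    exact h'
  have hqt : q ∣ t := by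
    rw [hG.ht]
    exact Dvd.dvd.mul_left hqs g
  have ht : (t : ZMod q) = 0 := (ZMod.natCast_eq_zero_iff _ _).2 hqt
  have e0 : (a : ZMod q) + c = V := by
    have := congrArg (fun x : ℕ => (x : ZMod q)) hP.sum
    push_cast at this
    exact this
  have e1 : ((a : ZMod q) + 1) * (c + 1) + (a * c + t) = V * ((2 * p + 1) * d) + 1 := by
    have := congrArg (fun x : ℕ => (x : ZMod q)) hP.q1
    push_cast at this
    exact this
  have e2 : ((a : ZMod q) + 1) * (c + 1) * (a * c + t) = p * (p + 1) * d ^ 2 * (V * (V + 1)) := by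
    have := congrArg (fun x : ℕ => (x : ZMod q)) hP.q2
    push_cast at this
    exact this
  have ebk : (b : ZMod q) * ((a + 1) * (c + 1)) = d * n * ((V + 2) * (V + 1)) := by
    have := congrArg (fun x : ℕ => (x : ZMod q)) hP.hbk
    push_cast at this
    exact this
  by_cases hqV : q ∣ V
  · -- the case `q ∣ V`
    have hν : (V : ZMod q) = 0 := (ZMod.natCast_eq_zero_iff _ _).2 hqV
    have hγ : (c : ZMod q) = -a := by linear_combination e0 + hν
    have hα2 : (a : ZMod q) ^ 2 = 0 := by
      rw [hγ, hν, ht] at e1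
      have h3 : (2 : ZMod q) * (a : ZMod q) ^ 2 = 0 := by linear_combination -e1
      exact (mul_eq_zero.1 h3).resolve_left h2
    have hα : (a : ZMod q) = 0 := pow_eq_zero_iff (two_ne_zero) |>.1 hα2
    have hqa : q ∣ a := (ZMod.natCast_eq_zero_iff _ _).1 hα
    have hqg : q ∣ g := by
      rw [hG.hg]
      exact Nat.dvd_gcd hqV hqa
    have hg0 : g ≠ 0 := by
      intro h
      have h3 := hG.ha
      rw [h, Nat.zero_mul] at h3
      have h4 := hP.mda
      have h5 := hP.d1
      have h6 := hP.two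
      have h7 : 1 ≤ (p + 1) * d := Nat.mul_pos (by omega) h5
      omega
    have hs : (s : ℤ) = S * ((2 * p + 1) * d) - S - 2 * j * c := by
      have h3 : (g : ℤ) * s = g * (S * ((2 * p + 1) * d) - S - 2 * j * c) := by
        have h4 : ((a : ℤ) + 1) * (c + 1) + (a * c + t) = V * ((2 * p + 1) * d) + 1 := by
          exact_mod_cast hP.q1
        have h5 : (a : ℤ) + c = V := by exact_mod_cast hP.sum
        have h6 : (V : ℤ) = g * S := by exact_mod_cast hG.hV
        have h7 : (a : ℤ) = g * j := by exact_mod_cast hG.ha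
        have h8 : (t : ℤ) = g * s := by exact_mod_cast hG.ht
        rw [← h8]
        linear_combination h4 - h5 + (2 * c) * (-h7) + ((2 * p + 1) * d - 1) * h6
      exact mul_left_cancel₀ (by exact_mod_cast hg0) h3
    have hs' : (s : ZMod q) = S * ((2 * p + 1) * d) - S - 2 * j * c := by
      have := congrArg (fun x : ℤ => (x : ZMod q)) hs
      push_cast at this
      exact this
    have hs0 : (s : ZMod q) = 0 := (ZMod.natCast_eq_zero_iff _ _).2 hqs
    have hc0 : (c : ZMod q) = 0 := by rw [hγ, hα, neg_zero]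
    have hS : (S : ZMod q) * (d + 1) = 0 := by
      rw [hs0, hc0] at hs'
      linear_combination hs' + 2 * S * d * hp
    have hS0 : (S : ZMod q) = 0 := (mul_eq_zero.1 hS).resolve_right hδ1
    have hqS : q ∣ S := (ZMod.natCast_eq_zero_iff _ _).1 hS0
    apply hV2
    rw [hG.hV, pow_two]
    exact Nat.mul_dvd_mul hqg hqS
  · -- the case `q ∤ V`
    have hν : (V : ZMod q) ≠ 0 := by
      rwa [Ne, ZMod.natCast_eq_zero_iff]
    have hKK : ((a : ZMod q) + 1) * (c + 1) = 0 := by
      rw [ht, add_zero, hp] at e2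
      have h3 : ((a : ZMod q) + 1) * (c + 1) * (a * c) = 0 := by
        rw [e2]
        ring
      rcases mul_eq_zero.1 h3 with h4 | h4
      · exact h4
      · exfalso
        have h5 : (V : ZMod q) * (d + 1) = 0 := by
          rw [ht, add_zero] at e1
          linear_combination e1 - 2 * h4 - e0 + 2 * V * d * hp
        rcases mul_eq_zero.1 h5 with h6 | h6
        · exact hν h6
        · exact hδ1 h6
    have hVd : (V : ZMod q) * (d - 1) = 2 := by
      rw [ht, add_zero] at e1
      linear_combination e1 - 2 * hKK + e0 + 2 * V * d * hp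
    have hqn : ¬ q ∣ n := by
      intro hn
      apply hqp2
      have h3 : q ^ 2 ∣ p * (p + 1) * d * V := by
        rw [← hP.hn, pow_two]
        exact Nat.mul_dvd_mul hn hqt
      have hpp : ¬ q ∣ p := by
        intro h
        have h4 := (Nat.dvd_add_right h).1 hqp
        exact hq.one_lt.ne' (Nat.dvd_one.1 h4)
      have c1 : Nat.Coprime (q ^ 2) V := Nat.Coprime.pow_left 2 ((Nat.Prime.coprime_iff_not_dvd hq).2 hqV)
      have c2 : Nat.Coprime (q ^ 2) d := Nat.Coprime.pow_left 2 ((Nat.Prime.coprime_iff_not_dvd hq).2 hd)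
      have c3 : Nat.Coprime (q ^ 2) p := Nat.Coprime.pow_left 2 ((Nat.Prime.coprime_iff_not_dvd hq).2 hpp)
      exact c3.dvd_of_dvd_mul_left (c2.dvd_of_dvd_mul_right (c1.dvd_of_dvd_mul_right h3))
    have hn0 : (n : ZMod q) ≠ 0 := by
      rwa [Ne, ZMod.natCast_eq_zero_iff]
    rw [hKK, mul_zero] at ebk
    have h3 : ((V : ZMod q) + 2) * (V + 1) = 0 :=
      (mul_eq_zero.1 ebk.symm).resolve_left (mul_ne_zero hδ hn0)
    rcases mul_eq_zero.1 h3 with h4 | h4
    · have h5 : (2 : ZMod q) * d = 0 := by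
        linear_combination -hVd + (d - 1) * h4
      exact (mul_ne_zero h2 hδ) h5
    · exact hδ1 (by linear_combination -hVd + (d - 1) * h4)

end QS3D.AA
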