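import Pool.Agent.Lib.MP_72d5fb_co.AA.Spec

/-! MP_72d5fb_co, part AA: the prime lemma for `p = m - 1`. -/

set_option autoImplicit false

namespace QS3D.AA

open Finset

private theorem PrB_dvd {q x : ℕ} (h : (x : ZMod q) = 0) : q ∣ x :=
  (ZMod.natCast_eq_zero_iff x q).1 h

private theorem PrB_zero {q x : ℕ} (h : q ∣ x) : (x : ZMod q) = 0 :=
  (ZMod.natCast_eq_zero_iff x q).2 h

theorem t_PrB : S_PrB := by
  intro V a c p d n w t b r lam g S j s hP hG q hq hq2 hqs hqp hqp2
  have : Fact q.Prime := ⟨hq⟩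
  by_contra hcon
  push Not at hcon
  obtain ⟨hqd, hqd1, hqV⟩ := hcon
  -- facts in ZMod q
  have hd0 : (d : ZMod q) ≠ 0 := fun h => hqd (PrB_dvd h)
  have hd1 : (d : ZMod q) - 1 ≠ 0 := by
    intro h
    apply hqd1
    apply PrB_dvd
    rw [Nat.cast_sub hP.d1, Nat.cast_one]
    exact h
  have hp0 : (p : ZMod q) = 0 := PrB_zero hqp
  have hs0 : (s : ZMod q) = 0 := PrB_zero hqs
  have ht0 : (t : ZMod q) = 0 := by
    rw [hG.ht, Nat.cast_mul, hs0, mul_zero]
  have h2 : (2 : ZMod q) ≠ 0 := by
    intro h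
    have h' : q ∣ 2 := PrB_dvd (by exact_mod_cast h)
    have h3 := Nat.le_of_dvd (by norm_num) h'
    have h4 := hq.two_le
    omega
  have hsum : (a : ZMod q) + c = V := by exact_mod_cast congrArg (Nat.cast : ℕ → ZMod q) hP.sum
  have e1 : ((a : ZMod q) + 1) * (c + 1) + (a * c + t) = V * ((2 * p + 1) * d) + 1 := by
    exact_mod_cast congrArg (Nat.cast : ℕ → ZMod q) hP.q1
  have e2 : ((a : ZMod q) + 1) * (c + 1) * (a * c + t) =
      p * (p + 1) * d ^ 2 * (V * (V + 1)) := by
    exact_mod_cast congrArg (Nat.cast : ℕ → ZMod q) hP.q2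
  rw [hp0, ht0] at e1 e2
  have e3 : 2 * ((a : ZMod q) * c) = V * (d - 1) := by linear_combination e1 - hsum
  have e4 : ((a : ZMod q) * c + V + 1) * (a * c) = 0 := by
    linear_combination e2 - (a * c : ZMod q) * hsum
  by_cases hV : (V : ZMod q) = 0
  · -- q divides V
    have h5 : (a : ZMod q) * c = 0 := by
      rw [hV, zero_mul] at e3
      exact (mul_eq_zero.1 e3).resolve_left h2
    have h6 : (a : ZMod q) = 0 ∧ (c : ZMod q) = 0 := by
      rw [hV] at hsum
      rcases mul_eq_zero.1 h5 with h | h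
      · refine ⟨h, ?_⟩
        rw [h, zero_add] at hsum
        exact hsum
      · refine ⟨?_, h⟩
        rw [h, add_zero] at hsum
        exact hsum
    have h7 : q ∣ g := by
      rw [hG.hg]
      exact Nat.dvd_gcd (PrB_dvd hV) (PrB_dvd h6.1)
    have hg0 : (g : ℤ) ≠ 0 := by
      have h8 : 0 < t := hP.t1
      rw [hG.ht] at h8
      have h9 : 0 < g := Nat.pos_of_mul_pos_right h8
      exact_mod_cast h9.ne'
    have h8 : (g : ℤ) * (s : ℤ) = g * (S * ((2 * p + 1) * d) - S - 2 * j * c) := by
      have q1 : ((a : ℤ) + 1) * (c + 1) + (a * c + t) = V * ((2 * p + 1) * d) + 1 := by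
        exact_mod_cast hP.q1
      have hs : (a : ℤ) + c = V := by exact_mod_cast hP.sum
      have hVg : (V : ℤ) = g * S := by exact_mod_cast hG.hV
      have hag : (a : ℤ) = g * j := by exact_mod_cast hG.ha
      have htg : (t : ℤ) = g * s := by exact_mod_cast hG.ht
      rw [← htg]
      have : (t : ℤ) = V * ((2 * p + 1) * d) - V - 2 * (a * c) := by linear_combination q1 - hs
      rw [this, hVg, hag]
      ring
    have h9 : (s : ℤ) = S * ((2 * p + 1) * d) - S - 2 * j * c := mul_left_cancel₀ hg0 h8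
    have h10 : (s : ZMod q) = S * ((2 * p + 1) * d) - S - 2 * j * c := by
      exact_mod_cast congrArg (Int.cast : ℤ → ZMod q) h9
    rw [hs0, hp0, h6.2] at h10
    have h11 : (S : ZMod q) * (d - 1) = 0 := by linear_combination -h10
    have h12 : q ∣ S := PrB_dvd ((mul_eq_zero.1 h11).resolve_right hd1)
    apply hqV
    rw [hG.hV, sq]
    exact Nat.mul_dvd_mul h7 h12
  · -- q does not divide V
    have h5 : (a : ZMod q) * c + V + 1 = 0 := by
      rcases mul_eq_zero.1 e4 with h | h
      · exact h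
      · rw [h, mul_zero] at e3
        rcases mul_eq_zero.1 e3.symm with h' | h'
        · exact absurd h' hV
        · exact absurd h' hd1
    have h6 : (V : ZMod q) * (d + 1) = -2 := by linear_combination -e3 + 2 * h5
    have hqV1 : ¬ q ∣ V := fun h => hV (PrB_zero h)
    have hqp1 : ¬ q ∣ p + 1 := by
      intro h
      have h7 : q ∣ 1 := (Nat.dvd_add_right hqp).1 h
      exact hq.one_lt.ne' (Nat.dvd_one.1 h7)
    have hqn : ¬ q ∣ n := by
      intro hn
      have h7 : q ^ 2 ∣ n * t := by
        rw [hG.ht, sq]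
        exact Nat.mul_dvd_mul hn (hqs.mul_left g)
      rw [hP.hn, mul_assoc, mul_assoc] at h7
      have hc : Nat.Coprime (q ^ 2) ((p + 1) * (d * V)) := by
        refine Nat.Coprime.pow_left 2 ((Nat.Prime.coprime_iff_not_dvd hq).2 ?_)
        intro h
        rcases (Nat.Prime.dvd_mul hq).1 h with h | h
        · exact hqp1 h
        · rcases (Nat.Prime.dvd_mul hq).1 h with h | h
          · exact hqd h
          · exact hqV1 h
      exact hqp2 (hc.dvd_of_dvd_mul_right h7)
    have hn0 : (n : ZMod q) ≠ 0 := fun h => hqn (PrB_dvd h)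
    have e5 : (b : ZMod q) * ((a + 1) * (c + 1)) = d * n * ((V + 2) * (V + 1)) := by
      exact_mod_cast congrArg (Nat.cast : ℕ → ZMod q) hP.hbk
    have h7 : ((a : ZMod q) + 1) * (c + 1) = 0 := by linear_combination h5 + hsum
    rw [h7, mul_zero] at e5
    have h8 : (d : ZMod q) * n ≠ 0 := mul_ne_zero hd0 hn0
    rcases mul_eq_zero.1 ((mul_eq_zero.1 e5.symm).resolve_left h8) with h | h
    · have h9 : (2 : ZMod q) * d = 0 := by
        have hV2 : (V : ZMod q) = -2 := by linear_combination h
        rw [hV2] at h6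
        linear_combination -h6
      rcases mul_eq_zero.1 h9 with h' | h'
      · exact h2 h'
      · exact hd0 h'
    · have hV1 : (V : ZMod q) = -1 := by linear_combination h
      rw [hV1] at h6
      apply hd1
      linear_combination -h6

end QS3D.AA
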