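import Pool.Agent.Lib.MP_72d5fb_co.AA.Spec

/-!
# MP_72d5fb_co, part AA: from `Y` to a real power
-/

set_option autoImplicit false

namespace QS3D.AA

open Finset

theorem t_Rp : S_Rp := by
  rintro P h0 ⟨C, hC⟩
  refine ⟨(C : ℝ) * 4 ^ 396, fun N F hF => ?_⟩
  rcases Nat.eq_zero_or_pos N with rfl | hN
  · have hFe : F = ∅ := by
      rw [Finset.eq_empty_iff_forall_notMem]
      intro v hv
      have h1 := hF v hv
      have h2 : v = 0 := by omega
      subst h2
      exact h0 h1.2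
    rw [hFe, Finset.card_empty, Nat.cast_zero, Real.zero_rpow (by norm_num), mul_zero]
  · have hN1 : (1 : ℝ) ≤ N := by exact_mod_cast hN
    set x : ℝ := (N : ℝ) ^ (1 / 400 : ℝ) with hx
    have hx1 : 1 ≤ x := Real.one_le_rpow hN1 (by norm_num)
    have hx0 : 0 ≤ x := by linarith
    have hx400 : x ^ 400 = N := by
      rw [hx, ← Real.rpow_natCast, ← Real.rpow_mul (by linarith)]
      norm_num
    have hx396 : x ^ 396 = (N : ℝ) ^ (99 / 100 : ℝ) := by
      rw [hx, ← Real.rpow_natCast, ← Real.rpow_mul (by linarith)]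
      congr 1
      norm_num
    set X : ℕ := ⌊x⌋₊ with hX
    have hX1 : 1 ≤ X := Nat.le_floor (by exact_mod_cast hx1)
    have hXle : (X : ℝ) ≤ x := Nat.floor_le hx0
    have hXlt : x < X + 1 := Nat.lt_floor_add_one x
    have hNY : N ≤ (X + 3) ^ 400 := by
      have h1 : (N : ℝ) ≤ ((X + 3 : ℕ) : ℝ) ^ 400 := by
        rw [← hx400]
        refine pow_le_pow_left₀ hx0 ?_ 400
        push_cast
        linarith
      exact_mod_cast h1
    have h2 : F.card ≤ C * (X + 3) ^ 396 :=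
      hC (X + 3) (by omega) F fun v hv => ⟨(hF v hv).1.trans hNY, (hF v hv).2⟩
    have h3 : ((X + 3 : ℕ) : ℝ) ≤ 4 * x := by
      have h4 : (1 : ℝ) ≤ X := by exact_mod_cast hX1
      push_cast
      linarith
    have h5 : (F.card : ℝ) ≤ C * ((X + 3 : ℕ) : ℝ) ^ 396 := by exact_mod_cast h2
    calc (F.card : ℝ) ≤ C * ((X + 3 : ℕ) : ℝ) ^ 396 := h5
      _ ≤ C * (4 * x) ^ 396 :=
        mul_le_mul_of_nonneg_left (pow_le_pow_left₀ (Nat.cast_nonneg _) h3 396) (Nat.cast_nonneg C)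
      _ = C * 4 ^ 396 * (N : ℝ) ^ (99 / 100 : ℝ) := by
        rw [mul_pow, hx396, mul_assoc]

end QS3D.AA
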