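import Pool.Agent.Lib.MP_72d5fb_co.AA.Spec

/-!
# MP_72d5fb_co, part AA: `t = g s` and `s` divides `p (p+1) d`
-/

set_option autoImplicit false

namespace QS3D.AA

open Finset

theorem t_Thp : S_Thp := by
  intro V a c p d n w t b r lam h
  have hp := h.two
  have hd := h.d1
  have ha1 : 1 ≤ a := by
    have h1 := h.mda
    have h2 : 1 ≤ (p + 1) * d := Nat.mul_pos (by omega) hd
    omega
  have hV1 : 0 < V := by
    have := h.sum
    omega
  have hg : 0 < Nat.gcd V a := Nat.gcd_pos_of_pos_left _ hV1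
  obtain ⟨S, j, hcop, hV, ha⟩ := Nat.exists_coprime V a
  have hgt : Nat.gcd V a ∣ t := by
    have h1 : (2 * (a * c) + V) + t = V * ((2 * p + 1) * d) := by
      have h2 := h.q1
      have h3 := h.sum
      have h4 : (a + 1) * (c + 1) = a * c + V + 1 := by
        rw [← h3]
        ring
      rw [h4] at h2
      omega
    have h5 : Nat.gcd V a ∣ V * ((2 * p + 1) * d) :=
      Dvd.dvd.mul_right (Nat.gcd_dvd_left V a) _
    have h6 : Nat.gcd V a ∣ 2 * (a * c) + V :=
      Nat.dvd_add (Dvd.dvd.mul_left (Dvd.dvd.mul_right (Nat.gcd_dvd_right V a) _) _)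
        (Nat.gcd_dvd_left V a)
    rw [← h1] at h5
    exact (Nat.dvd_add_right h6).1 h5
  obtain ⟨s, hs⟩ := hgt
  have hPV : t ∣ p * (p + 1) * d * V := ⟨n, by rw [← h.hn, Nat.mul_comm]⟩
  have hPa : t ∣ p * (p + 1) * d * a := by
    refine ⟨w, ?_⟩
    have h1 : V * (p * (p + 1) * d * a) = V * (t * w) := by
      calc V * (p * (p + 1) * d * a) = (p * (p + 1) * d * V) * a := by ring
        _ = (n * t) * a := by rw [h.hn]
        _ = t * (n * a) := by ring
        _ = t * (w * V) := by rw [h.hw]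
        _ = V * (t * w) := by ring
    exact Nat.eq_of_mul_eq_mul_left hV1 h1
  have hPg : t ∣ p * (p + 1) * d * Nat.gcd V a := by
    rw [← Nat.gcd_mul_left]
    exact Nat.dvd_gcd hPV hPa
  refine ⟨Nat.gcd V a, S, j, s, ⟨rfl, ?_, ?_, hcop, hs⟩, ?_⟩
  · rw [Nat.mul_comm]
    exact hV
  · rw [Nat.mul_comm]
    exact ha
  · rw [hs, Nat.mul_comm (p * (p + 1) * d)] at hPg
    exact Nat.dvd_of_mul_dvd_mul_left hg hPg

end QS3D.AA
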