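import Pool.Agent.Lib.MP_72d5fb_co.AA.Spec

/-!
# MP_72d5fb_co, part AA: given `(p, d)` there are few `V`
-/

set_option autoImplicit false

namespace QS3D.AA

open Finset

/-- the positive number `Pi` -/
private def VpdP (p d : ℕ) : ℕ :=
  16 * d ^ 2 * (p * (p + 1)) * ((p * d - 1) * ((p + 1) * d - 1))

private lemma Vpd_pos (p d : ℕ) (hp : 2 ≤ p) (hd : 1 ≤ d) :
    0 < VpdP p d ∧ ((VpdP p d : ℕ) : ℤ) = 16 * (d : ℤ) ^ 2 * (p * (p + 1)) *
      ((p * d - 1) * ((p + 1) * d - 1)) := by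
  have h1 : 2 ≤ p * d := by nlinarith
  have h2 : 2 ≤ (p + 1) * d := by nlinarith
  obtain ⟨u, hu⟩ : ∃ u, p * d = u + 1 := ⟨p * d - 1, by omega⟩
  obtain ⟨w, hw⟩ : ∃ w, (p + 1) * d = w + 1 := ⟨(p + 1) * d - 1, by omega⟩
  have hu1 : 1 ≤ u := by omega
  have hw1 : 1 ≤ w := by omega
  have hP : VpdP p d = 16 * d ^ 2 * (p * (p + 1)) * (u * w) := by
    unfold VpdP
    rw [hu, hw]; simp
  have huZ : (p : ℤ) * d = u + 1 := by exact_mod_cast hu
  have hwZ : ((p : ℤ) + 1) * d = w + 1 := by exact_mod_cast hw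
  constructor
  · rw [hP]
    positivity
  · rw [hP]
    push_cast
    have e1 : (p : ℤ) * d - 1 = u := by linarith
    have e2 : ((p : ℤ) + 1) * d - 1 = w := by linarith
    rw [e1, e2]

private lemma Vpd_ex (p d V : ℕ) (hp : 2 ≤ p) (hd : 1 ≤ d) (h : Eqs V p d) :
    ∃ e e' : ℤ, e * e' = ((VpdP p d : ℕ) : ℤ) ∧
      e + e' = 2 * (2 * (d : ℤ) ^ 2 * V - (4 * p * (p + 1) * d ^ 2 - 2 * (2 * p + 1) * d)) := by
  obtain ⟨K, K', h1, h2⟩ := h
  have h1Z : (K : ℤ) + K' = V * ((2 * p + 1) * d) + 1 := by exact_mod_cast h1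
  have h2Z : (K : ℤ) * K' = p * (p + 1) * d ^ 2 * (V * (V + 1)) := by exact_mod_cast h2
  refine ⟨(2 * (d : ℤ) ^ 2 * V - (4 * p * (p + 1) * d ^ 2 - 2 * (2 * p + 1) * d)) +
      2 * d * (K' - K), (2 * (d : ℤ) ^ 2 * V - (4 * p * (p + 1) * d ^ 2 - 2 * (2 * p + 1) * d)) -
      2 * d * (K' - K), ?_, by ring⟩
  rw [(Vpd_pos p d hp hd).2]
  have h3 : ((K' : ℤ) - K) ^ 2 = (V * ((2 * p + 1) * d) + 1) ^ 2 -
      4 * (p * (p + 1) * d ^ 2 * (V * (V + 1))) := by
    rw [← h1Z, ← h2Z]; ring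
  linear_combination (-4 * (d : ℤ) ^ 2) * h3

theorem t_Vpd : S_Vpd := by
  intro p d hp hd F hF
  classical
  have hpos := (Vpd_pos p d hp hd).1
  have hex : ∀ V : ℕ, ∃ e : ℤ, V ∈ F → ∃ e' : ℤ, e * e' = ((VpdP p d : ℕ) : ℤ) ∧
      e + e' = 2 * (2 * (d : ℤ) ^ 2 * V -
        (4 * p * (p + 1) * d ^ 2 - 2 * (2 * p + 1) * d)) := by
    intro V
    by_cases hV : V ∈ F
    · obtain ⟨e, e', h1, h2⟩ := Vpd_ex p d V hp hd (hF V hV)
      exact ⟨e, fun _ => ⟨e', h1, h2⟩⟩
    · exact ⟨0, fun h => absurd h hV⟩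
  choose e he using hex
  have hcard : ((Finset.univ : Finset Bool) ×ˢ (VpdP p d).divisors).card =
      2 * (VpdP p d).divisors.card := by
    rw [Finset.card_product]; simp
  have hgoal : F.card ≤ ((Finset.univ : Finset Bool) ×ˢ (VpdP p d).divisors).card := by
    apply Finset.card_le_card_of_injOn (fun V => (decide (0 ≤ e V), (e V).natAbs))
    · intro V hV
      have hV' : V ∈ F := hV
      obtain ⟨e', h1, -⟩ := he V hV'
      simp only [Finset.coe_product, Set.mem_prod, Finset.mem_coe, Finset.mem_univ, true_and,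
        Nat.mem_divisors]
      refine ⟨?_, hpos.ne'⟩
      have hd : e V ∣ ((VpdP p d : ℕ) : ℤ) := ⟨e', h1.symm⟩
      have := Int.natAbs_dvd_natAbs.mpr hd
      simpa using this
    · intro V hV W hW hVW
      have hV' : V ∈ F := hV
      have hW' : W ∈ F := hW
      obtain ⟨e1, h1, h1s⟩ := he V hV'
      obtain ⟨e2, h2, h2s⟩ := he W hW'
      simp only [Prod.mk.injEq, decide_eq_decide] at hVW
      obtain ⟨hs, ha⟩ := hVW
      have hee : e V = e W := by
        rcases le_or_gt 0 (e V) with h | h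
        · have h' := hs.mp h
          omega
        · have h' : ¬ (0 ≤ e W) := fun hc => absurd (hs.mpr hc) (by omega)
          omega
      have hne : e V ≠ 0 := by
        intro h0
        rw [h0, zero_mul] at h1
        have : ((VpdP p d : ℕ) : ℤ) ≠ 0 := by exact_mod_cast hpos.ne'
        exact this h1.symm
      have h12 : e1 = e2 := by
        have : e V * e1 = e V * e2 := by rw [h1, hee, h2]
        exact mul_left_cancel₀ hne this
      have hfin : 2 * (d : ℤ) ^ 2 * V = 2 * (d : ℤ) ^ 2 * W := by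
        rw [hee, h12] at h1s
        linarith
      have hd0 : (2 * (d : ℤ) ^ 2) ≠ 0 := by positivity
      have := mul_left_cancel₀ hd0 hfin
      exact_mod_cast this
  rw [hcard] at hgoal
  exact hgoal

end QS3D.AA
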