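import Pool.Agent.Lib.MP_72d5fb_co.AA.Dpar
import Pool.Agent.Lib.MP_72d5fb_co.AA.Nsq
import Pool.Agent.Lib.MP_72d5fb_co.AA.Hlf
import Pool.Agent.Lib.MP_72d5fb_co.AA.Thp
import Pool.Agent.Lib.MP_72d5fb_co.AA.PrA
import Pool.Agent.Lib.MP_72d5fb_co.AA.PrB
import Pool.Agent.Lib.MP_72d5fb_co.AA.IneA
import Pool.Agent.Lib.MP_72d5fb_co.AA.IneB
import Pool.Agent.Lib.MP_72d5fb_co.AA.Nrs
import Pool.Agent.Lib.MP_72d5fb_co.AA.Est
import Pool.Agent.Lib.MP_72d5fb_co.AA.Elo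
import Pool.Agent.Lib.MP_72d5fb_co.AA.Dec
import Pool.Agent.Lib.MP_72d5fb_co.AA.CaC
import Pool.Agent.Lib.MP_72d5fb_co.AA.CaD
import Pool.Agent.Lib.MP_72d5fb_co.AA.Tau
import Pool.Agent.Lib.MP_72d5fb_co.AA.Har
import Pool.Agent.Lib.MP_72d5fb_co.AA.CntA
import Pool.Agent.Lib.MP_72d5fb_co.AA.CntB
import Pool.Agent.Lib.MP_72d5fb_co.AA.Sep
import Pool.Agent.Lib.MP_72d5fb_co.AA.Spc
import Pool.Agent.Lib.MP_72d5fb_co.AA.CntG
import Pool.Agent.Lib.MP_72d5fb_co.AA.CntC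
import Pool.Agent.Lib.MP_72d5fb_co.AA.CntE
import Pool.Agent.Lib.MP_72d5fb_co.AA.Vpd
import Pool.Agent.Lib.MP_72d5fb_co.AA.Hyp
import Pool.Agent.Lib.MP_72d5fb_co.AA.CntR
import Pool.Agent.Lib.MP_72d5fb_co.AA.CntD
import Pool.Agent.Lib.MP_72d5fb_co.AA.Main
import Pool.Agent.Lib.MP_72d5fb_co.AA.Rp

/-! MP_72d5fb_co, AA/Lit: the theorem in literal form. -/

set_option autoImplicit false

namespace QS3D.AA

open Finset

/-- There is an open-case quasi-symmetric 3-design on `v` points. -/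
def Open3 (v : ℕ) : Prop :=
  ∃ (b k l x y : ℕ) (B : Fin b → Finset (Fin v)), IsDesign3 B k l ∧ IsQS B x y ∧ 0 < x ∧
    2 * k < v + x

theorem lit : ∃ C : ℝ, ∀ N : ℕ, ∀ F : Finset ℕ, (∀ v ∈ F, v ≤ N ∧ Open3 v) →
    (F.card : ℝ) ≤ C * (N : ℝ) ^ (99 / 100 : ℝ) := by
  have hMain := t_Main t_Nsq t_Hlf t_Thp t_PrA t_PrB t_IneA t_IneB t_Nrs t_Est t_Elo t_Dec
    t_CaC t_CaD t_Tau t_Har t_Sep t_Spc t_Hyp t_Vpd t_CntG t_CntR t_CntA t_CntB t_CntC t_CntD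
    t_CntE
  refine t_Rp Open3 ?_ ?_
  · rintro ⟨b, k, l, x, y, B, hD, -, -, -⟩
    have h1 := hD.lt_card
    simp at h1
  · obtain ⟨C, hC⟩ := hMain
    refine ⟨C, fun Y hY F hF => ?_⟩
    have key : ∀ v ∈ F, ∃ V a c p d n w t b r lam : ℕ, v = V + 2 ∧
        Par V a c p d n w t b r lam := by
      intro v hv
      obtain ⟨b, k, l, x, y, B, hD, hQ, hx, hx'⟩ := (hF v hv).2
      obtain ⟨V, a, c, p, d, n, w, t, b', r, lam, h1, h2⟩ :=
        t_Dpar (Fin v) (Fin b) B k l x y hD hQ hx (by rw [Fintype.card_fin]; exact hx')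
      rw [Fintype.card_fin] at h1
      exact ⟨V, a, c, p, d, n, w, t, b', r, lam, h1, h2⟩
    have h2 : (F.image fun v => v - 2).card = F.card := by
      apply card_image_of_injOn
      intro v hv v' hv' h
      obtain ⟨V, _, _, _, _, _, _, _, _, _, _, h1, -⟩ := key v hv
      obtain ⟨V', _, _, _, _, _, _, _, _, _, _, h1', -⟩ := key v' hv'
      simp only at h
      omega
    rw [← h2]
    apply hC Y hY
    intro V hV
    obtain ⟨v, hv, rfl⟩ := mem_image.1 hV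
    obtain ⟨V, a, c, p, d, n, w, t, b', r, lam, h1, h3⟩ := key v hv
    refine ⟨by have := (hF v hv).1; omega, a, c, p, d, n, w, t, b', r, lam, ?_⟩
    have : v - 2 = V := by omega
    rw [this]
    exact h3

end QS3D.AA
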